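import Pool.Agent.P.MP_80096b_al.Order

namespace Pool.Agent.P.MP_80096b_al

open Finset MvPolynomial

variable {N : ℕ}

noncomputable def chr (x : Fin N → ℂ) (hx : ∀ i, x i ≠ 0) : Multiplicative (Fin N → ℤ) →* ℂ where
  toFun γ := ∏ i, x i ^ (γ.toAdd i)
  map_one' := by simp
  map_mul' γ η := by simp [zpow_add₀ (hx _), Finset.prod_mul_distrib]

noncomputable def ev (x : Fin N → ℂ) (hx : ∀ i, x i ≠ 0) : A N →ₐ[ℂ] ℂ :=
  AddMonoidAlgebra.lift ℂ ℂ (Fin N → ℤ) (chr x hx)

lemma ev_single (x : Fin N → ℂ) (hx : ∀ i, x i ≠ 0) (γ : Fin N → ℤ) (c : ℂ) :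
    ev x hx (AddMonoidAlgebra.single γ c) = c * ∏ i, x i ^ γ i := by
  rw [ev, AddMonoidAlgebra.lift_single]; rfl

lemma ev_xp (x : Fin N → ℂ) (hx : ∀ i, x i ≠ 0) (i : Fin N) (n : ℤ) :
    ev x hx (xp i n) = x i ^ n := by
  rw [xp, ev_single, one_mul, Finset.prod_eq_single i] <;> simp +contextual [Pi.single_eq_of_ne]

lemma ev_phiA (x : Fin N → ℂ) (hx : ∀ i, x i ≠ 0) (f : Lam) :
    ev x hx (phiA N f) = phi f x := by
  have : (ev x hx).comp (phiA N) = aeval (fun a : Idx => ∑ j, x j ^ (a : ℤ)) := by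
    ext a
    simp [phiA_X, ps, ev_xp]
  rw [← AlgHom.comp_apply, this, phi]; rfl

noncomputable def uchr (γ : Fin N → ℤ) : (Fin N → ℂˣ) →* ℂ where
  toFun x := ∏ i, (x i : ℂ) ^ γ i
  map_one' := by simp
  map_mul' x y := by simp [mul_zpow, Finset.prod_mul_distrib]

lemma uchr_inj : Function.Injective (uchr : (Fin N → ℤ) → _) := by
  intro γ η h
  funext i
  have h2 : ((2 : ℂ)) ≠ 0 := two_ne_zero
  have := DFunLike.congr_fun h (Pi.mulSingle i (Units.mk0 2 h2))
  simp only [uchr, MonoidHom.coe_mk, OneHom.coe_mk] at this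
  rw [Finset.prod_eq_single i, Finset.prod_eq_single i] at this
  · simp only [Pi.mulSingle_eq_same, Units.val_mk0] at this
    have h3 : ((2 : ℝ) ^ γ i) = (2 : ℝ) ^ η i := by
      have h4 := congrArg norm this
      simpa [norm_zpow] using h4
    exact zpow_right_injective₀ (by norm_num) (by norm_num) h3
  all_goals simp +contextual [Pi.mulSingle_eq_of_ne]

lemma ev_inj {g : A N} (h : ∀ x hx, ev x hx g = 0) : g = 0 := by
  have hli := (linearIndependent_monoidHom (Fin N → ℂˣ) ℂ).comp _ (uchr_inj (N := N))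
  rw [linearIndependent_iff] at hli
  have : g.coeff = 0 := by
    apply hli
    funext x
    have := h (fun i => (x i : ℂ)) (fun i => (x i).ne_zero)
    rw [ev, AddMonoidAlgebra.lift_apply] at this
    rw [Finsupp.linearCombination_apply, Finsupp.sum, Finset.sum_apply]
    exact this
  simpa using this

lemma ev_inj' {g : A N} (h : ∀ x hx, Function.Injective x → ev x hx g = 0) : g = 0 := by
  have hΔ : (∏ i : Fin N, ∏ j with i < j, (xp i 1 - xp j 1) : A N) ≠ 0 := by
    rw [Finset.prod_ne_zero_iff]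
    intro i _
    rw [Finset.prod_ne_zero_iff]
    intro j hj h0
    have hij := (Finset.mem_filter.mp hj).2
    have := congrArg (fun w : A N => w.coeff (Pi.single i 1)) h0
    have hne : (Pi.single j 1 : Fin N → ℤ) ≠ Pi.single i 1 := by
      intro he
      have := congrFun he i
      simp [Pi.single_eq_of_ne hij.ne] at this
    simp [xp, Finsupp.single_eq_of_ne' hne] at this
  have : (∏ i : Fin N, ∏ j with i < j, (xp i 1 - xp j 1) : A N) * g = 0 := by
    apply ev_inj
    intro x hx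
    rw [map_mul]
    by_cases hi : Function.Injective x
    · rw [h x hx hi, mul_zero]
    · have : ∃ i j, i < j ∧ x i = x j := by
        unfold Function.Injective at hi
        push Not at hi
        obtain ⟨i, j, h1, h2⟩ := hi
        rcases lt_or_gt_of_ne h2 with h3 | h3
        · exact ⟨i, j, h3, h1⟩
        · exact ⟨j, i, h3, h1.symm⟩
      obtain ⟨i, j, hij, he⟩ := this
      rw [map_prod, Finset.prod_eq_zero (Finset.mem_univ i), zero_mul]
      rw [map_prod]
      apply Finset.prod_eq_zero (i := j) (by simpa using hij)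
      simp [ev_xp, he]
  exact (mul_eq_zero.mp this).resolve_left hΔ

noncomputable def toA (N : ℕ) : MvPolynomial (Fin N) ℂ →ₐ[ℂ] A N := aeval (fun i => xp i 1)

lemma toA_monomial (μ : Fin N →₀ ℕ) (c : ℂ) :
    toA N (monomial μ c) = AddMonoidAlgebra.single (fun i => (μ i : ℤ)) c := by
  rw [toA, aeval_monomial, Finsupp.prod_fintype _ _ (by simp)]
  simp only [← xp_mul_nat, one_mul]
  simp only [xp, AddMonoidAlgebra.prod_single, Finset.prod_const_one,
    AddMonoidAlgebra.coe_algebraMap, Function.comp_apply, AddMonoidAlgebra.single_mul_single,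
    zero_add, mul_one, Finset.univ_sum_single]
  rfl

lemma coeff_toA (J : MvPolynomial (Fin N) ℂ) (μ : Fin N →₀ ℕ) :
    (toA N J).coeff (fun i => (μ i : ℤ)) = coeff μ J := by
  classical
  induction J using MvPolynomial.induction_on' with
  | monomial u c =>
    rw [toA_monomial, coeff_monomial, AddMonoidAlgebra.coeff_single, Finsupp.single_apply]
    congr 1
    apply propext
    constructor
    · intro h; ext i; exact_mod_cast congrFun h i
    · rintro rfl; rfl
  | add p q hp hq => simp only [map_add, AddMonoidAlgebra.coeff_add, Finsupp.add_apply, hp, hq,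
      coeff_add]

lemma coeff_toA_ne (J : MvPolynomial (Fin N) ℂ) (γ : Fin N → ℤ) (h : (toA N J).coeff γ ≠ 0) :
    ∃ μ : Fin N →₀ ℕ, γ = fun i => (μ i : ℤ) := by
  rw [J.as_sum, map_sum, AddMonoidAlgebra.coeff_sum, Finsupp.finsetSum_apply] at h
  obtain ⟨μ, _, hμ⟩ := Finset.exists_ne_zero_of_sum_ne_zero h
  refine ⟨μ, ?_⟩
  by_contra hne
  rw [toA_monomial, AddMonoidAlgebra.coeff_single, Finsupp.single_eq_of_ne hne] at hμ
  exact hμ rfl

lemma exists_toA (T : A N) (h : ∀ γ, T.coeff γ ≠ 0 → ∀ i, 0 ≤ γ i) : ∃ J, toA N J = T := by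
  refine ⟨∑ γ ∈ T.coeff.support,
    monomial (Finsupp.equivFunOnFinite.symm (fun i => (γ i).toNat)) (T.coeff γ), ?_⟩
  conv_rhs => rw [← AddMonoidAlgebra.sum_coeff_single T]
  rw [map_sum, Finsupp.sum]
  apply Finset.sum_congr rfl
  intro γ hγ
  rw [toA_monomial]
  congr 1
  funext i
  simp [h γ (Finsupp.mem_support_iff.mp hγ) i]

lemma ev_toA (x : Fin N → ℂ) (hx : ∀ i, x i ≠ 0) (J : MvPolynomial (Fin N) ℂ) :
    ev x hx (toA N J) = eval x J := by
  have : (ev x hx).comp (toA N) = aeval x := by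
    ext a
    simp [toA, ev_xp]
  rw [← AlgHom.comp_apply, this]; rfl

lemma th_toA (i : Fin N) (J : MvPolynomial (Fin N) ℂ) : th i (toA N J) = toA N (euler i J) := by
  induction J using MvPolynomial.induction_on' with
  | monomial u c =>
    rw [euler, X_mul_pderiv_monomial, map_nsmul, toA_monomial, th_single,
      ← Nat.cast_smul_eq_nsmul ℂ]
    simp
  | add p q hp hq => simp only [euler, map_add, mul_add] at *; rw [hp, hq]

noncomputable def PW (k : ℂ) (g : A N) (x : Fin N → ℂ) (hx : ∀ i, x i ≠ 0) : ℂ :=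
  ∑ i, ev x hx (th i (th i g)) - k * ∑ i, ∑ j with i < j,
    (x i + x j) / (x i - x j) * (ev x hx (th i g) - ev x hx (th j g))

lemma Rel.pw {k : ℂ} {g h : A N} (hr : Rel k g h) (x : Fin N → ℂ) (hx : ∀ i, x i ≠ 0)
    (hi : Function.Injective x) : PW k g x hx = ev x hx h := by
  obtain ⟨u, hu, rfl⟩ := hr
  simp only [PW, map_sub, map_sum, map_smul, smul_eq_mul]
  congr 2
  apply Finset.sum_congr rfl; intro i _
  apply Finset.sum_congr rfl; intro j hj
  have hij := (Finset.mem_filter.mp hj).2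
  have := congrArg (ev x hx) (hu i j hij)
  simp only [map_mul, map_sub, map_add, ev_xp, zpow_one] at this
  have hne : x i - x j ≠ 0 := sub_ne_zero.mpr (fun h => hij.ne (hi h))
  field_simp
  linear_combination -this

lemma PW_toA (k : ℂ) (J : MvPolynomial (Fin N) ℂ) (x : Fin N → ℂ) (hx : ∀ i, x i ≠ 0) :
    PW k (toA N J) x hx = ∑ i, eval x (euler i (euler i J)) -
      k * ∑ i, ∑ j with i < j,
        (x i + x j) / (x i - x j) * (eval x (euler i J) - eval x (euler j J)) := by
  simp only [PW, th_toA, ev_toA]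

noncomputable def sh (N : ℕ) (c : ℤ) : A N := AddMonoidAlgebra.single (fun _ => c) 1

lemma ev_sh (x : Fin N → ℂ) (hx : ∀ i, x i ≠ 0) (c : ℤ) : ev x hx (sh N c) = (∏ i, x i) ^ c := by
  rw [sh, ev_single, one_mul, Finset.prod_zpow]

lemma coeff_sh_mul (c : ℤ) (T : A N) (γ : Fin N → ℤ) :
    (sh N c * T).coeff γ = T.coeff (fun i => γ i - c) := by
  rw [sh, AddMonoidAlgebra.coeff_single_mul_apply, one_mul]
  congr 1
  funext i
  simp only [Pi.add_apply, Pi.neg_apply]; ring

lemma th_sh_mul (i : Fin N) (c : ℤ) (T : A N) :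
    th i (sh N c * T) = sh N c * ((c : ℂ) • T + th i T) := by
  rw [th_mul, sh, th_single, mul_add, smul_mul_assoc, mul_smul_comm]

lemma sum_th {T : A N} {s : ℤ} (h : ∀ γ, T.coeff γ ≠ 0 → ∑ i, γ i = s) :
    ∑ i, th i T = (s : ℂ) • T := by
  ext γ
  simp only [AddMonoidAlgebra.coeff_sum, Finsupp.finsetSum_apply, coeff_th,
    AddMonoidAlgebra.coeff_smul, Finsupp.smul_apply, smul_eq_mul, ← Finset.sum_mul]
  by_cases h0 : T.coeff γ = 0
  · simp [h0]
  · rw [← h γ h0]; push_cast; rfl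

lemma PW_sh (k : ℂ) (c : ℤ) {T : A N} {s : ℤ} (h : ∀ γ, T.coeff γ ≠ 0 → ∑ i, γ i = s)
    (x : Fin N → ℂ) (hx : ∀ i, x i ≠ 0) :
    PW k (sh N c * T) x hx =
      ev x hx (sh N c) * ((N * c ^ 2 + 2 * c * s) * ev x hx T + PW k T x hx) := by
  have h1 := congrArg (ev x hx) (sum_th h)
  simp only [map_sum, map_smul, smul_eq_mul] at h1
  simp only [PW, th_sh_mul, map_mul, map_add, map_smul, smul_eq_mul]
  have e1 : ∑ i, ev x hx (sh N c) * (c * (c * ev x hx T + ev x hx (th i T)) +
      (c * ev x hx (th i T) + ev x hx (th i (th i T)))) =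
      ev x hx (sh N c) * ((N * c ^ 2 + 2 * c * s) * ev x hx T +
        ∑ i, ev x hx (th i (th i T))) := by
    rw [← Finset.mul_sum]
    congr 1
    simp only [mul_add, Finset.sum_add_distrib, ← Finset.mul_sum, h1, Finset.sum_const,
      Finset.card_univ, Fintype.card_fin, nsmul_eq_mul]
    ring
  have e2 : ∑ i, ∑ j with i < j, (x i + x j) / (x i - x j) *
      (ev x hx (sh N c) * (c * ev x hx T + ev x hx (th i T)) -
        ev x hx (sh N c) * (c * ev x hx T + ev x hx (th j T))) =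
      ev x hx (sh N c) * ∑ i, ∑ j with i < j, (x i + x j) / (x i - x j) *
        (ev x hx (th i T) - ev x hx (th j T)) := by
    rw [Finset.mul_sum]
    apply Finset.sum_congr rfl; intro i _
    rw [Finset.mul_sum]
    apply Finset.sum_congr rfl; intro j _
    ring
  rw [e1, e2]; ring

lemma Tri.bdd {G : Type} [AddCommGroup G] [LinearOrder G] [IsOrderedAddMonoid G]
    {κ : (Fin N → ℤ) →+ G} (hκ : Adm κ) {χ : Fin N → ℤ} {g : A N} (h : Tri χ g) : Bdd κ χ g :=
  fun γ hγ => (h γ hγ).kap_le hκ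

lemma sum_filter_sub (γ : Fin N → ℤ) (c : ℤ) (s : Finset (Fin N)) :
    ∑ i ∈ s, (γ i - c) = ∑ i ∈ s, γ i - s.card * c := by
  rw [Finset.sum_sub_distrib]; simp

/-- From the polynomial definition to the Laurent setting. -/
lemma bridge_to {n : ℕ} {k : ℂ} {χ : Fin (n + 1) → ℤ} (hχ : Antitone χ) {g h : A (n + 1)}
    (hs : Sym g) (hr : Rel k g h) {J : MvPolynomial (Fin (n + 1)) ℂ}
    (hJ : IsJack k (fun i => (χ i - χ (Fin.last n)).toNat) J)
    (hg : ∀ x hx, ev x hx g = (∏ i, x i) ^ χ (Fin.last n) * eval x J) :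
    g.coeff χ = 1 ∧ Tri χ g ∧ h = eig k χ • g := by
  obtain ⟨-, h1, h2, e, he⟩ := hJ
  set c := χ (Fin.last n) with hc
  have hν : ∀ i, (((χ i - c).toNat : ℕ) : ℤ) = χ i - c := fun i =>
    Int.toNat_of_nonneg (sub_nonneg.mpr (hχ (Fin.le_last i)))
  have hgJ : g = sh (n + 1) c * toA (n + 1) J := by
    rw [← sub_eq_zero]
    apply ev_inj
    intro x hx
    rw [map_sub, map_mul, ev_sh, ev_toA, hg, sub_self]
  have c1 : g.coeff χ = 1 := by
    rw [hgJ, coeff_sh_mul, ← h1, ← coeff_toA]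
    congr 1
    funext i
    simp [hν]
  have c2 : Tri χ g := by
    apply tri_of_anti hs
    intro γ hγ hne
    rw [hgJ, coeff_sh_mul] at hne
    obtain ⟨μ, hμ⟩ := coeff_toA_ne _ _ hne
    rw [hμ, coeff_toA] at hne
    have hμ' : ∀ i, (μ i : ℤ) = γ i - c := fun i => (congrFun hμ i).symm
    have hanti : Antitone μ := by
      intro i j hij
      have := hγ hij
      have := hμ' i
      have := hμ' j
      omega
    obtain ⟨g1, g2⟩ := h2 μ hanti hne
    constructor
    · have := congrArg (Nat.cast : ℕ → ℤ) g1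
      push_cast at this
      simp only [hμ', hν, sum_filter_sub] at this
      omega
    · intro m
      have : ((∑ i : Fin (n + 1) with i.val < m, μ i : ℕ) : ℤ) ≤
          ((∑ i : Fin (n + 1) with i.val < m, (χ i - c).toNat : ℕ) : ℤ) := by exact_mod_cast g2 m
      push_cast at this
      simp only [hμ', hν, sum_filter_sub] at this
      omega
  have hT : ∀ γ, (toA (n + 1) J).coeff γ ≠ 0 → ∑ i, γ i = ∑ i, χ i - (n + 1 : ℕ) * c := by
    intro γ hγ
    have := (c2 (fun i => γ i + c) (by rw [hgJ, coeff_sh_mul]; simpa using hγ)).1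
    rw [← this, Finset.sum_add_distrib]; simp
  have c3 : ∃ e' : ℂ, h = e' • g := by
    refine ⟨((n + 1 : ℕ) * c ^ 2 + 2 * c * (∑ i, χ i - (n + 1 : ℕ) * c : ℤ)) + e, ?_⟩
    rw [← sub_eq_zero]
    apply ev_inj'
    intro x hx hi
    rw [map_sub, ← hr.pw x hx hi, map_smul, hgJ, PW_sh k c hT, PW_toA, he x hi hx, map_mul,
      ev_toA, smul_eq_mul]
    ring
  obtain ⟨e', rfl⟩ := c3
  refine ⟨c1, c2, ?_⟩
  have := (hr.lead (kap_adm 0 antitone_const) (c2.bdd (kap_adm 0 antitone_const))).2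
  simp only [AddMonoidAlgebra.coeff_smul, Finsupp.smul_apply, c1, smul_eq_mul, mul_one] at this
  rw [this]

/-- From the Laurent setting to the polynomial definition. -/
lemma bridge_from {n : ℕ} {k : ℂ} {χ : Fin (n + 1) → ℤ} (hχ : Antitone χ) {g : A (n + 1)}
    (hs : Sym g) {e : ℂ} (hr : Rel k g (e • g)) (c1 : g.coeff χ = 1) (c2 : Tri χ g) :
    ∃ J : MvPolynomial (Fin (n + 1)) ℂ, IsJack k (fun i => (χ i - χ (Fin.last n)).toNat) J ∧
      ∀ x hx, ev x hx g = (∏ i, x i) ^ χ (Fin.last n) * eval x J := by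
  set c := χ (Fin.last n) with hc
  have hν : ∀ i, (((χ i - c).toNat : ℕ) : ℤ) = χ i - c := fun i =>
    Int.toNat_of_nonneg (sub_nonneg.mpr (hχ (Fin.le_last i)))
  have hlow : ∀ γ, g.coeff γ ≠ 0 → ∀ i, c ≤ γ i := by
    intro γ hγ i
    obtain ⟨g1, g2⟩ := c2 (γ ∘ Equiv.swap i (Fin.last n)) (by rwa [hs])
    have g3 := g2 n
    have hsplit : ∀ η : Fin (n + 1) → ℤ,
        ∑ j, η j = ∑ j : Fin (n + 1) with j.val < n, η j + η (Fin.last n) := by
      intro η
      rw [← Finset.sum_erase_add _ _ (Finset.mem_univ (Fin.last n))]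
      congr 2
      ext j
      simp only [Finset.mem_erase, Finset.mem_univ, and_true, Finset.mem_filter, true_and,
        Ne, Fin.ext_iff, Fin.val_last]
      omega
    rw [hsplit, hsplit χ] at g1
    simp only [Function.comp_apply, Equiv.swap_apply_right] at g1 g3
    omega
  obtain ⟨J, hJ⟩ := exists_toA (sh (n + 1) (-c) * g) (by
    intro γ hγ i
    rw [coeff_sh_mul] at hγ
    have := hlow _ hγ i
    omega)
  have hcoef : ∀ μ : Fin (n + 1) →₀ ℕ, coeff μ J = g.coeff (fun i => (μ i : ℤ) + c) := by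
    intro μ
    rw [← coeff_toA, hJ, coeff_sh_mul]
    simp
  have hgJ : g = sh (n + 1) c * toA (n + 1) J := by
    ext γ
    rw [hJ, coeff_sh_mul, coeff_sh_mul]
    simp
  refine ⟨J, ⟨?_, ?_, ?_, ?_⟩, ?_⟩
  · intro σ
    ext μ
    have h1 := coeff_rename_mapDomain σ σ.injective J (μ.mapDomain σ.symm)
    rw [← Finsupp.mapDomain_comp, Equiv.self_comp_symm, Finsupp.mapDomain_id] at h1
    rw [h1, hcoef, hcoef, ← hs σ (fun i => (μ i : ℤ) + c)]
    congr 1
    funext i
    simp
  · rw [hcoef, ← c1]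
    congr 1
    funext i
    simp [hν]
  · intro μ _ hne
    rw [hcoef] at hne
    obtain ⟨g1, g2⟩ := c2 _ hne
    constructor
    · have : ((∑ i, μ i : ℕ) : ℤ) = ((∑ i, (χ i - c).toNat : ℕ) : ℤ) := by
        push_cast
        simp only [hν, sum_filter_sub]
        rw [← g1, Finset.sum_add_distrib]; simp
      exact_mod_cast this
    · intro m
      have : ((∑ i : Fin (n + 1) with i.val < m, μ i : ℕ) : ℤ) ≤
          ((∑ i : Fin (n + 1) with i.val < m, (χ i - c).toNat : ℕ) : ℤ) := by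
        push_cast
        simp only [hν, sum_filter_sub]
        have := g2 m
        rw [Finset.sum_add_distrib] at this
        simp only [Finset.sum_const, nsmul_eq_mul] at this
        omega
      exact_mod_cast this
  · have hT : ∀ γ, (toA (n + 1) J).coeff γ ≠ 0 → ∑ i, γ i = ∑ i, χ i - (n + 1 : ℕ) * c := by
      intro γ hγ
      have := (c2 (fun i => γ i + c) (by rw [hgJ, coeff_sh_mul]; simpa using hγ)).1
      rw [← this, Finset.sum_add_distrib]; simp
    refine ⟨e - ((n + 1 : ℕ) * c ^ 2 + 2 * c * (∑ i, χ i - (n + 1 : ℕ) * c : ℤ)), ?_⟩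
    intro x hi hx
    have h1 := hr.pw x hx hi
    rw [map_smul, hgJ, PW_sh k c hT, PW_toA, map_mul, ev_toA, smul_eq_mul] at h1
    have hne : ev x hx (sh (n + 1) c) ≠ 0 := by
      rw [ev_sh]
      exact zpow_ne_zero _ (Finset.prod_ne_zero_iff.mpr fun i _ => hx i)
    apply mul_left_cancel₀ hne
    linear_combination h1
  · intro x hx
    rw [hgJ, map_mul, ev_sh, ev_toA]

end Pool.Agent.P.MP_80096b_al
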