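import Pool.Agent.P.MP_80096b_al.Operator

namespace Pool.Agent.P.MP_80096b_al

open Finset MvPolynomial

variable {N : ℕ}

lemma idx_induction {P : (Idx →₀ ℕ) → Prop} (h0 : P 0)
    (hs : ∀ m a, P m → P (m + Finsupp.single a 1)) (m : Idx →₀ ℕ) : P m := by
  induction m using Finsupp.induction with
  | zero => exact h0
  | single_add a b f _ _ ih =>
    clear * - ih hs
    induction b with
    | zero => simpa using ih
    | succ b ihb =>
      have := hs _ a ihb
      rwa [add_right_comm, ← Finsupp.single_add] at this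

noncomputable def mono (N : ℕ) (m : Idx →₀ ℕ) : A N := phiA N (monomial m 1)

lemma mono_zero : mono N 0 = 1 := by
  rw [mono, ← one_def, map_one]

lemma mono_succ (m : Idx →₀ ℕ) (a : Idx) :
    mono N (m + Finsupp.single a 1) = ps N a.1 * mono N m := by
  rw [mono, mono, ← phiA_X, ← map_mul, X, monomial_mul, one_mul, add_comm]

lemma coeff_ps_mul (n : ℤ) (g : A N) (γ : Fin N → ℤ) :
    (ps N n * g).coeff γ = ∑ i, g.coeff (γ - Pi.single i n) := by
  simp only [ps, Finset.sum_mul, AddMonoidAlgebra.coeff_sum, Finsupp.finsetSum_apply,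
    coeff_xp_mul]

lemma coeff_one_A (γ : Fin N → ℤ) : (1 : A N).coeff γ = if γ = 0 then 1 else 0 := by
  rw [AddMonoidAlgebra.one_def, AddMonoidAlgebra.coeff_single, Finsupp.single_apply]
  simp only [eq_comm]

lemma coeff_phiA (f : Lam) (γ : Fin N → ℤ) :
    (phiA N f).coeff γ = ∑ m ∈ f.support, coeff m f * (mono N m).coeff γ := by
  conv_lhs => rw [f.as_sum]
  simp only [map_sum, AddMonoidAlgebra.coeff_sum, Finsupp.finsetSum_apply]
  apply Finset.sum_congr rfl
  intro m _
  have : (monomial m (coeff m f) : Lam) = coeff m f • monomial m 1 := by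
    rw [smul_monomial, smul_eq_mul, mul_one]
  rw [this, map_smul]
  rfl

def nrm (γ : Fin N → ℤ) : ℤ := ∑ i, |γ i|

def spt (γ : Fin N → ℤ) : ℕ := #{i | γ i ≠ 0}

def cnt (γ : Fin N → ℤ) (a : ℤ) : ℕ := #{i | γ i = a}

lemma nrm_add_le (γ η : Fin N → ℤ) : nrm (γ + η) ≤ nrm γ + nrm η := by
  unfold nrm
  rw [← Finset.sum_add_distrib]
  exact Finset.sum_le_sum fun i _ => abs_add_le _ _

lemma nrm_single (i : Fin N) (a : ℤ) : nrm (Pi.single i a : Fin N → ℤ) = |a| := by
  unfold nrm
  rw [Finset.sum_eq_single i] <;> simp +contextual [Pi.single_eq_of_ne]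

lemma nrm_add_single {η : Fin N → ℤ} {i : Fin N} (h : η i = 0) (a : ℤ) :
    nrm (η + Pi.single i a) = nrm η + |a| := by
  rw [← nrm_single i a]
  unfold nrm
  rw [← Finset.sum_add_distrib]
  apply Finset.sum_congr rfl
  intro j _
  by_cases hj : j = i
  · subst hj; simp [h]
  · simp [Pi.single_eq_of_ne hj]

lemma spt_add_single {η : Fin N → ℤ} {i : Fin N} (h : η i = 0) {a : ℤ} (ha : a ≠ 0) :
    spt (η + Pi.single i a) = spt η + 1 := by
  unfold spt
  rw [← Finset.card_insert_of_notMem (a := i) (by simp [h])]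
  congr 1
  ext j
  by_cases hj : j = i
  · subst hj; simp [h, ha]
  · simp [hj]

lemma spt_add_single_le {η : Fin N → ℤ} {i : Fin N} (h : η i ≠ 0) (a : ℤ) :
    spt (η + Pi.single i a) ≤ spt η := by
  unfold spt
  apply Finset.card_le_card
  intro j
  by_cases hj : j = i
  · subst hj; simp [h]
  · simp [hj]

lemma cnt_add_single {η : Fin N → ℤ} {i : Fin N} (h : η i = 0) (a b : Idx) :
    cnt (η + Pi.single i a.1) b.1 = cnt η b.1 + (Finsupp.single a 1 : Idx →₀ ℕ) b := by
  unfold cnt
  by_cases hab : a = b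
  · subst hab
    rw [Finsupp.single_eq_same, ← Finset.card_insert_of_notMem (a := i) (by simp [h, a.2.symm])]
    congr 1
    ext j
    by_cases hj : j = i
    · subst hj; simp [h]
    · simp [hj]
  · rw [Finsupp.single_eq_of_ne' hab, add_zero]
    congr 1
    ext j
    by_cases hj : j = i
    · subst hj
      have : a.1 ≠ b.1 := fun h => hab (Subtype.ext h)
      simp [h, b.2.symm, this]
    · simp [hj]

lemma mono_coeff_ne (m : Idx →₀ ℕ) : ∀ γ : Fin N → ℤ, (mono N m).coeff γ ≠ 0 →
    nrm γ ≤ wt m ∧ spt γ ≤ m.degree ∧ (spt γ = m.degree → ∀ a : Idx, m a = cnt γ a.1) := by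
  induction m using idx_induction with
  | h0 =>
    intro γ hγ
    rw [mono_zero, coeff_one_A] at hγ
    have : γ = 0 := by by_contra h; simp [h] at hγ
    subst this
    refine ⟨by simp [nrm], by simp [spt], fun _ a => ?_⟩
    simp [cnt, a.2.symm]
  | hs m a ih =>
    intro γ hγ
    rw [mono_succ, coeff_ps_mul] at hγ
    obtain ⟨i, _, hi⟩ := Finset.exists_ne_zero_of_sum_ne_zero hγ
    obtain ⟨h1, h2, h3⟩ := ih _ hi
    set η := γ - Pi.single i a.1 with hη
    have hγη : γ = η + Pi.single i a.1 := by simp [hη]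
    rw [map_add, map_add, wt_single, Finsupp.degree_single]
    refine ⟨?_, ?_, ?_⟩
    · have := nrm_add_le η (Pi.single i a.1)
      rw [← hγη, nrm_single] at this
      push_cast; omega
    · by_cases h : η i = 0
      · rw [hγη, spt_add_single h a.2]; omega
      · have := spt_add_single_le h a.1
        rw [← hγη] at this; omega
    · intro hs b
      by_cases h : η i = 0
      · rw [hγη, spt_add_single h a.2] at hs
        rw [hγη, cnt_add_single h, ← h3 (by omega)]
        rfl
      · have := spt_add_single_le h a.1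
        rw [← hγη] at this; omega

lemma mono_coeff_nat (m : Idx →₀ ℕ) : ∀ γ : Fin N → ℤ, ∃ n : ℕ, (mono N m).coeff γ = n := by
  induction m using idx_induction with
  | h0 =>
    intro γ
    rw [mono_zero, coeff_one_A]
    split_ifs
    · exact ⟨1, by simp⟩
    · exact ⟨0, by simp⟩
  | hs m a ih =>
    intro γ
    choose n hn using ih
    refine ⟨∑ i, n (γ - Pi.single i a.1), ?_⟩
    rw [mono_succ, coeff_ps_mul]
    simp [hn]

lemma mono_exists (m : Idx →₀ ℕ) : m.degree ≤ N → ∃ γ : Fin N → ℤ,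
    (∀ a : Idx, m a = cnt γ a.1) ∧ spt γ = m.degree ∧ nrm γ = wt m ∧ (mono N m).coeff γ ≠ 0 := by
  induction m using idx_induction with
  | h0 =>
    intro _
    refine ⟨0, fun a => by simp [cnt, a.2.symm], by simp [spt], by simp [nrm], ?_⟩
    rw [mono_zero, coeff_one_A]; simp
  | hs m a ih =>
    intro hN
    rw [map_add, Finsupp.degree_single] at hN
    obtain ⟨η, h1, h2, h3, h4⟩ := ih (by omega)
    have : ∃ i, η i = 0 := by
      by_contra hne
      push Not at hne
      have : spt η = N := by simp [spt, hne]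
      omega
    obtain ⟨i, hi⟩ := this
    refine ⟨η + Pi.single i a.1, fun b => ?_, ?_, ?_, ?_⟩
    · rw [cnt_add_single hi, ← h1]; rfl
    · rw [spt_add_single hi a.2, map_add, Finsupp.degree_single, h2]
    · rw [nrm_add_single hi, map_add, wt_single, h3]; simp
    · choose n hn using mono_coeff_nat (N := N) m
      rw [mono_succ, coeff_ps_mul]
      simp only [hn]
      rw [← Nat.cast_sum, Nat.cast_ne_zero]
      intro h0
      have := (Finset.sum_eq_zero_iff.mp h0) i (Finset.mem_univ i)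
      rw [add_sub_cancel_right] at this
      rw [hn, this] at h4
      simp at h4

lemma nrm_le_of_mem_F {d : ℤ} {f : Lam} (hf : f ∈ F d) {γ : Fin N → ℤ}
    (h : (phiA N f).coeff γ ≠ 0) : nrm γ ≤ d := by
  rw [coeff_phiA] at h
  obtain ⟨m, hm, hne⟩ := Finset.exists_ne_zero_of_sum_ne_zero h
  exact (mono_coeff_ne m γ (right_ne_zero_of_mul hne)).1.trans (hf m (mem_support_iff.mp hm))

lemma degree_le_wt (m : Idx →₀ ℕ) : (m.degree : ℤ) ≤ wt m := by
  induction m using idx_induction with
  | h0 => simp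
  | hs m a ih =>
    rw [map_add, map_add, wt_single, Finsupp.degree_single]
    have := abs_pos.mpr a.2
    push_cast; omega

/-- Detection of the top component. -/
lemma exists_top {d : ℤ} {f : Lam} (hf : f ∈ F d) (hf' : f ∉ F (d - 1)) (hN : d ≤ N) :
    ∃ γ : Fin N → ℤ, nrm γ = d ∧ (phiA N f).coeff γ ≠ 0 := by
  classical
  have hne : (f.support.filter (fun m => wt m = d)).Nonempty := by
    by_contra h
    apply hf'
    intro m hm
    have h1 := hf m hm
    have h2 : wt m ≠ d := fun h2 => h ⟨m, Finset.mem_filter.mpr ⟨mem_support_iff.mpr hm, h2⟩⟩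
    omega
  obtain ⟨m, hm, hmax⟩ := Finset.exists_max_image _ (fun m : Idx →₀ ℕ => m.degree) hne
  obtain ⟨hm1, hm2⟩ := Finset.mem_filter.mp hm
  have hd := degree_le_wt m
  obtain ⟨γ, h1, h2, h3, h4⟩ := mono_exists (N := N) m (by omega)
  refine ⟨γ, h3.trans hm2, ?_⟩
  rw [coeff_phiA, Finset.sum_eq_single m]
  · exact mul_ne_zero (mem_support_iff.mp hm1) h4
  · intro m' hm' hne
    by_contra h0
    obtain ⟨g1, g2, g3⟩ := mono_coeff_ne m' γ (right_ne_zero_of_mul h0)
    have g4 := hf m' (mem_support_iff.mp hm')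
    have g5 := hmax m' (Finset.mem_filter.mpr ⟨hm', by omega⟩)
    apply hne
    ext a
    rw [g3 (by omega) a, h1 a]
  · intro h; exact absurd hm1 h

lemma exists_exact_F {f : Lam} (hf : f ≠ 0) {D : ℤ} (hD : f ∈ F D) :
    ∃ d : ℤ, d ≤ D ∧ f ∈ F d ∧ f ∉ F (d - 1) := by
  obtain ⟨m, hm, hmax⟩ := Finset.exists_max_image f.support wt (support_nonempty.mpr hf)
  refine ⟨wt m, hD m (mem_support_iff.mp hm), fun m' hm' => hmax m' (mem_support_iff.mpr hm'),
    fun h => ?_⟩
  have := h m (mem_support_iff.mp hm)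
  omega

lemma phiA_inj {D : ℤ} {f : Lam} (hD : f ∈ F D) (hN : D ≤ N) (h : phiA N f = 0) : f = 0 := by
  by_contra hf
  obtain ⟨d, hd, h1, h2⟩ := exists_exact_F hf hD
  obtain ⟨γ, _, hγ⟩ := exists_top (N := N) h1 h2 (hd.trans hN)
  rw [h] at hγ
  simp at hγ

/-- Extension by zero. -/
def ext0 {N₀ : ℕ} (N : ℕ) (β : Fin N₀ → ℤ) : Fin N → ℤ :=
  fun i => if h : i.val < N₀ then β ⟨i.val, h⟩ else 0

lemma sum_ext0 {N₀ : ℕ} (h : N₀ ≤ N) (β : Fin N₀ → ℤ) (g : ℤ → ℤ) (hg : g 0 = 0) :
    ∑ i, g (ext0 N β i) = ∑ i, g (β i) := by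
  symm
  apply Fintype.sum_of_injective (Fin.castLE h) (Fin.castLE_injective h)
  · intro i hi
    have : ¬ i.val < N₀ := fun hlt => hi ⟨⟨i.val, hlt⟩, rfl⟩
    simp [ext0, this, hg]
  · intro i
    simp [ext0]

lemma nrm_ext0 {N₀ : ℕ} (h : N₀ ≤ N) (β : Fin N₀ → ℤ) : nrm (ext0 N β) = nrm β :=
  sum_ext0 h β (fun z => |z|) abs_zero

lemma mono_ext0 {N₀ : ℕ} (h : N₀ ≤ N) (m : Idx →₀ ℕ) : ∀ β : Fin N₀ → ℤ, wt m ≤ nrm β →
    (mono N m).coeff (ext0 N β) = (mono N₀ m).coeff β := by
  induction m using idx_induction with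
  | h0 =>
    intro β _
    rw [mono_zero, mono_zero, coeff_one_A, coeff_one_A]
    congr 1
    apply propext
    constructor
    · intro h0
      funext i
      have := congrFun h0 (Fin.castLE h i)
      simpa [ext0] using this
    · rintro rfl
      funext i
      simp [ext0]
  | hs m a ih =>
    intro β hβ
    rw [map_add, wt_single] at hβ
    rw [mono_succ, mono_succ, coeff_ps_mul, coeff_ps_mul]
    symm
    apply Fintype.sum_of_injective (Fin.castLE h) (Fin.castLE_injective h)
    · intro i hi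
      have hi' : ¬ i.val < N₀ := fun hlt => hi ⟨⟨i.val, hlt⟩, rfl⟩
      by_contra hne
      have h1 := (mono_coeff_ne m _ hne).1
      have h2 := nrm_add_single (η := ext0 N β) (i := i) (by simp [ext0, hi']) (-a.1)
      rw [Pi.single_neg, ← sub_eq_add_neg, nrm_ext0 h, abs_neg] at h2
      have := abs_pos.mpr a.2
      push_cast at hβ
      omega
    · intro i
      rw [← ih]
      · congr 1
        funext j
        by_cases hj : j.val < N₀
        · simp only [ext0, hj, dif_pos, Pi.sub_apply, Pi.single_apply, Fin.ext_iff,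
            Fin.val_castLE]
        · have : j ≠ Fin.castLE h i := by
            rintro rfl
            exact hj i.2
          simp [ext0, hj, Pi.single_eq_of_ne this]
      · have := nrm_add_le (β - Pi.single i a.1) (Pi.single i a.1)
        rw [sub_add_cancel, nrm_single] at this
        push_cast at hβ
        omega

lemma phiA_ext0 {N₀ : ℕ} (h : N₀ ≤ N) {d : ℤ} {f : Lam} (hf : f ∈ F d) {β : Fin N₀ → ℤ}
    (hβ : d ≤ nrm β) : (phiA N f).coeff (ext0 N β) = (phiA N₀ f).coeff β := by
  rw [coeff_phiA, coeff_phiA]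
  apply Finset.sum_congr rfl
  intro m hm
  rw [mono_ext0 h m β ((hf m (mem_support_iff.mp hm)).trans hβ)]

def Sym (g : A N) : Prop := ∀ (σ : Equiv.Perm (Fin N)) (γ : Fin N → ℤ), g.coeff (γ ∘ σ) = g.coeff γ

lemma sym_phiA (f : Lam) : Sym (phiA N f) := by
  intro σ
  induction f using MvPolynomial.induction_on with
  | C a =>
    intro γ
    have : phiA N (C a) = a • (1 : A N) := by
      rw [← Algebra.algebraMap_eq_smul_one]; exact (phiA N).commutes a
    rw [this]
    simp only [AddMonoidAlgebra.coeff_smul, Finsupp.smul_apply, coeff_one_A]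
    congr 2
    apply propext
    constructor
    · intro h0
      funext i
      simpa using congrFun h0 (σ.symm i)
    · rintro rfl; rfl
  | add p q hp hq =>
    intro γ
    simp only [map_add, AddMonoidAlgebra.coeff_add, Finsupp.add_apply, hp, hq]
  | mul_X p n hp =>
    intro γ
    have hs := Equiv.sum_comp σ (fun i => (phiA N p).coeff (γ - Pi.single i n.1))
    rw [map_mul, phiA_X, mul_comm, coeff_ps_mul, coeff_ps_mul, ← hs]
    apply Finset.sum_congr rfl
    intro i _
    have h2 := hp (γ - Pi.single (σ i) n.1)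
    rw [← h2]
    congr 1
    funext j
    simp [Pi.single_apply]

lemma lead_antitone {G : Type} [AddCommGroup G] [LinearOrder G] [IsOrderedAddMonoid G]
    {κ : (Fin N → ℤ) →+ G} (hκ : Adm κ) {g : A N} (hg : Sym g) {β : Fin N → ℤ}
    (hβ : g.coeff β ≠ 0) (hb : Bdd κ β g) : Antitone β := by
  intro i j hij
  by_contra hlt
  push Not at hlt
  have hij' : i < j := lt_of_le_of_ne hij (by rintro rfl; exact lt_irrefl _ hlt)
  have h1 := hb (β ∘ Equiv.swap i j) (by rwa [hg])
  have h2 : β ∘ Equiv.swap i j = β + (β j - β i) • (Pi.single i 1 - Pi.single j 1) := by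
    funext l
    by_cases hl : l = i
    · subst hl; simp [Pi.single_eq_of_ne hij'.ne]
    · by_cases hl' : l = j
      · subst hl'; simp [Pi.single_eq_of_ne hij'.ne']
      · simp [Equiv.swap_apply_of_ne_of_ne hl hl', Pi.single_eq_of_ne hl, Pi.single_eq_of_ne hl']
  rw [h2, map_add, map_zsmul, map_sub] at h1
  have h3 : 0 < (β j - β i) • (κ (Pi.single i 1) - κ (Pi.single j 1)) :=
    zsmul_pos (sub_pos.mpr (hκ.2 i j hij')) (sub_pos.mpr hlt)
  exact absurd h1 (not_le.mpr (lt_add_of_pos_right _ h3))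

end Pool.Agent.P.MP_80096b_al
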