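import Mathlib

namespace Pool.Agent.P.MP_80096b_al

open MvPolynomial

/-- The indices `i ∈ ℤ \ {0}` of the free generators `p_i`. -/
abbrev Idx : Type := {i : ℤ // i ≠ 0}

/-- The operator `x_i ∂/∂x_i`. -/
noncomputable def euler {N : ℕ} (i : Fin N) (f : MvPolynomial (Fin N) ℂ) :
    MvPolynomial (Fin N) ℂ :=
  X i * pderiv i f

/-- `J` is the monic Jack polynomial `P_ν(x_1, …, x_N)` with Jack parameter `-1/k`: it is
symmetric, equal to `m_ν` plus a combination of `m_μ` with `μ` below `ν` in dominance order, and an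
eigenfunction of the Laplace-Beltrami (Calogero-Moser-Sutherland) operator. -/
def IsJack (k : ℂ) {N : ℕ} (ν : Fin N → ℕ) (J : MvPolynomial (Fin N) ℂ) : Prop :=
  J.IsSymmetric ∧
  coeff (Finsupp.equivFunOnFinite.symm ν) J = 1 ∧
  (∀ μ : Fin N →₀ ℕ, Antitone μ → coeff μ J ≠ 0 →
    ∑ i, μ i = ∑ i, ν i ∧
      ∀ m : ℕ, ∑ i : Fin N with i.val < m, μ i ≤ ∑ i : Fin N with i.val < m, ν i) ∧
  ∃ e : ℂ, ∀ x : Fin N → ℂ, Function.Injective x → (∀ i, x i ≠ 0) →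
    ∑ i, eval x (euler i (euler i J)) -
      k * ∑ i, ∑ j with i < j,
        (x i + x j) / (x i - x j) * (eval x (euler i J) - eval x (euler j J)) = e * eval x J

/-- `χ_N(λ, μ) = (λ_1, …, λ_r, 0, …, 0, -μ_s, …, -μ_1)` (for `r + s ≤ N`). -/
def chi (lam mu : YoungDiagram) (N : ℕ) (i : Fin N) : ℤ :=
  (lam.rowLen i.val : ℤ) - (mu.rowLen i.rev.val : ℤ)

/-- Substitution `p_0 = t` in all coefficients. -/
noncomputable def specialize (t : ℂ) (P : MvPolynomial Idx (RatFunc ℂ)) : MvPolynomial Idx ℂ :=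
  ∑ m ∈ P.support, monomial m (RatFunc.eval (RingHom.id ℂ) t (coeff m P))

/-- The value of `φ_N f` at the point `x`, where `φ_N p_i = x_1^i + ⋯ + x_N^i`. -/
noncomputable def phi {N : ℕ} (f : MvPolynomial Idx ℂ) (x : Fin N → ℂ) : ℂ :=
  eval (fun a : Idx => ∑ j, x j ^ (a : ℤ)) f

/-- The defining property of the Jack-Laurent symmetric function of the bipartition `(λ, μ)`,
for all `N = n + 1 ≥ 1`. -/
def IsJackLaurent (k : ℂ) (lam mu : YoungDiagram) (P : MvPolynomial Idx (RatFunc ℂ)) : Prop :=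
  ∀ n : ℕ,
    (∀ m, (coeff m P).denom.eval ((n + 1 : ℕ) : ℂ) ≠ 0) ∧
    (lam.colLen 0 + mu.colLen 0 ≤ n + 1 →
      ∃ J : MvPolynomial (Fin (n + 1)) ℂ,
        IsJack k (fun i => (chi lam mu (n + 1) i - chi lam mu (n + 1) (Fin.last n)).toNat) J ∧
        ∀ x : Fin (n + 1) → ℂ, (∀ i, x i ≠ 0) →
          phi (specialize ((n + 1 : ℕ) : ℂ) P) x =
            (∏ i, x i) ^ chi lam mu (n + 1) (Fin.last n) * eval x J) ∧
    (n + 1 < lam.colLen 0 + mu.colLen 0 →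
      ∀ x : Fin (n + 1) → ℂ, (∀ i, x i ≠ 0) → phi (specialize ((n + 1 : ℕ) : ℂ) P) x = 0)

end Pool.Agent.P.MP_80096b_al
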