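import Pool.Agent.P.MP_80096b_al.Start

namespace Pool.Agent.P.MP_80096b_al

open Finset MvPolynomial

variable {N : ℕ}

noncomputable def Lt (k : ℂ) (S : Finset Idx) (t : ℂ) : Module.End ℂ Lam := L0 k S + t • L1 k S

lemma Lt_apply (k : ℂ) (S : Finset Idx) (t : ℂ) (f : Lam) :
    Lt k S t f = L0 k S f + t • L1 k S f := rfl

lemma Lt_mem_F (k : ℂ) {S : Finset Idx} {d : ℤ} (hS : Good S d) (t : ℂ) {f : Lam} (hf : f ∈ F d) :
    Lt k S t f ∈ F d :=
  add_mem (L0_mem_F k S hf) (Submodule.smul_mem _ _ (L1_mem_F k hS hf))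

lemma rel_Lt (k : ℂ) {S : Finset Idx} {d : ℤ} (hS : Good S d) {f : Lam} (hf : f ∈ F d) :
    Rel k (phiA N f) (phiA N (Lt k S N f)) := rel_phiA k hS hf

lemma aeval_step (L : Module.End ℂ Lam) (a : ℂ) (n : ℕ) (f : Lam) :
    Polynomial.aeval L (Polynomial.C a * Polynomial.X ^ (n + 1)) f =
      Polynomial.aeval L (Polynomial.C a * Polynomial.X ^ n) (L f) := by
  rw [pow_succ, ← mul_assoc, map_mul, Polynomial.aeval_X]; rfl

lemma aeval_mem_F (k : ℂ) {S : Finset Idx} {d : ℤ} (hS : Good S d) (t : ℂ) (p : Polynomial ℂ) :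
    ∀ f ∈ F d, Polynomial.aeval (Lt k S t) p f ∈ F d := by
  induction p using Polynomial.induction_on with
  | C a =>
    intro f hf
    rw [Polynomial.aeval_C, Module.algebraMap_end_apply]
    exact Submodule.smul_mem _ _ hf
  | add p q hp hq =>
    intro f hf
    rw [map_add, LinearMap.add_apply]
    exact add_mem (hp f hf) (hq f hf)
  | monomial n a ih =>
    intro f hf
    rw [aeval_step]
    exact ih _ (Lt_mem_F k hS t hf)

lemma aeval_lead {G : Type} [AddCommGroup G] [LinearOrder G] [IsOrderedAddMonoid G]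
    {κ : (Fin N → ℤ) →+ G} (hκ : Adm κ) (k : ℂ) {S : Finset Idx} {d : ℤ} (hS : Good S d)
    (β : Fin N → ℤ) (p : Polynomial ℂ) :
    ∀ f ∈ F d, Bdd κ β (phiA N f) →
      (phiA N (Polynomial.aeval (Lt k S N) p f)).coeff β =
        p.eval (eig k β) * (phiA N f).coeff β := by
  induction p using Polynomial.induction_on with
  | C a =>
    intro f _ _
    rw [Polynomial.aeval_C, Module.algebraMap_end_apply, map_smul]
    simp
  | add p q hp hq =>
    intro f hf hb
    rw [map_add, LinearMap.add_apply, map_add, AddMonoidAlgebra.coeff_add, Finsupp.add_apply,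
      hp f hf hb, hq f hf hb, Polynomial.eval_add, add_mul]
  | monomial n a ih =>
    intro f hf hb
    obtain ⟨h1, h2⟩ := (rel_Lt k hS hf).lead hκ hb
    rw [aeval_step, ih _ (Lt_mem_F k hS _ hf) h1, h2]
    simp only [Polynomial.eval_mul, Polynomial.eval_C, Polynomial.eval_pow, Polynomial.eval_X]
    ring

lemma aeval_tri (k : ℂ) {S : Finset Idx} {d : ℤ} (hS : Good S d)
    (χ : Fin N → ℤ) (p : Polynomial ℂ) :
    ∀ f ∈ F d, Tri χ (phiA N f) → Tri χ (phiA N (Polynomial.aeval (Lt k S N) p f)) := by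
  induction p using Polynomial.induction_on with
  | C a =>
    intro f _ ht γ hγ
    rw [Polynomial.aeval_C, Module.algebraMap_end_apply, map_smul] at hγ
    apply ht γ
    intro h0; apply hγ; simp [h0]
  | add p q hp hq =>
    intro f hf ht γ hγ
    rw [map_add, LinearMap.add_apply, map_add, AddMonoidAlgebra.coeff_add,
      Finsupp.add_apply] at hγ
    by_cases h0 : (phiA N (Polynomial.aeval (Lt k S N) p f)).coeff γ = 0
    · rw [h0, zero_add] at hγ
      exact hq f hf ht γ hγ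
    · exact hp f hf ht γ h0
  | monomial n a ih =>
    intro f hf ht
    rw [aeval_step]
    exact ih _ (Lt_mem_F k hS _ hf) ((rel_Lt k hS hf).tri ht)

def SqLe (q : ℤ) (g : A N) : Prop := ∀ γ, g.coeff γ ≠ 0 → ∑ i, γ i ^ 2 ≤ q

lemma sqLe_of_anti {g : A N} (hs : Sym g) {q : ℤ}
    (h : ∀ γ, Antitone γ → g.coeff γ ≠ 0 → ∑ i, γ i ^ 2 ≤ q) : SqLe q g := by
  intro γ hγ
  obtain ⟨σ, hσ⟩ := exists_sort γ
  have := h _ hσ (by rwa [hs])
  rwa [show ∑ i, (γ ∘ σ) i ^ 2 = ∑ i, γ i ^ 2 from Equiv.sum_comp σ (fun i => γ i ^ 2)] at this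

lemma SqLe.bdd {q : ℤ} {g : A N} (h : SqLe q g) {η : Fin N → ℤ} (hη : q ≤ ∑ i, η i ^ 2) :
    Bdd (kap η) η g := by
  intro γ hγ
  by_cases he : γ = η
  · rw [he]
  have h1 := h γ hγ
  have h2 : 0 < ∑ i, (η i - γ i) ^ 2 := by
    obtain ⟨i, hi⟩ := Function.ne_iff.mp he
    exact Finset.sum_pos' (fun _ _ => sq_nonneg _)
      ⟨i, Finset.mem_univ _, pow_pos (abs_pos.mpr (sub_ne_zero.mpr hi.symm)) 2 |>.trans_eq
        (sq_abs _)⟩
  have h3 : ∑ i, (η i - γ i) ^ 2 = ∑ i, η i ^ 2 - 2 * ∑ i, η i * γ i + ∑ i, γ i ^ 2 := by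
    rw [Finset.mul_sum, ← Finset.sum_sub_distrib, ← Finset.sum_add_distrib]
    apply Finset.sum_congr rfl; intro i _; ring
  have h4 : ∑ i, η i * η i = ∑ i, η i ^ 2 := by simp only [sq]
  show toLex (∑ i, η i * γ i, toLex γ) ≤ toLex (∑ i, η i * η i, toLex η)
  rw [Prod.Lex.toLex_le_toLex]
  left
  show ∑ i, η i * γ i < ∑ i, η i * η i
  omega

noncomputable def TT (q d : ℤ) : Finset (ℤ × ℤ × ℤ) :=
  Finset.Icc 0 (q - 1) ×ˢ Finset.Icc 0 d ×ˢ Finset.Icc (-((2 * d + 1) * d)) ((2 * d + 1) * d)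

noncomputable def ee (k t : ℂ) (τ : ℤ × ℤ × ℤ) : ℂ := τ.1 - k * (t * τ.2.1 + τ.2.2)

noncomputable def pp (k : ℂ) (q d : ℤ) (t : ℂ) : Polynomial ℂ :=
  ∏ τ ∈ TT q d, (Polynomial.X - Polynomial.C (ee k t τ))

lemma sqLe_step (k : ℂ) {S : Finset Idx} {d : ℤ} (hS : Good S d) {q q' : ℤ} (hq : q' < q)
    {f : Lam} (hf : f ∈ F d) (h : SqLe q' (phiA N f)) :
    SqLe (q' - 1) (phiA N (Polynomial.aeval (Lt k S N) (pp k q d N) f)) := by
  apply sqLe_of_anti (sym_phiA _)
  intro η hη hne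
  by_contra hlt
  apply hne
  rw [aeval_lead (kap_adm η hη) k hS η _ f hf (h.bdd (by omega))]
  by_cases h0 : (phiA N f).coeff η = 0
  · rw [h0, mul_zero]
  have h1 := h η h0
  have h2 := nrm_le_of_mem_F hf h0
  have h3 := abs_le.mp (abs_rr_le hη h2)
  have h4 : 0 ≤ nrm η := Finset.sum_nonneg fun _ _ => abs_nonneg _
  have h5 : 0 ≤ ∑ i, η i ^ 2 := Finset.sum_nonneg fun _ _ => sq_nonneg _
  rw [pp, Polynomial.eval_prod,
    Finset.prod_eq_zero (i := (∑ i, η i ^ 2, nrm η, rr η)), zero_mul]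
  · simp only [TT, Finset.mem_product, Finset.mem_Icc]
    omega
  · rw [eig_eq, Polynomial.eval_sub, Polynomial.eval_X, Polynomial.eval_C, ee, sub_self]

lemma sqLe_pow (k : ℂ) {S : Finset Idx} {d : ℤ} (hS : Good S d) {q : ℤ} (n : ℕ) :
    ∀ q' < q, ∀ f ∈ F d, SqLe q' (phiA N f) →
      SqLe (q' - n) (phiA N (Polynomial.aeval (Lt k S N) (pp k q d N ^ n) f)) := by
  induction n with
  | zero => intro q' _ f _ h; simpa using h
  | succ n ih =>
    intro q' hq f hf h
    have := ih (q' - 1) (by omega) _ (aeval_mem_F k hS _ _ f hf) (sqLe_step k hS hq hf h)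
    rw [pow_succ, map_mul, Module.End.mul_apply]
    convert this using 1
    push_cast; ring

lemma kill (k : ℂ) {S : Finset Idx} {d : ℤ} (hS : Good S d) {q : ℤ} {f : Lam} (hf : f ∈ F d)
    (h : SqLe (q - 1) (phiA N f)) :
    phiA N (Polynomial.aeval (Lt k S N) (pp k q d N ^ q.toNat) f) = 0 := by
  have := sqLe_pow k hS (q := q) q.toNat (q - 1) (by omega) f hf h
  ext γ
  by_contra hne
  have h1 := this γ (by simpa using hne)
  have h5 : 0 ≤ ∑ i, γ i ^ 2 := Finset.sum_nonneg fun _ _ => sq_nonneg _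
  omega

/-- Families depending polynomially on the parameter. -/
noncomputable def PF : Submodule ℂ (ℂ → Lam) :=
  Submodule.span ℂ {v | ∃ (j : ℕ) (f : Lam), v = fun t => t ^ j • f}

lemma PF_lin (L : Lam →ₗ[ℂ] Lam) {v : ℂ → Lam} (hv : v ∈ PF) : (fun t => L (v t)) ∈ PF := by
  induction hv using Submodule.span_induction with
  | mem x hx =>
    obtain ⟨j, f, rfl⟩ := hx
    exact Submodule.subset_span ⟨j, L f, by funext t; simp⟩
  | zero => simp only [Pi.zero_apply, map_zero]; exact PF.zero_mem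
  | add x y _ _ hx hy => simp only [Pi.add_apply, map_add]; exact PF.add_mem hx hy
  | smul a x _ hx => simp only [Pi.smul_apply, map_smul]; exact PF.smul_mem a hx

lemma PF_t {v : ℂ → Lam} (hv : v ∈ PF) : (fun t => t • v t) ∈ PF := by
  induction hv using Submodule.span_induction with
  | mem x hx =>
    obtain ⟨j, f, rfl⟩ := hx
    exact Submodule.subset_span ⟨j + 1, f, by funext t; rw [smul_smul, pow_succ']⟩
  | zero => simp only [Pi.zero_apply, smul_zero]; exact PF.zero_mem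
  | add x y _ _ hx hy => simp only [Pi.add_apply, smul_add]; exact PF.add_mem hx hy
  | smul a x _ hx =>
    have := PF.smul_mem a hx
    convert this using 1
    funext t
    simp only [Pi.smul_apply]
    rw [smul_comm]

lemma PF_pp (k : ℂ) (S : Finset Idx) (s : Finset (ℤ × ℤ × ℤ)) {v : ℂ → Lam} (hv : v ∈ PF) :
    (fun t => Polynomial.aeval (Lt k S t)
      (∏ τ ∈ s, (Polynomial.X - Polynomial.C (ee k t τ))) (v t)) ∈ PF := by
  classical
  induction s using Finset.induction_on with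
  | empty => simpa using hv
  | insert τ s hτ ih =>
    have h := sub_mem (add_mem (PF_lin (L0 k S) ih) (PF_t (PF_lin (L1 k S) ih)))
      (sub_mem (PF.smul_mem ((τ.1 : ℂ) - k * τ.2.2) ih) (PF.smul_mem (k * τ.2.1) (PF_t ih)))
    convert h using 1
    funext t
    rw [Finset.prod_insert hτ, map_mul, Module.End.mul_apply, map_sub, Polynomial.aeval_X,
      Polynomial.aeval_C, LinearMap.sub_apply, Module.algebraMap_end_apply, Lt_apply]
    simp only [Pi.sub_apply, Pi.add_apply, Pi.smul_apply, smul_smul, ← sub_smul]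
    congr 2
    rw [ee]; ring

lemma PF_pow (k : ℂ) (S : Finset Idx) (q d : ℤ) (n : ℕ) (f : Lam) :
    (fun t => Polynomial.aeval (Lt k S t) (pp k q d t ^ n) f) ∈ PF := by
  induction n with
  | zero => exact Submodule.subset_span ⟨0, f, by funext t; simp⟩
  | succ n ih =>
    have := PF_pp k S (TT q d) ih
    convert this using 1
    funext t
    rw [pow_succ', map_mul, Module.End.mul_apply, pp]

lemma PF_poly {v : ℂ → Lam} (hv : v ∈ PF) : ∃ Q : MvPolynomial Idx (Polynomial ℂ),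
    ∀ t m, coeff m (v t) = (coeff m Q).eval t := by
  induction hv using Submodule.span_induction with
  | mem x hx =>
    obtain ⟨j, f, rfl⟩ := hx
    refine ⟨C (Polynomial.X ^ j) * map Polynomial.C f, fun t m => ?_⟩
    rw [coeff_C_mul, coeff_map, Polynomial.eval_mul, Polynomial.eval_pow, Polynomial.eval_X,
      Polynomial.eval_C, coeff_smul, smul_eq_mul]
  | zero => exact ⟨0, by simp⟩
  | add x y _ _ hx hy =>
    obtain ⟨Q, hQ⟩ := hx
    obtain ⟨Q', hQ'⟩ := hy
    exact ⟨Q + Q', fun t m => by simp [hQ, hQ']⟩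
  | smul a x _ hx =>
    obtain ⟨Q, hQ⟩ := hx
    refine ⟨C (Polynomial.C a) * Q, fun t m => ?_⟩
    rw [coeff_C_mul]
    simp [hQ]

lemma coeff_specialize (t : ℂ) (P : MvPolynomial Idx (RatFunc ℂ)) (m : Idx →₀ ℕ) :
    coeff m (specialize t P) = RatFunc.eval (RingHom.id ℂ) t (coeff m P) := by
  classical
  simp only [specialize, coeff_sum, coeff_monomial]
  rw [Finset.sum_ite_eq']
  split_ifs with h
  · rfl
  · rw [notMem_support_iff.mp h, RatFunc.eval_zero]

lemma eval_div {p c : Polynomial ℂ} {t : ℂ} (h : c.eval t ≠ 0) {r : RatFunc ℂ}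
    (hr : r = algebraMap _ _ p / algebraMap _ _ c) :
    r.denom.eval t ≠ 0 ∧ RatFunc.eval (RingHom.id ℂ) t r = p.eval t / c.eval t := by
  have hc : c ≠ 0 := by rintro rfl; simp at h
  have h1 : r.denom.eval t ≠ 0 := by
    intro h0
    apply h
    obtain ⟨u, hu⟩ := RatFunc.denom_div_dvd p c
    rw [hu, ← hr, Polynomial.eval_mul, h0, zero_mul]
  refine ⟨h1, ?_⟩
  have h2 := congrArg (Polynomial.eval t) ((RatFunc.num_mul_eq_mul_denom_iff hc).mpr hr)
  simp only [Polynomial.eval_mul] at h2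
  rw [RatFunc.eval, Polynomial.eval₂_id, Polynomial.eval₂_id, div_eq_div_iff h1 h, h2]

theorem exists_jackLaurent {k : ℂ} (hk : ∀ q : ℚ, k ≠ q) (lam mu : YoungDiagram) :
    ∃ P, IsJackLaurent k lam mu P := by
  obtain ⟨M, hM, hM2⟩ := exists_start lam mu
  obtain ⟨S, hS⟩ := exists_good (da lam mu)
  set q := qa lam mu with hq
  set d := da lam mu with hd
  set r := ra lam mu with hr
  obtain ⟨Q, hQ⟩ := PF_poly (PF_pow k S q d q.toNat M)
  set c : Polynomial ℂ := (∏ τ ∈ TT q d, (Polynomial.C ((q : ℂ) - k * r - τ.1 + k * τ.2.2) +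
    Polynomial.C (k * τ.2.1 - k * d) * Polynomial.X)) ^ q.toNat with hc
  have hce : ∀ t, c.eval t = (pp k q d t ^ q.toNat).eval (ee k t (q, d, r)) := by
    intro t
    simp only [hc, pp, Polynomial.eval_pow, Polynomial.eval_prod, Polynomial.eval_add,
      Polynomial.eval_mul, Polynomial.eval_C, Polynomial.eval_X, Polynomial.eval_sub, ee]
    congr 1
    apply Finset.prod_congr rfl
    intro τ _; ring
  have hcN : ∀ N : ℕ, c.eval (N : ℂ) ≠ 0 := by
    intro N
    rw [hce, Polynomial.eval_pow, pp, Polynomial.eval_prod]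
    apply pow_ne_zero
    rw [Finset.prod_ne_zero_iff]
    intro τ hτ h0
    simp only [Polynomial.eval_sub, Polynomial.eval_X, Polynomial.eval_C, ee] at h0
    have := irr_eq hk (a := q) (b := N * d + r) (c := τ.1) (d := N * τ.2.1 + τ.2.2)
      (by push_cast; linear_combination h0)
    simp only [TT, Finset.mem_product, Finset.mem_Icc] at hτ
    omega
  set P : MvPolynomial Idx (RatFunc ℂ) := C (algebraMap (Polynomial ℂ) (RatFunc ℂ) c)⁻¹ *
    map (algebraMap (Polynomial ℂ) (RatFunc ℂ)) Q with hP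
  have hPm : ∀ m, coeff m P = algebraMap _ _ (coeff m Q) / algebraMap _ _ c := by
    intro m
    rw [hP, coeff_C_mul, coeff_map, div_eq_inv_mul]
  have hspec : ∀ N : ℕ, specialize (N : ℂ) P =
      (c.eval (N : ℂ))⁻¹ • Polynomial.aeval (Lt k S N) (pp k q d N ^ q.toNat) M := by
    intro N
    ext m
    rw [coeff_specialize, (eval_div (hcN N) (hPm m)).2, coeff_smul, hQ, smul_eq_mul,
      div_eq_inv_mul]
  refine ⟨P, fun n => ⟨fun m => (eval_div (hcN (n + 1)) (hPm m)).1, fun hN => ?_, fun hN => ?_⟩⟩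
  · obtain ⟨hl1, hl2⟩ := (hM2 (n + 1)).1 (by omega) (by omega)
    have hκ := kap_adm (0 : Fin (n + 1) → ℤ) antitone_const
    have heig : eig k (chi lam mu (n + 1)) = ee k (n + 1 : ℕ) (q, d, r) := eig_chi lam mu k hN
    have hF : specialize ((n + 1 : ℕ) : ℂ) P ∈ F d := by
      rw [hspec]; exact Submodule.smul_mem _ _ (aeval_mem_F k hS _ _ M hM)
    have h1 : (phiA (n + 1) (specialize ((n + 1 : ℕ) : ℂ) P)).coeff (chi lam mu (n + 1)) = 1 := by
      rw [hspec, map_smul, AddMonoidAlgebra.coeff_smul, Finsupp.smul_apply,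
        aeval_lead hκ k hS _ _ M hM (hl2.bdd hκ), hl1, heig, ← hce, mul_one, smul_eq_mul,
        inv_mul_cancel₀ (hcN _)]
    have h2 : Tri (chi lam mu (n + 1)) (phiA (n + 1) (specialize ((n + 1 : ℕ) : ℂ) P)) := by
      intro γ hγ
      rw [hspec, map_smul] at hγ
      apply aeval_tri k hS _ (pp k q d (n + 1 : ℕ) ^ q.toNat) M hM hl2 γ
      intro h0; apply hγ
      rw [AddMonoidAlgebra.coeff_smul, Finsupp.smul_apply, h0, smul_zero]
    have h3 : phiA (n + 1) (Lt k S (n + 1 : ℕ) (specialize ((n + 1 : ℕ) : ℂ) P)) =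
        ee k (n + 1 : ℕ) (q, d, r) • phiA (n + 1) (specialize ((n + 1 : ℕ) : ℂ) P) := by
      set e := ee k (n + 1 : ℕ) (q, d, r)
      have g1 := aeval_mem_F k hS ((n + 1 : ℕ) : ℂ) (Polynomial.X - Polynomial.C e) M hM
      have g2 := aeval_tri k hS _ (Polynomial.X - Polynomial.C e) M hM hl2
      have g3 := aeval_lead hκ k hS _ (Polynomial.X - Polynomial.C e) M hM (hl2.bdd hκ)
      rw [heig] at g3
      simp only [Polynomial.eval_sub, Polynomial.eval_X, Polynomial.eval_C, sub_self,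
        zero_mul] at g3
      have g4 := kill k hS (q := q) g1 (sqLe_of_anti (sym_phiA _) (fun γ hγ hne => by
        have := (g2 γ hne).sq_lt hγ (by rintro rfl; exact hne g3)
        have := (chi_big lam mu hN).1
        omega))
      rw [← Module.End.mul_apply, ← map_mul, mul_comm, map_mul, Module.End.mul_apply, map_sub,
        Polynomial.aeval_X, Polynomial.aeval_C, LinearMap.sub_apply, Module.algebraMap_end_apply,
        map_sub, map_smul, sub_eq_zero] at g4
      rw [hspec, map_smul, map_smul, map_smul, g4, smul_comm]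
    have hrel := rel_Lt (N := n + 1) k hS hF
    rw [h3] at hrel
    obtain ⟨J, hJ1, hJ2⟩ := bridge_from (chi_anti lam mu (n + 1)) (sym_phiA _) hrel h1 h2
    exact ⟨J, hJ1, fun x hx => by rw [← ev_phiA x hx, hJ2]⟩
  · intro x hx
    have : SqLe (q - 1) (phiA (n + 1) M) := by
      by_cases hb : lam.colLen 0 ≤ n + 1 ∧ mu.colLen 0 ≤ n + 1
      · obtain ⟨_, hl2⟩ := (hM2 (n + 1)).1 hb.1 hb.2
        have h1 := chi_small lam mu hb.1 hb.2 hN
        apply sqLe_of_anti (sym_phiA _)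
        intro γ hγ hne
        by_cases he : γ = chi lam mu (n + 1)
        · rw [he]; omega
        · have := (hl2 γ hne).sq_lt hγ he
          omega
      · rw [(hM2 (n + 1)).2 (by omega)]
        intro γ hγ; simp at hγ
    rw [← ev_phiA x hx, hspec, map_smul, kill k hS hM this]
    simp

end Pool.Agent.P.MP_80096b_al
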