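import Pool.Agent.P.MP_80096b_al.Wick

/-! The limit in closed form. -/

namespace Pool.Agent.P.MP_80096b_al

open MvPolynomial Finset Filter Topology

lemma rat_const {r : RatFunc ℂ} (h0 : ∀ n : ℕ, r.denom.eval ((n + 1 : ℕ) : ℂ) ≠ 0) {a : ℂ}
    (h : ∀ᶠ N : ℕ in atTop, RatFunc.eval (RingHom.id ℂ) N r = a) : r = algebraMap ℂ _ a := by
  obtain ⟨N₀, h⟩ := eventually_atTop.1 h
  have h1 : r.num - Polynomial.C a * r.denom = 0 := by
    apply poly_zero (N₀ := N₀ + 1)
    intro N hN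
    obtain ⟨n, rfl⟩ : ∃ n, N = n + 1 := ⟨N - 1, by omega⟩
    have h2 := h (n + 1) (by omega)
    rw [RatFunc.eval, Polynomial.eval₂_id, Polynomial.eval₂_id, div_eq_iff (h0 n)] at h2
    rw [Polynomial.eval_sub, Polynomial.eval_mul, Polynomial.eval_C, h2, sub_self]
  rw [← r.num_div_denom, sub_eq_zero.1 h1, map_mul, mul_div_assoc, div_self
    (RatFunc.algebraMap_ne_zero (RatFunc.denom_ne_zero r)), mul_one]
  rfl

lemma specialize_map (t : ℂ) (f : Lam) : specialize t (map (algebraMap ℂ (RatFunc ℂ)) f) = f := by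
  ext m
  rw [coeff_specialize, coeff_map]
  exact RatFunc.eval_C _ _

lemma Lead.coeff_eq {N : ℕ} {χ γ : Fin N → ℤ} {g h : A N} (sg : Sym g) (sh : Sym h) (lg : Lead χ g)
    (lh : Lead χ h) (hq : ∑ i, γ i ^ 2 = ∑ i, χ i ^ 2) : g.coeff γ = h.coeff γ := by
  obtain ⟨σ, hσ⟩ := exists_sort γ
  rw [← sg σ γ, ← sh σ γ]
  by_cases he : γ ∘ σ = χ
  · rw [he, lg.1, lh.1]
  have h2 : ∑ i, (γ ∘ σ) i ^ 2 = ∑ i, γ i ^ 2 := Equiv.sum_comp σ (fun i => γ i ^ 2)
  have key : ∀ u : A N, Lead χ u → u.coeff (γ ∘ σ) = 0 := fun u lu => by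
    by_contra h0
    have := (lu.2 _ h0).sq_lt hσ he
    omega
  rw [key g lg, key h lh]

lemma top_zero {k : ℂ} (hk : ∀ q : ℚ, k ≠ q) {S : Finset Idx} {d : ℤ} (hS : Good S d) {f : Lam}
    (hf : f ∈ F d) {q r : ℤ} (he : L0 k S f - ((q : ℂ) - k * r) • f ∈ F (d - 1))
    (h : ∀ β : Fin (2 * d.toNat) → ℤ, nrm β = d → ∑ i, β i ^ 2 = q →
      (phiA (2 * d.toNat) f).coeff β = 0) : f ∈ F (d - 1) := by
  by_contra hf'
  obtain ⟨β, h1, h2, h3⟩ := sq_of_top hk hS (M := d.toNat) (by omega) hf hf' (q := q)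
    (b := (2 * d.toNat : ℕ) * d + r) (by
      convert add_mem he (Submodule.smul_mem _ ((2 * d.toNat : ℕ) : ℂ) (L1_add_mem_F k hS hf))
        using 1
      rw [Lt_apply]
      push_cast
      module)
  exact h3 (h β h1 h2)

lemma exists_coeff {N : ℕ} (β : Fin N → ℤ) :
    ∃ φ : Lam →ₗ[ℂ] ℂ, ∀ f, φ f = (phiA N f).coeff β :=
  ⟨{ toFun := fun f => (phiA N f).coeff β
     map_add' := fun f g => by simp
     map_smul' := fun c f => by simp }, fun _ => rfl⟩

lemma exists_fin (N : ℕ) (d : ℤ) : ∃ T : Finset (Fin N → ℤ), ∀ β, nrm β = d → β ∈ T :=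
  ⟨Fintype.piFinset fun _ => Icc (-d) d, fun β h => Fintype.mem_piFinset.2 fun i => mem_Icc.2
    (abs_le.1 ((single_le_sum (f := fun i => |β i|) (fun _ _ => abs_nonneg _)
      (mem_univ i)).trans h.le))⟩

lemma zero_one_lim {u : ℕ → ℂ} {a : ℂ} (h : Tendsto u atTop (𝓝 a))
    (h1 : ∀ᶠ N in atTop, u N = 0 ∨ u N = 1) : ∀ᶠ N in atTop, u N = a := by
  have h3 : a ∈ ({0, 1} : Set ℂ) := (Set.toFinite _).isClosed.mem_of_tendsto h h1
  filter_upwards [h1, h.eventually (Metric.ball_mem_nhds _ one_pos)] with N b c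
  rcases b with b | b <;> rcases h3 with e | e <;> simp_all

variable {k : ℂ} {lam mu : YoungDiagram} {P : MvPolynomial Idx (RatFunc ℂ)}

lemma jl_F (hP : IsJackLaurent k lam mu P) (t : ℂ) : specialize t P ∈ F (da lam mu) := by
  obtain ⟨D, -, hD⟩ := specialize_mem_F P
  obtain ⟨S, hS⟩ := exists_good (D : ℤ)
  intro m hm
  by_contra h
  apply hm
  rw [coeff_specialize, rat_const (fun n => (hP n).1 m) (a := 0), map_zero, RatFunc.eval_zero]
  filter_upwards [eventually_ge_atTop (D + lam.colLen 0 + mu.colLen 0 + 1)] with N hN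
  rw [← coeff_specialize]
  by_contra h0
  obtain ⟨e, h1, h2, h3⟩ := exists_exact_F (by rintro e; simp [e] at h0) (hD N)
  obtain ⟨γ, h4, h5⟩ := exists_top (N := N) h2 h3 (by omega)
  obtain ⟨σ, hσ⟩ := exists_sort γ
  have h6 := ((jack_data (N := N) hP hS hD (by omega) (by omega)).2.1 (γ ∘ σ)
    (by rwa [sym_phiA])).nrm_le hσ
  have h7 : nrm (γ ∘ σ) = nrm γ := Equiv.sum_comp σ (fun i => |γ i|)
  have h8 := (chi_big lam mu (N := N) (by omega)).2.1
  have h9 := h2 m h0
  omega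

lemma jl_big (hP : IsJackLaurent k lam mu P) {S : Finset Idx} (hS : Good S (da lam mu)) :
    ∀ᶠ N : ℕ in atTop, Lead (chi lam mu N) (phiA N (specialize N P)) ∧
      (L0 k S (specialize N P) - ((qa lam mu : ℂ) - k * ra lam mu) • specialize N P) +
        (N : ℂ) • (L1 k S (specialize N P) + (k * da lam mu) • specialize N P) = 0 := by
  filter_upwards [eventually_ge_atTop ((da lam mu).toNat + lam.colLen 0 + mu.colLen 0 + 1)]
    with N hN
  obtain ⟨a1, a2, a3⟩ := jack_data (N := N) hP hS (jl_F hP) (by omega) (by omega)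
  refine ⟨⟨a1, a2⟩, ?_⟩
  have := phiA_inj (N := N) (sub_mem (Lt_mem_F k hS N (jl_F hP N))
    (Submodule.smul_mem _ (eig k (chi lam mu N)) (jl_F hP N))) (by omega)
    (by rw [map_sub, a3, map_smul, sub_self])
  rw [eig_chi lam mu k (by omega), Lt_apply] at this
  rw [← this]
  module

/-- `Y` is the coefficientwise limit of `P`. -/
def IsLim (P : MvPolynomial Idx (RatFunc ℂ)) (Y : Lam) : Prop :=
  (∀ m, Tendsto (fun t : ℂ => RatFunc.eval (RingHom.id ℂ) t (coeff m P)) (Bornology.cobounded ℂ)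
    (𝓝 (coeff m Y))) ∧
  ∀ φ : Lam →ₗ[ℂ] ℂ, Tendsto (fun N : ℕ => φ (specialize N P)) atTop (𝓝 (φ Y))

lemma exists_lim (hk : ∀ q : ℚ, k ≠ q) (hP : IsJackLaurent k lam mu P) : ∃ Y, IsLim P Y := by
  classical
  obtain ⟨c, hc, h⟩ := degree_bound hk hP
  choose a ha using fun m => (h m).elim fun _ hp => tendsto_of_degree_le hc hp.1 hp.2
  refine ⟨∑ m ∈ P.support, monomial m (a m), fun m => ?_, fun φ => ?_⟩
  · simp only [coeff_sum, coeff_monomial, sum_ite_eq']
    split_ifs with hm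
    · exact ha m
    · simp [notMem_support_iff.1 hm]
  · have e : ∀ (m : Idx →₀ ℕ) (z : ℂ), φ (monomial m z) = z * φ (monomial m 1) := fun m z => by
      rw [← smul_eq_mul, ← map_smul, smul_monomial, smul_eq_mul, mul_one]
    simp only [specialize, map_sum]
    refine tendsto_finsetSum _ fun m _ => ?_
    rw [e]
    refine Tendsto.congr (fun N => (e _ _).symm) (Tendsto.mul_const _ ((ha m).comp ?_))
    rw [← tendsto_norm_atTop_iff_cobounded]
    simpa using tendsto_natCast_atTop_atTop (R := ℝ)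

lemma IsLim.mem_F {Y : Lam} (hY : IsLim P Y) (L : Lam →ₗ[ℂ] Lam) {d : ℤ}
    (h : ∀ᶠ N : ℕ in atTop, L (specialize N P) ∈ F d) : L Y ∈ F d := by
  intro m hm
  by_contra h0
  refine hm (tendsto_nhds_unique (hY.2 (lcoeff ℂ m ∘ₗ L)) (tendsto_const_nhds.congr' ?_))
  filter_upwards [h] with N hN
  by_contra h1
  exact h0 (hN m (Ne.symm h1))

lemma lim_ker (hP : IsJackLaurent k lam mu P) {Y : Lam} (hY : IsLim P Y) {S : Finset Idx}
    (hS : Good S (da lam mu)) : L1 k S Y + (k * da lam mu) • Y = 0 := by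
  ext m
  have h1 := hY.2 (lcoeff ℂ m ∘ₗ (L1 k S + (k * da lam mu) • LinearMap.id))
  have h2 := (hY.2 (lcoeff ℂ m ∘ₗ
    (L0 k S - ((qa lam mu : ℂ) - k * ra lam mu) • LinearMap.id))).neg.mul
      (tendsto_inv_atTop_nhds_zero_nat (𝕜 := ℂ))
  rw [mul_zero] at h2
  refine tendsto_nhds_unique h1 (h2.congr' ?_)
  filter_upwards [jl_big hP hS, eventually_ne_atTop 0] with N hN h0
  have h3 := congrArg (coeff m) hN.2
  rw [coeff_add, coeff_smul, smul_eq_mul, coeff_zero] at h3
  have h4 : (N : ℂ) ≠ 0 := Nat.cast_ne_zero.2 h0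
  rw [mul_inv_eq_iff_eq_mul₀ h4]
  rw [mul_comm (N : ℂ)] at h3
  exact neg_eq_of_add_eq_zero_right h3

lemma jl_top (hP : IsJackLaurent k lam mu P) {S : Finset Idx} (hS : Good S (da lam mu)) :
    ∀ᶠ N : ℕ in atTop, L0 k S (specialize N P) -
      ((qa lam mu : ℂ) - k * ra lam mu) • specialize N P ∈ F (da lam mu - 1) := by
  filter_upwards [jl_big hP hS] with N hN
  rw [eq_neg_of_add_eq_zero_left hN.2]
  exact neg_mem (Submodule.smul_mem _ _ (L1_add_mem_F k hS (jl_F hP N)))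

lemma lim_coeff (hP : IsJackLaurent k lam mu P) {Y : Lam} (hY : IsLim P Y) {M : ℕ}
    (β : Fin M → ℤ) : ∀ᶠ N : ℕ in atTop, nrm β = da lam mu → ∑ i, β i ^ 2 = qa lam mu →
      (phiA M (specialize N P - Y)).coeff β = 0 := by
  obtain ⟨S, hS⟩ := exists_good (da lam mu)
  by_cases h : nrm β = da lam mu ∧ ∑ i, β i ^ 2 = qa lam mu
  swap
  · exact .of_forall fun N a b => (h ⟨a, b⟩).elim
  obtain ⟨φ, hφ⟩ := exists_coeff β
  have h1 : ∀ᶠ N : ℕ in atTop, φ (specialize N P) = 0 ∨ φ (specialize N P) = 1 := by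
    filter_upwards [jl_big hP hS, eventually_ge_atTop (M + lam.colLen 0 + mu.colLen 0)]
      with N hN h0
    have h2 := coeff_zero_or_one (sym_phiA _) hN.1.2 hN.1.1 (γ := ext0 N β) (by
      rw [sum_ext0 (by omega) β (fun z => z ^ 2) (by simp), h.2,
        (chi_big lam mu (N := N) (by omega)).1])
    rw [phiA_ext0 (by omega) (jl_F hP N) h.1.ge] at h2
    rw [hφ]
    exact h2
  filter_upwards [zero_one_lim (hY.2 φ) h1] with N a _ _
  rw [← hφ, map_sub, a, sub_self]

lemma lim_top (hk : ∀ q : ℚ, k ≠ q) (hP : IsJackLaurent k lam mu P) {Y : Lam} (hY : IsLim P Y) :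
    ∀ᶠ N : ℕ in atTop, specialize N P - Y ∈ F (da lam mu - 1) := by
  obtain ⟨S, hS⟩ := exists_good (da lam mu)
  have hF : Y ∈ F (da lam mu) := hY.mem_F LinearMap.id (.of_forall fun N => jl_F hP N)
  have hA : L0 k S Y - ((qa lam mu : ℂ) - k * ra lam mu) • Y ∈ F (da lam mu - 1) := by
    have := hY.mem_F (L0 k S - ((qa lam mu : ℂ) - k * ra lam mu) • LinearMap.id)
      (d := da lam mu - 1) (by
        simpa only [LinearMap.sub_apply, LinearMap.smul_apply, LinearMap.id_apply]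
          using jl_top hP hS)
    simpa only [LinearMap.sub_apply, LinearMap.smul_apply, LinearMap.id_apply] using this
  obtain ⟨T, hT⟩ := exists_fin (2 * (da lam mu).toNat) (da lam mu)
  filter_upwards [jl_top hP hS, (eventually_all_finset T).2 fun β _ => lim_coeff hP hY β]
    with N a b
  refine top_zero hk hS (sub_mem (jl_F hP N) hF) (q := qa lam mu) (r := ra lam mu) ?_
    fun β h => b β (hT β h) h
  rw [map_sub, smul_sub, sub_sub_sub_comm]
  exact sub_mem a hA

lemma jl_sign (hP : IsJackLaurent k lam mu P) {S : Finset Idx} (hS : Good S (da lam mu))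
    {m : Idx →₀ ℕ} (hm : coeff m P ≠ 0) :
    ∑ a ∈ S, a.1 * m a = ys lam (fun _ z => z) - ys mu (fun _ z => z) := by
  by_contra h
  apply hm
  rw [rat_const (fun n => (hP n).1 m) (a := 0), map_zero]
  filter_upwards [jl_big hP hS, eventually_ge_atTop
    ((da lam mu).toNat + lam.colLen 0 + mu.colLen 0)] with N hN h0
  have h1 := sum_th (s := ys lam (fun _ z => z) - ys mu (fun _ z => z))
    (T := phiA N (specialize N P)) fun γ hγ => by
      rw [(hN.1.2 γ hγ).1, ← sum_row (N := N) lam _ (by simp) (by omega),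
        ← sum_row_rev (N := N) mu _ (by simp) (by omega), ← sum_sub_distrib]
      rfl
  have h2 : ∑ a ∈ S, (a.1 : ℂ) • (X a * pderiv a (specialize N P)) -
      ((ys lam (fun _ z => z) - ys mu (fun _ z => z) : ℤ) : ℂ) • specialize N P = 0 := by
    refine phiA_inj (N := N) (sub_mem (Submodule.sum_mem _ fun a _ => Submodule.smul_mem _ _
      (F_mono (by omega) (F_mul (X_mem_F a) (pderiv_mem_F (jl_F hP N) a))))
      (Submodule.smul_mem _ _ (jl_F hP N))) (by omega) ?_
    rw [map_sub, map_smul, ← h1, sub_eq_zero]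
    simp only [chain hS (jl_F hP N), map_sum, map_smul, map_mul, phiA_X, ps, sum_mul, smul_sum]
    exact sum_comm
  have h3 := congrArg (coeff m) h2
  simp only [coeff_sub, coeff_sum, coeff_smul, coeff_X_mul_pderiv, smul_eq_mul, coeff_zero,
    ← mul_assoc, ← sum_mul, ← sub_mul] at h3
  rw [← coeff_specialize]
  refine (mul_eq_zero.1 h3).resolve_left fun e => h ?_
  exact_mod_cast sub_eq_zero.1 e

lemma one_side (hk : ∀ q : ℚ, k ≠ q) (hP : IsJackLaurent k lam mu P) {s : ℤ} (hs : |s| = 1)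
    (h : s * (ys lam (fun _ z => z) - ys mu (fun _ z => z)) = da lam mu) :
    ∃ Y : Lam, P = map (algebraMap ℂ (RatFunc ℂ)) Y ∧ ∀ a : Idx, s * a.1 < 0 → pderiv a Y = 0 := by
  obtain ⟨Y, hY⟩ := exists_lim hk hP
  obtain ⟨S, hS⟩ := exists_good (da lam mu)
  have key : ∀ m, coeff m P ≠ 0 → da lam mu ≤ wt m ∧ ∀ a : Idx, s * a.1 < 0 → m a = 0 := by
    intro m hm
    have h1 : wt m ≤ da lam mu := by
      by_contra e
      refine hm ((rat_const (fun n => (hP n).1 m) (a := 0) (.of_forall fun N => ?_)).trans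
        (map_zero _))
      rw [← coeff_specialize]
      by_contra e'
      exact e (jl_F hP N m e')
    have h2 : ∑ a ∈ S, |a.1| * (m a : ℤ) = wt m := by
      rw [wt, Finsupp.weight_apply, Finsupp.sum_of_support_subset (s := S)]
      · simp [mul_comm]
      · exact fun a ha => hS a ((abs_le_wt (Finsupp.mem_support_iff.mp ha)).trans h1)
      · simp
    have h3 : ∀ a ∈ S, 0 ≤ (|a.1| - s * a.1) * (m a : ℤ) := fun a _ => by
      have := le_abs_self (s * a.1)
      rw [abs_mul, hs, one_mul] at this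
      exact mul_nonneg (by omega) (by omega)
    have h4 : ∑ a ∈ S, (|a.1| - s * a.1) * (m a : ℤ) = wt m - da lam mu := by
      rw [← h, ← jl_sign hP hS hm, ← h2, mul_sum, ← sum_sub_distrib]
      exact sum_congr rfl fun a _ => by ring
    have h5 := sum_nonneg h3
    refine ⟨by omega, fun a ha => ?_⟩
    by_contra e
    have h6 := (sum_eq_zero_iff_of_nonneg h3).1 (by omega) a (hS a ((abs_le_wt e).trans h1))
    have := abs_nonneg a.1
    rcases mul_eq_zero.1 h6 with h7 | h7 <;> omega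
  have h8 : P = map (algebraMap ℂ (RatFunc ℂ)) Y := by
    ext m
    by_cases hm : coeff m P = 0
    · have := hY.1 m
      simp only [hm, RatFunc.eval_zero] at this
      rw [hm, coeff_map, tendsto_nhds_unique this tendsto_const_nhds, map_zero]
    rw [coeff_map]
    refine rat_const (fun n => (hP n).1 m) ?_
    filter_upwards [lim_top hk hP hY] with N hN
    rw [← coeff_specialize, ← sub_eq_zero, ← coeff_sub]
    by_contra e
    have := hN m e
    have := (key m hm).1
    omega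
  refine ⟨Y, h8, fun a ha => ?_⟩
  ext m
  rw [coeff_pderiv, coeff_zero, mul_eq_zero]
  left
  by_contra e
  have := (key (m + Finsupp.single a 1) (by
    rw [h8, coeff_map]
    exact (map_ne_zero _).2 e)).2 a ha
  simp at this

lemma const_eq (hk : k ≠ 0) {Y : Lam}
    (hP : IsJackLaurent k lam mu (map (algebraMap ℂ (RatFunc ℂ)) Y)) {n : ℕ} (hn : da lam mu ≤ n)
    (h : LL 2 n Y = 0) : Y ∈ F (da lam mu) ∧ GG n Y = (da lam mu : ℂ) • Y ∧
      L0 k (SS n) Y = ((qa lam mu : ℂ) - k * ra lam mu) • Y ∧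
        ∀ᶠ N : ℕ in atTop, Lead (chi lam mu N) (phiA N Y) := by
  have h1 := jl_big hP (good_SS hn)
  simp only [specialize_map] at h1
  obtain ⟨N, a, b⟩ := (h1.and ((tendsto_add_atTop_nat 1).eventually h1)).exists
  have h2 : L1 k (SS n) Y + (k * da lam mu) • Y = 0 := by
    have := sub_eq_zero.2 (b.2.trans a.2.symm)
    push_cast at this
    rw [← this]
    module
  refine ⟨specialize_map 0 Y ▸ jl_F hP 0, ?_, ?_, h1.mono fun _ c => c.1⟩
  · rw [L1_SS, h, smul_zero, zero_sub, mul_smul, neg_add_eq_zero] at h2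
    exact smul_right_injective _ hk h2
  · have := a.2
    rwa [h2, smul_zero, add_zero, sub_eq_zero] at this

theorem limit_formula (hk : ∀ q : ℚ, k ≠ q) (hP : IsJackLaurent k lam mu P) :
    ∃ U V : Lam, IsJackLaurent k lam ⊥ (map (algebraMap ℂ (RatFunc ℂ)) U) ∧
      IsJackLaurent k ⊥ mu (map (algebraMap ℂ (RatFunc ℂ)) V) ∧ IsLim P (wick k (U * V)) := by
  have hk0 : k ≠ 0 := by simpa using hk 0
  have y0 : ∀ g, ys ⊥ g = 0 := fun g => by
    have : (⊥ : YoungDiagram).colLen 0 = 0 := by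
      by_contra e
      exact YoungDiagram.notMem_bot _ (YoungDiagram.mem_iff_lt_colLen.2 (Nat.pos_of_ne_zero e))
    rw [ys, this, sum_range_zero]
  have r0 : ∀ i, (⊥ : YoungDiagram).rowLen i = 0 := fun i => by
    by_contra e
    exact YoungDiagram.notMem_bot _ (YoungDiagram.mem_iff_lt_rowLen.2 (Nat.pos_of_ne_zero e))
  obtain ⟨P₁, h₁⟩ := exists_jackLaurent hk lam ⊥
  obtain ⟨P₂, h₂⟩ := exists_jackLaurent hk ⊥ mu
  obtain ⟨U, rfl, hU⟩ := one_side hk h₁ (s := 1) rfl (by simp [da, y0])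
  obtain ⟨V, rfl, hV⟩ := one_side hk h₂ (s := -1) rfl (by simp [da, y0])
  obtain ⟨Y, hY⟩ := exists_lim hk hP
  refine ⟨U, V, h₁, h₂, ?_⟩
  have d1 := da_nonneg lam ⊥
  have d2 := da_nonneg ⊥ mu
  have ed : da lam mu = da lam ⊥ + da ⊥ mu := by simp [da, y0]
  have eq : qa lam mu = qa lam ⊥ + qa ⊥ mu := by simp [qa, y0]
  have er : ra lam mu = ra lam ⊥ + ra ⊥ mu := by simp [ra, y0]
  obtain ⟨n, hn⟩ : ∃ n : ℕ, da lam mu = n := ⟨(da lam mu).toNat, by omega⟩
  have hS : Good (SS n) (da lam mu) := good_SS hn.le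
  obtain ⟨a1, a2, a3, a4⟩ := const_eq hk0 h₁ (n := n) (by omega) (by
    rw [LL_apply]
    exact sum_eq_zero fun i _ => by
      rw [hU (neg i) (by simp only [neg]; omega), map_zero, smul_zero])
  obtain ⟨b1, b2, b3, b4⟩ := const_eq hk0 h₂ (n := n) (by omega) (by
    rw [LL_apply]
    exact sum_eq_zero fun i _ => by
      rw [pd_comm, hV (pos i) (by simp only [pos]; omega), map_zero, smul_zero])
  have c1 : U * V ∈ F (da lam mu) := ed ▸ F_mul a1 b1
  have c2 : GG n (U * V) = (da lam mu : ℂ) • (U * V) := by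
    rw [GG_mul, a2, b2, ed, smul_mul_assoc, mul_smul_comm]
    push_cast
    module
  have c3 : L0 k (SS n) (U * V) - ((qa lam mu : ℂ) - k * ra lam mu) • (U * V) ∈
      F (da lam mu - 1) := by
    have := L0_mul k (SS n) a1 b1 (fun a ha => hU a (by omega)) fun a ha => hV a (by omega)
    rw [a3, b3, smul_mul_assoc, mul_smul_comm, ← ed] at this
    convert this using 1
    rw [eq, er]
    push_cast
    module
  obtain ⟨N, ⟨e1, e2, e3⟩, e4, e5, e6⟩ := (((jl_big hP hS).and ((jl_top hP hS).and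
    (lim_top hk hP hY))).and (a4.and (b4.and (eventually_ge_atTop
      (2 * (da lam mu).toNat + lam.colLen 0 + mu.colLen 0))))).exists
  have c4 : specialize N P - U * V ∈ F (da lam mu - 1) := by
    have hf := sub_mem (jl_F hP N) c1
    refine top_zero hk hS hf (q := qa lam mu) (r := ra lam mu) ?_ fun β h h' => ?_
    · convert sub_mem e2 c3 using 1
      rw [map_sub]
      module
    · have l := e4.mul e5
      rw [← map_mul, show chi lam ⊥ N + chi ⊥ mu N = chi lam mu N from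
        funext fun i => by simp [chi, r0, sub_eq_add_neg]] at l
      rw [← phiA_ext0 (N := N) (by omega) hf h.ge, map_sub, AddMonoidAlgebra.coeff_sub,
        Finsupp.sub_apply, sub_eq_zero]
      refine Lead.coeff_eq (sym_phiA _) (sym_phiA _) e1.1 l ?_
      rw [sum_ext0 (by omega) β (fun z => z ^ 2) (by simp), h',
        (chi_big lam mu (N := N) (by omega)).1]
  have c5 : Y - wick k (U * V) ∈ F (da lam mu - 1) := by
    convert sub_mem (sub_mem c4 e3) (wick_sub k c1) using 1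
    abel
  have c6 : Y - wick k (U * V) = 0 := by
    by_contra hne
    obtain ⟨e, he1, he2, he3⟩ := exists_exact_F hne c5
    refine he3 (mem_F_of_B hk0 (d := da lam mu) (hS.mono (by omega)) (by omega) he2 ?_)
    rw [map_sub, smul_sub, sub_add_sub_comm, lim_ker hP hY hS, wick_ker hk0 hn.le c1 c2, sub_self]
    exact zero_mem _
  exact sub_eq_zero.1 c6 ▸ hY

end Pool.Agent.P.MP_80096b_al
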