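import Pool.Agent.P.MP_80096b_al.Defs

namespace Pool.Agent.P.MP_80096b_al

open Finset

abbrev A (N : ℕ) : Type := AddMonoidAlgebra ℂ (Fin N → ℤ)

variable {N : ℕ}

noncomputable def xp (i : Fin N) (n : ℤ) : A N := AddMonoidAlgebra.single (Pi.single i n) 1

lemma xp_add (i : Fin N) (m n : ℤ) : xp i (m + n) = xp i m * xp i n := by
  simp [xp, AddMonoidAlgebra.single_mul_single, Pi.single_add]

lemma xp_zero (i : Fin N) : xp i 0 = 1 := by
  simp [xp, AddMonoidAlgebra.one_def]

lemma xp_mul_nat (i : Fin N) (s : ℤ) (c : ℕ) : xp i (s * c) = xp i s ^ c := by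
  induction c with
  | zero => simp [xp_zero]
  | succ c ih => rw [pow_succ, ← ih, ← xp_add]; congr 1; push_cast; ring

lemma coeff_xp_mul (i : Fin N) (n : ℤ) (g : A N) (γ : Fin N → ℤ) :
    (xp i n * g).coeff γ = g.coeff (γ - Pi.single i n) := by
  rw [xp, AddMonoidAlgebra.coeff_single_mul_apply, one_mul]
  congr 1; abel

noncomputable def th (i : Fin N) : A N →ₗ[ℂ] A N where
  toFun g := AddMonoidAlgebra.ofCoeff (Finsupp.onFinset g.coeff.support
    (fun γ => (γ i : ℂ) * g.coeff γ) (by
      intro γ h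
      rw [Finsupp.mem_support_iff]
      intro h0
      exact h (by simp [h0])))
  map_add' g h := by
    ext γ
    simp [mul_add]
  map_smul' c g := by
    ext γ
    simp only [Finsupp.onFinset_apply, AddMonoidAlgebra.coeff_smul, Finsupp.smul_apply,
      smul_eq_mul, RingHom.id_apply]
    ring

lemma coeff_th (i : Fin N) (g : A N) (γ : Fin N → ℤ) :
    (th i g).coeff γ = (γ i : ℂ) * g.coeff γ := rfl

lemma th_single (i : Fin N) (γ : Fin N → ℤ) (c : ℂ) :
    th i (AddMonoidAlgebra.single γ c) = (γ i : ℂ) • AddMonoidAlgebra.single γ c := by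
  ext η
  rw [coeff_th]
  simp only [AddMonoidAlgebra.coeff_single, AddMonoidAlgebra.coeff_smul, Finsupp.smul_apply,
    smul_eq_mul]
  by_cases h : γ = η
  · subst h; rfl
  · simp [Finsupp.single_eq_of_ne' h]

lemma th_mul (i : Fin N) (g h : A N) : th i (g * h) = th i g * h + g * th i h := by
  induction g using AddMonoidAlgebra.induction_linear with
  | zero => simp
  | add g1 g2 h1 h2 => simp only [add_mul, map_add, h1, h2]; ring
  | single γ c =>
    induction h using AddMonoidAlgebra.induction_linear with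
    | zero => simp
    | add g1 g2 h1 h2 => simp only [mul_add, map_add, h1, h2]; ring
    | single η d =>
      rw [AddMonoidAlgebra.single_mul_single, th_single, th_single, th_single, smul_mul_assoc,
        mul_smul_comm, AddMonoidAlgebra.single_mul_single, ← add_smul]
      simp

lemma th_xp (i j : Fin N) (n : ℤ) :
    th i (xp j n) = if i = j then (n : ℂ) • xp j n else 0 := by
  rw [xp, th_single]
  split_ifs with h
  · subst h; simp
  · simp [Pi.single_eq_of_ne h]

lemma th_algebraMap (i : Fin N) (c : ℂ) : th i (algebraMap ℂ (A N) c) = 0 := by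
  have : algebraMap ℂ (A N) c = AddMonoidAlgebra.single 0 c := by
    simp [AddMonoidAlgebra.coe_algebraMap]
  rw [this, th_single]; simp

/-- `h = D g` for the CMS operator `D`. -/
def Rel (k : ℂ) (g h : A N) : Prop :=
  ∃ u : Fin N → Fin N → A N,
    (∀ i j, i < j → (xp i 1 - xp j 1) * u i j = (xp i 1 + xp j 1) * (th i g - th j g)) ∧
    h = ∑ i, th i (th i g) - k • ∑ i, ∑ j with i < j, u i j

noncomputable def eig (k : ℂ) (β : Fin N → ℤ) : ℂ :=
  ((∑ i, β i ^ 2 : ℤ) : ℂ) - k * ((∑ i, ∑ j with i < j, (β i - β j) : ℤ) : ℂ)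

section LT

variable {G : Type} [AddCommGroup G] [LinearOrder G] [IsOrderedAddMonoid G]

def Bdd (κ : (Fin N → ℤ) →+ G) (β : Fin N → ℤ) (g : A N) : Prop :=
  ∀ γ, g.coeff γ ≠ 0 → κ γ ≤ κ β

def Adm (κ : (Fin N → ℤ) →+ G) : Prop :=
  Function.Injective κ ∧ ∀ i j : Fin N, i < j → κ (Pi.single j 1) < κ (Pi.single i 1)

omit [IsOrderedAddMonoid G] in
lemma exists_lead (κ : (Fin N → ℤ) →+ G) (g : A N) (hg : g ≠ 0) :
    ∃ β, g.coeff β ≠ 0 ∧ Bdd κ β g := by
  have hne : g.coeff.support.Nonempty := by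
    rw [Finsupp.support_nonempty_iff]
    simpa using hg
  obtain ⟨β, hβ, hmax⟩ := Finset.exists_max_image g.coeff.support κ hne
  exact ⟨β, Finsupp.mem_support_iff.mp hβ, fun γ hγ => hmax γ (Finsupp.mem_support_iff.mpr hγ)⟩

lemma two_term {κ : (Fin N → ℤ) →+ G} (hκ : Adm κ) {i j : Fin N} (hij : i < j) {u v : A N}
    (h : (xp i 1 - xp j 1) * u = (xp i 1 + xp j 1) * v) {β : Fin N → ℤ} (hv : Bdd κ β v) :
    Bdd κ β u ∧ u.coeff β = v.coeff β := by
  have key : ∀ γ : Fin N → ℤ, u.coeff γ - u.coeff (γ + Pi.single i 1 - Pi.single j 1) =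
      v.coeff γ + v.coeff (γ + Pi.single i 1 - Pi.single j 1) := by
    intro γ
    have := congrArg (fun w : A N => w.coeff (γ + Pi.single i 1)) h
    simp only [sub_mul, add_mul, AddMonoidAlgebra.coeff_sub, AddMonoidAlgebra.coeff_add,
      Finsupp.sub_apply, Finsupp.add_apply, coeff_xp_mul, add_sub_cancel_right] at this
    exact this
  have hlt : ∀ γ : Fin N → ℤ, κ γ < κ (γ + Pi.single i 1 - Pi.single j 1) := by
    intro γ
    have := hκ.2 i j hij
    rw [map_sub, map_add, add_sub_assoc]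
    exact lt_add_of_pos_right _ (sub_pos.mpr this)
  have hu : Bdd κ β u := by
    by_cases hu0 : u = 0
    · intro γ hγ; simp [hu0] at hγ
    obtain ⟨η, hη, hmax⟩ := exists_lead κ u hu0
    have h1 : u.coeff (η + Pi.single i 1 - Pi.single j 1) = 0 := by
      by_contra hne
      exact absurd (hmax _ hne) (not_le.mpr (hlt η))
    have h2 := key η
    rw [h1, sub_zero] at h2
    have h3 : κ η ≤ κ β := by
      by_cases hv1 : v.coeff η = 0
      · rw [hv1, zero_add] at h2
        exact ((hlt η).trans_le (hv _ (h2 ▸ hη))).le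
      · exact hv _ hv1
    intro γ hγ
    exact (hmax γ hγ).trans h3
  refine ⟨hu, ?_⟩
  have h1 : u.coeff (β + Pi.single i 1 - Pi.single j 1) = 0 := by
    by_contra hne
    exact absurd (hu _ hne) (not_le.mpr (hlt β))
  have h2 : v.coeff (β + Pi.single i 1 - Pi.single j 1) = 0 := by
    by_contra hne
    exact absurd (hv _ hne) (not_le.mpr (hlt β))
  have := key β
  rwa [h1, h2, sub_zero, add_zero] at this

lemma Rel.lead {κ : (Fin N → ℤ) →+ G} (hκ : Adm κ) {k : ℂ} {g h : A N} (hr : Rel k g h)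
    {β : Fin N → ℤ} (hg : Bdd κ β g) :
    Bdd κ β h ∧ h.coeff β = eig k β * g.coeff β := by
  obtain ⟨u, hu, rfl⟩ := hr
  have hv : ∀ i j : Fin N, Bdd κ β (th i g - th j g) := by
    intro i j γ hγ
    apply hg γ
    intro h0
    apply hγ
    simp [coeff_th, h0]
  have h2 := fun i j (hij : i < j) => two_term hκ hij (hu i j hij) (hv i j)
  constructor
  · intro γ hγ
    by_contra hlt
    apply hγ
    have hg0 : g.coeff γ = 0 := by
      by_contra hne; exact hlt (hg γ hne)
    simp only [AddMonoidAlgebra.coeff_sub, AddMonoidAlgebra.coeff_sum, AddMonoidAlgebra.coeff_smul,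
      Finsupp.sub_apply, Finsupp.finsetSum_apply, Finsupp.smul_apply, coeff_th, hg0, mul_zero,
      sum_const_zero, smul_eq_mul]
    rw [Finset.sum_eq_zero, mul_zero, sub_zero]
    intro i _
    apply Finset.sum_eq_zero
    intro j hj
    by_contra hne
    exact hlt ((h2 i j (Finset.mem_filter.mp hj).2).1 γ hne)
  · simp only [AddMonoidAlgebra.coeff_sub, AddMonoidAlgebra.coeff_sum, AddMonoidAlgebra.coeff_smul,
      Finsupp.sub_apply, Finsupp.finsetSum_apply, Finsupp.smul_apply, coeff_th, smul_eq_mul, eig]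
    have : ∀ i : Fin N, ∑ j with i < j, (u i j).coeff β =
        ∑ j with i < j, ((β i : ℂ) - β j) * g.coeff β := by
      intro i
      apply Finset.sum_congr rfl
      intro j hj
      rw [(h2 i j (Finset.mem_filter.mp hj).2).2]
      simp only [AddMonoidAlgebra.coeff_sub, Finsupp.sub_apply, coeff_th]
      ring
    simp only [this]
    push_cast
    rw [sub_mul, Finset.sum_mul, mul_assoc, Finset.sum_mul]
    congr 1
    · apply Finset.sum_congr rfl; intro i _; ring
    · congr 1
      apply Finset.sum_congr rfl; intro i _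
      rw [Finset.sum_mul]

end LT

/-- The admissible order given by an antitone weight, refined lexicographically. -/
def kap (w : Fin N → ℤ) : (Fin N → ℤ) →+ (ℤ ×ₗ Lex (Fin N → ℤ)) where
  toFun γ := toLex (∑ i, w i * γ i, toLex γ)
  map_zero' := by simp
  map_add' γ η := by
    simp only [Pi.add_apply, mul_add, Finset.sum_add_distrib]
    rfl

lemma kap_adm (w : Fin N → ℤ) (hw : Antitone w) : Adm (kap w) := by
  constructor
  · intro γ η h
    have := congrArg (fun z => (ofLex z).2) h
    exact toLex.injective this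
  · intro i j hij
    show toLex (∑ l, w l * (Pi.single j 1 : Fin N → ℤ) l, toLex (Pi.single j 1 : Fin N → ℤ)) <
      toLex (∑ l, w l * (Pi.single i 1 : Fin N → ℤ) l, toLex (Pi.single i 1 : Fin N → ℤ))
    rw [Prod.Lex.toLex_lt_toLex]
    have h1 : ∀ l : Fin N, ∑ l', w l' * (Pi.single l 1 : Fin N → ℤ) l' = w l := by
      intro l
      rw [Finset.sum_eq_single l] <;> simp +contextual [Pi.single_eq_of_ne]
    simp only [h1]
    rcases (hw hij.le).lt_or_eq with h | h
    · exact Or.inl h
    · refine Or.inr ⟨h, i, ?_, ?_⟩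
      · intro l hl
        show (Pi.single j 1 : Fin N → ℤ) l = (Pi.single i 1 : Fin N → ℤ) l
        rw [Pi.single_eq_of_ne hl.ne, Pi.single_eq_of_ne (hl.trans hij).ne]
      · show (Pi.single j 1 : Fin N → ℤ) i < (Pi.single i 1 : Fin N → ℤ) i
        rw [Pi.single_eq_of_ne hij.ne]; simp

lemma kap_le {w γ β : Fin N → ℤ} (h : kap w γ ≤ kap w β) : ∑ i, w i * γ i ≤ ∑ i, w i * β i := by
  have h' : toLex (∑ i, w i * γ i, toLex γ) ≤ toLex (∑ i, w i * β i, toLex β) := h
  rw [Prod.Lex.toLex_le_toLex] at h'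
  rcases h' with h' | h'
  · exact h'.le
  · exact h'.1.le

/-- The operator preserves bounds for antitone weights. -/
lemma Rel.weight {k : ℂ} {g h : A N} (hr : Rel k g h) (w : Fin N → ℤ) (hw : Antitone w) (c : ℤ)
    (hg : ∀ γ, g.coeff γ ≠ 0 → ∑ i, w i * γ i ≤ c) :
    ∀ γ, h.coeff γ ≠ 0 → ∑ i, w i * γ i ≤ c := by
  intro γ hγ
  by_cases hg0 : g = 0
  · exfalso
    have := (hr.lead (kap_adm w hw) (β := γ) (by intro η hη; simp [hg0] at hη)).2
    rw [this, hg0] at hγ
    simp at hγ
  obtain ⟨β, hβ, hb⟩ := exists_lead (kap w) g hg0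
  exact (kap_le ((hr.lead (kap_adm w hw) hb).1 γ hγ)).trans (hg β hβ)

end Pool.Agent.P.MP_80096b_al
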