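import Pool.Agent.P.MP_80096b_al.Exist

namespace Pool.Agent.P.MP_80096b_al

open Finset MvPolynomial

variable {N : ℕ}

lemma poly_zero {p : Polynomial ℂ} {N₀ : ℕ} (h : ∀ N : ℕ, N₀ ≤ N → p.eval (N : ℂ) = 0) :
    p = 0 := by
  apply Polynomial.eq_zero_of_infinite_isRoot
  refine Set.infinite_of_injective_forall_mem (f := fun n : ℕ => ((N₀ + n : ℕ) : ℂ)) ?_ ?_
  · intro a b hab
    have := Nat.cast_injective (R := ℂ) hab
    omega
  · intro n
    exact h _ (Nat.le_add_right _ _)

lemma specialize_mem_F (P : MvPolynomial Idx (RatFunc ℂ)) :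
    ∃ D : ℕ, (∀ m, coeff m P ≠ 0 → wt m ≤ D) ∧ ∀ t, specialize t P ∈ F D := by
  have h : ∀ m, coeff m P ≠ 0 → wt m ≤ (∑ m ∈ P.support, (wt m).toNat : ℕ) := by
    intro m hm
    have h1 : (wt m).toNat ≤ ∑ m ∈ P.support, (wt m).toNat :=
      Finset.single_le_sum (f := fun m => (wt m).toNat) (fun _ _ => Nat.zero_le _)
        (mem_support_iff.mpr hm)
    have := wt_nonneg m
    omega
  refine ⟨_, h, fun t m hm => h m fun h0 => hm ?_⟩
  rw [coeff_specialize, h0, RatFunc.eval_zero]

/-- What the defining property gives for large `N`. -/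
lemma jack_data {k : ℂ} {lam mu : YoungDiagram} {P : MvPolynomial Idx (RatFunc ℂ)}
    (hP : IsJackLaurent k lam mu P) {S : Finset Idx} {D : ℤ} (hS : Good S D)
    (hD : ∀ t, specialize t P ∈ F D) (h1 : 1 ≤ N) (hN : lam.colLen 0 + mu.colLen 0 ≤ N) :
    (phiA N (specialize N P)).coeff (chi lam mu N) = 1 ∧
      Tri (chi lam mu N) (phiA N (specialize N P)) ∧
      phiA N (Lt k S N (specialize N P)) = eig k (chi lam mu N) • phiA N (specialize N P) := by
  obtain ⟨n, rfl⟩ : ∃ n, N = n + 1 := ⟨N - 1, by omega⟩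
  obtain ⟨J, hJ1, hJ2⟩ := (hP n).2.1 hN
  exact bridge_to (chi_anti lam mu (n + 1)) (sym_phiA _) (rel_Lt k hS (hD _)) hJ1
    (fun x hx => by rw [ev_phiA, hJ2 x hx])

theorem jackLaurent_unique {k : ℂ} (hk : ∀ q : ℚ, k ≠ q) {lam mu : YoungDiagram}
    {P P' : MvPolynomial Idx (RatFunc ℂ)} (hP : IsJackLaurent k lam mu P)
    (hP' : IsJackLaurent k lam mu P') : P' = P := by
  obtain ⟨D, -, hD⟩ := specialize_mem_F P
  obtain ⟨D', -, hD'⟩ := specialize_mem_F P'
  obtain ⟨S, hS⟩ := exists_good ((D + D' : ℕ) : ℤ)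
  have hD1 : ∀ t, specialize t P ∈ F ((D + D' : ℕ) : ℤ) := fun t => F_mono (by omega) (hD t)
  have hD2 : ∀ t, specialize t P' ∈ F ((D + D' : ℕ) : ℤ) := fun t => F_mono (by omega) (hD' t)
  have key : ∀ N : ℕ, D + D' + lam.colLen 0 + mu.colLen 0 + 1 ≤ N →
      specialize N P' = specialize N P := by
    intro N hN
    obtain ⟨a1, a2, a3⟩ := jack_data (N := N) hP hS hD1 (by omega) (by omega)
    obtain ⟨b1, b2, b3⟩ := jack_data (N := N) hP' hS hD2 (by omega) (by omega)
    have hf := sub_mem (hD2 N) (hD1 N)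
    rw [← sub_eq_zero]
    apply phiA_inj (N := N) hf (by omega)
    by_contra hne
    have hκ := kap_adm (0 : Fin N → ℤ) antitone_const
    obtain ⟨β, hβ, hb⟩ := exists_lead (kap 0) _ hne
    have hanti := lead_antitone hκ (sym_phiA _) hβ hb
    have h1 := ((rel_Lt k hS hf).lead hκ hb).2
    rw [map_sub (Lt k S N), map_sub (phiA N) (Lt k S N _), a3, b3, ← smul_sub, ← map_sub,
      AddMonoidAlgebra.coeff_smul, Finsupp.smul_apply, smul_eq_mul] at h1
    have h2 := mul_right_cancel₀ hβ h1
    rw [map_sub, AddMonoidAlgebra.coeff_sub, Finsupp.sub_apply] at hβ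
    have hdom : Dom β (chi lam mu N) := by
      by_cases h0 : (phiA N (specialize N P)).coeff β = 0
      · rw [h0, sub_zero] at hβ
        exact b2 β hβ
      · exact a2 β h0
    have hne' : β ≠ chi lam mu N := by
      rintro rfl
      rw [a1, b1, sub_self] at hβ
      exact hβ rfl
    have h3 := hdom.sq_lt hanti hne'
    have h4 := irr_eq hk h2
    omega
  ext m
  have h1 : (coeff m P').num * (coeff m P).denom - (coeff m P).num * (coeff m P').denom = 0 := by
    apply poly_zero (N₀ := D + D' + lam.colLen 0 + mu.colLen 0 + 1)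
    intro N hN
    obtain ⟨n, rfl⟩ : ∃ n, N = n + 1 := ⟨N - 1, by omega⟩
    have h2 := congrArg (coeff m) (key _ hN)
    rw [coeff_specialize, coeff_specialize, RatFunc.eval, RatFunc.eval, Polynomial.eval₂_id,
      Polynomial.eval₂_id, Polynomial.eval₂_id, Polynomial.eval₂_id,
      div_eq_div_iff ((hP' n).1 m) ((hP n).1 m)] at h2
    rw [Polynomial.eval_sub, Polynomial.eval_mul, Polynomial.eval_mul, h2, sub_self]
  rw [sub_eq_zero, RatFunc.num_mul_eq_mul_denom_iff (RatFunc.denom_ne_zero _),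
    RatFunc.num_div_denom] at h1
  exact h1

lemma mem_F_of_B {k : ℂ} (hk : k ≠ 0) {S : Finset Idx} {D d : ℤ} (hS : Good S D) (hne : D ≠ d)
    {f : Lam} (hf : f ∈ F D) (hB : L1 k S f + (k * d) • f ∈ F (D - 1)) : f ∈ F (D - 1) := by
  have h1 := sub_mem hB (L1_add_mem_F k hS hf)
  have h2 : L1 k S f + (k * d) • f - (L1 k S f + (k * D) • f) = (k * (d - D)) • f := by
    rw [mul_sub, sub_smul]; abel
  rw [h2] at h1
  have h3 : k * ((d : ℂ) - D) ≠ 0 := by
    apply mul_ne_zero hk
    rw [sub_ne_zero]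
    exact_mod_cast hne.symm
  exact (Submodule.smul_mem_iff _ h3).mp h1

noncomputable def pol (n : ℕ) (a : ℕ → ℂ) : Polynomial ℂ :=
  ∑ j ∈ range n, Polynomial.monomial j (a j)

lemma eval_pol (n : ℕ) (a : ℕ → ℂ) (t : ℂ) : (pol n a).eval t = ∑ j ∈ range n, t ^ j * a j := by
  simp only [pol, Polynomial.eval_finsetSum, Polynomial.eval_monomial]
  apply Finset.sum_congr rfl; intro j _; ring

lemma coeff_pol (n : ℕ) (a : ℕ → ℂ) (ha : ∀ j, n ≤ j → a j = 0) (j : ℕ) :
    (pol n a).coeff j = a j := by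
  simp only [pol, Polynomial.finsetSum_coeff, Polynomial.coeff_monomial]
  rw [Finset.sum_ite_eq']
  split_ifs with h
  · rfl
  · exact (ha j (by simpa using h)).symm

lemma sq_of_top {k : ℂ} (hk : ∀ q : ℚ, k ≠ q) {S : Finset Idx} {d : ℤ} (hS : Good S d)
    {M : ℕ} (hM : d ≤ M) {f : Lam} (hf : f ∈ F d) (hf' : f ∉ F (d - 1)) {q b : ℤ}
    (he : Lt k S (2 * M : ℕ) f - ((q : ℂ) - k * b) • f ∈ F (d - 1)) :
    ∃ β : Fin (2 * M) → ℤ, nrm β = d ∧ ∑ i, β i ^ 2 = q ∧ (phiA (2 * M) f).coeff β ≠ 0 := by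
  set w : Fin (2 * M) → ℤ := fun i => if i.val < M then 1 else -1 with hw
  have hwa : Antitone w := by
    intro i j hij
    have : i.val ≤ j.val := hij
    simp only [hw]
    split_ifs <;> omega
  have hκ := kap_adm w hwa
  obtain ⟨γ, hγ1, hγ2⟩ := exists_top (N := 2 * M) hf hf' (by push_cast; omega)
  obtain ⟨σ, hσ⟩ := exists_sort γ
  have hγ3 : nrm (γ ∘ σ) = d := by
    rw [← hγ1]; exact Equiv.sum_comp σ (fun i => |γ i|)
  have hγ4 : ∑ i, w i * (γ ∘ σ) i = d := by
    rw [← hγ3]
    apply Finset.sum_congr rfl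
    intro i _
    rcases lt_trichotomy ((γ ∘ σ) i) 0 with h | h | h
    · have := lt_nrm_of_neg hσ h
      rw [abs_of_neg h, hw]
      simp only
      rw [if_neg (by push_cast at this; omega)]; ring
    · rw [h]; simp
    · have := lt_nrm_of_pos hσ h
      rw [abs_of_pos h, hw]
      simp only
      rw [if_pos (by omega)]; ring
  have hg : phiA (2 * M) f ≠ 0 := by
    intro h0; rw [h0] at hγ2; simp at hγ2
  obtain ⟨β, hβ, hb⟩ := exists_lead (kap w) _ hg
  have h1 := kap_le (hb (γ ∘ σ) (by rwa [sym_phiA]))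
  have h2 : ∑ i, w i * β i ≤ nrm β := by
    apply Finset.sum_le_sum
    intro i _
    have := le_abs_self (β i)
    have := neg_abs_le (β i)
    simp only [hw]
    split_ifs <;> omega
  have h3 := nrm_le_of_mem_F hf hβ
  have h4 := ((rel_Lt k hS hf).lead hκ hb).2
  have h5 : (phiA (2 * M) (Lt k S (2 * M : ℕ) f - ((q : ℂ) - k * b) • f)).coeff β = 0 := by
    by_contra h0
    have := nrm_le_of_mem_F he h0
    omega
  rw [map_sub, map_smul, AddMonoidAlgebra.coeff_sub, Finsupp.sub_apply, h4,
    AddMonoidAlgebra.coeff_smul, Finsupp.smul_apply, smul_eq_mul, sub_eq_zero] at h5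
  exact ⟨β, by omega, irr_eq hk (mul_right_cancel₀ hβ h5), hβ⟩

theorem degree_bound {k : ℂ} (hk : ∀ q : ℚ, k ≠ q) {lam mu : YoungDiagram}
    {P : MvPolynomial Idx (RatFunc ℂ)} (hP : IsJackLaurent k lam mu P) :
    ∃ c : Polynomial ℂ, c ≠ 0 ∧ ∀ m, ∃ p : Polynomial ℂ, p.degree ≤ c.degree ∧
      coeff m P = algebraMap _ _ p / algebraMap _ _ c := by
  classical
  have hk0 : k ≠ 0 := by simpa using hk 0
  set c : Polynomial ℂ := ∏ m ∈ P.support, (coeff m P).denom with hc
  have hc0 : c ≠ 0 := Finset.prod_ne_zero_iff.mpr fun m _ => RatFunc.denom_ne_zero _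
  have hcN : ∀ N : ℕ, 1 ≤ N → c.eval (N : ℂ) ≠ 0 := by
    intro N hN
    obtain ⟨n, rfl⟩ : ∃ n, N = n + 1 := ⟨N - 1, by omega⟩
    rw [hc, Polynomial.eval_prod]
    exact Finset.prod_ne_zero_iff.mpr fun m _ => (hP n).1 m
  have hex : ∀ m, ∃ p : Polynomial ℂ, coeff m P = algebraMap _ _ p / algebraMap _ _ c ∧
      (coeff m P = 0 → p = 0) := by
    intro m
    by_cases h0 : coeff m P = 0
    · exact ⟨0, by simp [h0], fun _ => rfl⟩
    · obtain ⟨p, hp⟩ := (RatFunc.denom_dvd hc0).mp
        (Finset.dvd_prod_of_mem (fun m => (coeff m P).denom) (mem_support_iff.mpr h0))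
      exact ⟨p, hp, fun h => absurd h h0⟩
  choose p hp hp0 using hex
  set Q : ℕ → Lam := fun j => ∑ m ∈ P.support, monomial m ((p m).coeff j) with hQ
  have hQc : ∀ j m, coeff m (Q j) = (p m).coeff j := by
    intro j m
    simp only [hQ, coeff_sum, coeff_monomial]
    rw [Finset.sum_ite_eq']
    split_ifs with h
    · rfl
    · rw [hp0 m (notMem_support_iff.mp h)]; simp
  set n := ∑ m ∈ P.support, (p m).natDegree + 1 with hn
  have hdeg : ∀ m, (p m).natDegree < n := by
    intro m
    by_cases h : m ∈ P.support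
    · have := Finset.single_le_sum (f := fun m => (p m).natDegree) (fun _ _ => Nat.zero_le _) h
      omega
    · rw [hp0 m (notMem_support_iff.mp h)]; simp [hn]
  have hQn : ∀ j, n ≤ j → Q j = 0 := by
    intro j hj
    ext m
    rw [hQc, Polynomial.coeff_eq_zero_of_natDegree_lt ((hdeg m).trans_le hj), coeff_zero]
  have hsum : ∀ N : ℕ, 1 ≤ N →
      ∑ j ∈ range n, (N : ℂ) ^ j • Q j = c.eval (N : ℂ) • specialize N P := by
    intro N hN
    ext m
    rw [coeff_smul, coeff_specialize, (eval_div (hcN N hN) (hp m)).2, smul_eq_mul,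
      mul_div_cancel₀ _ (hcN N hN), Polynomial.eval_eq_sum_range' (hdeg m), coeff_sum]
    apply Finset.sum_congr rfl
    intro j _
    rw [coeff_smul, hQc, smul_eq_mul, mul_comm]
  obtain ⟨D₀, hD₀, hD₀'⟩ := specialize_mem_F P
  set q := qa lam mu
  set d := da lam mu
  set r := ra lam mu
  have hd0 : 0 ≤ d := da_nonneg lam mu
  set D : ℕ := D₀ + d.toNat with hD
  obtain ⟨S, hS⟩ := exists_good (D : ℤ)
  have hspF : ∀ t, specialize t P ∈ F D := fun t => F_mono (by omega) (hD₀' t)
  have hQD : ∀ j, Q j ∈ F D := by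
    intro j m hm
    rw [hQc] at hm
    have := hD₀ m (fun h0 => hm (by rw [hp0 m h0]; simp))
    omega
  set N₁ := D + lam.colLen 0 + mu.colLen 0 + 1 with hN₁
  set Aop : Lam →ₗ[ℂ] Lam := L0 k S - ((q : ℂ) - k * r) • LinearMap.id with hA
  set Bop : Lam →ₗ[ℂ] Lam := L1 k S + (k * d) • LinearMap.id with hB
  have hAa : ∀ f, Aop f = L0 k S f - ((q : ℂ) - k * r) • f := fun f => rfl
  have hBa : ∀ f, Bop f = L1 k S f + (k * d) • f := fun f => rfl
  have hAB : ∀ (t : ℂ) f, Aop f + t • Bop f =
      Lt k S t f - ((q : ℂ) - k * (t * d + r)) • f := by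
    intro t f
    rw [hAa, hBa, Lt_apply, smul_add, smul_smul,
      show (q : ℂ) - k * (t * d + r) = ((q : ℂ) - k * r) - t * (k * d) by ring, sub_smul _ (t * _)]
    abel
  have heig : ∀ N : ℕ, N₁ ≤ N → Aop (specialize N P) + (N : ℂ) • Bop (specialize N P) = 0 := by
    intro N hN
    obtain ⟨-, -, a3⟩ := jack_data (N := N) hP hS hspF (by omega) (by omega)
    rw [hAB]
    apply phiA_inj (N := N) (sub_mem (Lt_mem_F k hS _ (hspF _)) (Submodule.smul_mem _ _ (hspF _)))
      (by omega)
    rw [map_sub, a3, map_smul, eig_chi lam mu k (by omega), sub_self]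
  have hrec : ∀ j, Aop (Q (j + 1)) + Bop (Q j) = 0 := by
    intro j
    ext m
    have h0 : pol n (fun j => coeff m (Aop (Q j))) +
        Polynomial.X * pol n (fun j => coeff m (Bop (Q j))) = 0 := by
      apply poly_zero (N₀ := N₁)
      intro N hN
      have h1 := congrArg (fun f => coeff m (c.eval (N : ℂ) • f)) (heig N hN)
      simp only [smul_add, smul_zero, coeff_zero] at h1
      rw [smul_comm, ← map_smul, ← map_smul, ← hsum N (by omega), map_sum, map_sum] at h1
      simp only [map_smul, coeff_add, coeff_smul, coeff_sum, smul_eq_mul] at h1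
      rw [Polynomial.eval_add, Polynomial.eval_mul, Polynomial.eval_X, eval_pol, eval_pol]
      exact h1
    have h1 := congrArg (fun p => Polynomial.coeff p (j + 1)) h0
    simp only [Polynomial.coeff_add, Polynomial.coeff_X_mul, Polynomial.coeff_zero] at h1
    rw [coeff_pol _ _ (fun j hj => by simp [hQn j hj]),
      coeff_pol _ _ (fun j hj => by simp [hQn j hj])] at h1
    rw [coeff_add, h1, coeff_zero]
  have hAF : ∀ {e : ℤ} {f : Lam}, f ∈ F e → Aop f ∈ F e := fun hf =>
    sub_mem (L0_mem_F k S hf) (Submodule.smul_mem _ _ hf)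
  have hQd : ∀ j, Q j ∈ F d := by
    have : ∀ i : ℕ, i ≤ D₀ → ∀ j, Q j ∈ F ((D : ℤ) - i) := by
      intro i
      induction i with
      | zero => intro _ j; simpa using hQD j
      | succ i ih =>
        intro hi
        have ih' := ih (by omega)
        have : ∀ l j, n ≤ j + l → Q j ∈ F ((D : ℤ) - i - 1) := by
          intro l
          induction l with
          | zero => intro j hj; rw [hQn j (by omega)]; exact zero_mem _
          | succ l ihl =>
            intro j hj
            apply mem_F_of_B hk0 (d := d) (hS.mono (by omega)) (by omega) (ih' j)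
            rw [← hBa, eq_neg_of_add_eq_zero_right (hrec j)]
            exact neg_mem (hAF (ihl (j + 1) (by omega)))
        intro j
        have := this n j (by omega)
        convert this using 2
        push_cast; ring
    intro j
    have := this D₀ le_rfl j
    convert this using 2
    omega
  refine ⟨c, hc0, fun m => ⟨p m, ?_, hp m⟩⟩
  have hmain : ∀ l R, n ≤ R + l → c.natDegree < R → Q R = 0 := by
    intro l
    induction l with
    | zero => intro R hR _; exact hQn R (by omega)
    | succ l ihl =>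
      intro R hR hcR
      by_contra hne
      have h1 : Bop (Q R) = 0 := by
        have := hrec R
        rwa [ihl (R + 1) (by omega) (by omega), map_zero, zero_add] at this
      have h2 : Q R ∉ F (d - 1) := by
        intro h
        obtain ⟨e, he1, he2, he3⟩ := exists_exact_F hne h
        apply he3
        apply mem_F_of_B hk0 (d := d) (hS.mono (by omega)) (by omega) he2
        rw [← hBa, h1]; exact zero_mem _
      obtain ⟨R', rfl⟩ : ∃ R', R = R' + 1 := ⟨R - 1, by omega⟩
      have hSd : Good S d := hS.mono (by omega)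
      have h3 : Lt k S (2 * d.toNat : ℕ) (Q (R' + 1)) -
          ((q : ℂ) - k * ((2 * d.toNat : ℕ) * d + r : ℤ)) • Q (R' + 1) ∈ F (d - 1) := by
        have := hAB (2 * d.toNat : ℕ) (Q (R' + 1))
        rw [h1, smul_zero, add_zero, eq_neg_of_add_eq_zero_left (hrec R')] at this
        push_cast at this ⊢
        rw [← this]
        exact neg_mem (L1_add_mem_F k hSd (hQd R'))
      obtain ⟨β, hβ1, hβ2, hβ3⟩ := sq_of_top hk hSd (by omega) (hQd _) h2 h3
      set pβ := pol n (fun j => (phiA (2 * d.toNat) (Q j)).coeff β) with hpβ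
      have hco : pβ.coeff (R' + 1) ≠ 0 := by
        rw [hpβ, coeff_pol _ _ (fun j hj => by simp [hQn j hj])]; exact hβ3
      have h4 : pβ * (pβ - c) = 0 := by
        apply poly_zero (N₀ := N₁ + 2 * d.toNat)
        intro N hN
        obtain ⟨a1, a2, -⟩ := jack_data (N := N) hP hS hspF (by omega) (by omega)
        have hle : 2 * d.toNat ≤ N := by omega
        have h5 : pβ.eval (N : ℂ) =
            c.eval (N : ℂ) * (phiA N (specialize N P)).coeff (ext0 N β) := by
          have := congrArg (fun f => (phiA N f).coeff (ext0 N β)) (hsum N (by omega))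
          simp only [map_sum, map_smul, AddMonoidAlgebra.coeff_sum, AddMonoidAlgebra.coeff_smul,
            Finsupp.finsetSum_apply, Finsupp.smul_apply, smul_eq_mul,
            phiA_ext0 hle (hQd _) hβ1.ge] at this
          rw [hpβ, eval_pol, this]
        have h6 := coeff_zero_or_one (sym_phiA _) a2 a1 (γ := ext0 N β) (by
          rw [sum_ext0 hle β (fun z => z ^ 2) (by simp), hβ2,
            (chi_big lam mu (N := N) (by omega)).1])
        rw [Polynomial.eval_mul, Polynomial.eval_sub, h5]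
        rcases h6 with h6 | h6 <;> rw [h6] <;> ring
      rcases mul_eq_zero.mp h4 with h5 | h5
      · rw [h5] at hco; simp at hco
      · rw [sub_eq_zero.mp h5] at hco
        exact hco (Polynomial.coeff_eq_zero_of_natDegree_lt hcR)
  rw [Polynomial.degree_eq_natDegree hc0, Polynomial.degree_le_iff_coeff_zero]
  intro R hR
  rw [← hQc, hmain n R (by omega) (by exact_mod_cast hR), coeff_zero]

lemma tendsto_of_degree_le {p c : Polynomial ℂ} (hc : c ≠ 0) (h : p.degree ≤ c.degree)
    {r : RatFunc ℂ} (hr : r = algebraMap _ _ p / algebraMap _ _ c) :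
    ∃ a : ℂ, Filter.Tendsto (fun t : ℂ => RatFunc.eval (RingHom.id ℂ) t r)
      (Bornology.cobounded ℂ) (nhds a) := by
  set a := p.coeff c.natDegree / c.leadingCoeff with ha
  have hlc : c.leadingCoeff ≠ 0 := Polynomial.leadingCoeff_ne_zero.mpr hc
  have h1 : (p - Polynomial.C a * c).degree < c.degree := by
    rw [Polynomial.degree_eq_natDegree hc, Polynomial.degree_lt_iff_coeff_zero]
    intro m hm
    rw [Polynomial.coeff_sub, Polynomial.coeff_C_mul]
    rcases hm.lt_or_eq with hm | hm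
    · rw [Polynomial.coeff_eq_zero_of_natDegree_lt hm, Polynomial.coeff_eq_zero_of_natDegree_lt
        ((Polynomial.natDegree_le_natDegree h).trans_lt hm)]
      simp
    · rw [← hm, Polynomial.coeff_natDegree, ha, div_mul_cancel₀ _ hlc, sub_self]
  have h2 := (Polynomial.isLittleO_cobounded_of_degree_lt h1).tendsto_div_nhds_zero
  have h3 : ∀ᶠ t in Bornology.cobounded ℂ, c.eval t ≠ 0 :=
    Bornology.le_cofinite ℂ (Filter.eventually_cofinite.mpr (by
      simpa [Polynomial.IsRoot] using Polynomial.finite_setOfPred_isRoot hc))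
  refine ⟨a, ?_⟩
  have h4 := h2.add_const a
  rw [zero_add] at h4
  refine h4.congr' ?_
  filter_upwards [h3] with t ht
  rw [(eval_div ht hr).2]
  simp only [Polynomial.eval_sub, Polynomial.eval_mul, Polynomial.eval_C]
  field_simp
  ring

end Pool.Agent.P.MP_80096b_al
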