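import Pool.Agent.Results.MP_80096b_al.LimitFormula

/-! The earlier statement (existence of the limit) follows from the closed formula. -/

namespace Pool.Agent.P.MP_80096b_al

theorem limit_exists (k : ℂ) (hk : ∀ q : ℚ, k ≠ (q : ℂ)) (lam mu : YoungDiagram) :
    ∃ P : MvPolynomial Idx (RatFunc ℂ), IsJackLaurent k lam mu P ∧
      (∀ P' : MvPolynomial Idx (RatFunc ℂ), IsJackLaurent k lam mu P' → P' = P) ∧
      ∀ m : Idx →₀ ℕ, ∃ a : ℂ,
        Filter.Tendsto (fun t : ℂ => RatFunc.eval (RingHom.id ℂ) t (MvPolynomial.coeff m P))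
          (Bornology.cobounded ℂ) (nhds a) := by
  obtain ⟨P, _, _, h1, h2, -, -, h3⟩ := Results.MP_80096b_al.LimitFormula.result k hk lam mu
  exact ⟨P, h1, h2, fun m => ⟨_, h3 m⟩⟩

end Pool.Agent.P.MP_80096b_al
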