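import Pool.Agent.P.MP_80096b_al.Laurent

namespace Pool.Agent.P.MP_80096b_al

open Finset MvPolynomial

abbrev Lam : Type := MvPolynomial Idx ℂ

variable {N : ℕ}

noncomputable def wt : (Idx →₀ ℕ) →+ ℤ := Finsupp.weight (fun a : Idx => |a.1|)

lemma wt_single (a : Idx) (n : ℕ) : wt (Finsupp.single a n) = n * |a.1| := by
  simp [wt, Finsupp.weight_single]

lemma wt_nonneg (m : Idx →₀ ℕ) : 0 ≤ wt m := by
  rw [wt, Finsupp.weight_apply]
  exact Finset.sum_nonneg fun a _ => by positivity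

lemma abs_le_wt {m : Idx →₀ ℕ} {a : Idx} (h : m a ≠ 0) : |a.1| ≤ wt m :=
  Finsupp.le_weight_of_ne_zero (w := fun a : Idx => |a.1|) (fun _ => abs_nonneg _) h

/-- The filtration by total degree. -/
def F (d : ℤ) : Submodule ℂ Lam where
  carrier := {f | ∀ m, coeff m f ≠ 0 → wt m ≤ d}
  add_mem' := by
    intro f g hf hg m hm
    by_cases h : coeff m f = 0
    · apply hg m; intro h'; apply hm; simp [h, h']
    · exact hf m h
  zero_mem' := by intro m hm; simp at hm
  smul_mem' := by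
    intro c f hf m hm
    apply hf m; intro h; apply hm; simp [h]

lemma mem_F {d : ℤ} {f : Lam} : f ∈ F d ↔ ∀ m, coeff m f ≠ 0 → wt m ≤ d := Iff.rfl

lemma F_mono {d e : ℤ} (h : d ≤ e) {f : Lam} (hf : f ∈ F d) : f ∈ F e :=
  fun m hm => (hf m hm).trans h

lemma F_neg {d : ℤ} (hd : d < 0) {f : Lam} (hf : f ∈ F d) : f = 0 := by
  ext m
  by_contra h
  have := hf m (by simpa using h)
  have := wt_nonneg m
  omega

lemma exists_F (f : Lam) : ∃ d : ℕ, f ∈ F d := by
  refine ⟨∑ m ∈ f.support, (wt m).toNat, fun m hm => ?_⟩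
  have h1 : (wt m).toNat ≤ ∑ m ∈ f.support, (wt m).toNat :=
    Finset.single_le_sum (f := fun m => (wt m).toNat) (fun _ _ => Nat.zero_le _)
      (mem_support_iff.mpr hm)
  have := wt_nonneg m
  omega

lemma F_mul {d e : ℤ} {f g : Lam} (hf : f ∈ F d) (hg : g ∈ F e) : f * g ∈ F (d + e) := by
  classical
  intro m hm
  rw [coeff_mul] at hm
  obtain ⟨p, hp, hne⟩ := Finset.exists_ne_zero_of_sum_ne_zero hm
  rw [← Finset.HasAntidiagonal.mem_antidiagonal.mp hp, map_add]
  exact add_le_add (hf _ (left_ne_zero_of_mul hne)) (hg _ (right_ne_zero_of_mul hne))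

lemma monomial_mem_F (m : Idx →₀ ℕ) (c : ℂ) : monomial m c ∈ F (wt m) := by
  classical
  intro m' hm
  rw [coeff_monomial] at hm
  split_ifs at hm with h
  · rw [h]
  · exact absurd rfl hm

lemma X_mem_F (a : Idx) : (X a : Lam) ∈ F |a.1| := by
  have := monomial_mem_F (Finsupp.single a 1) 1
  rwa [wt_single, Nat.cast_one, one_mul] at this

lemma one_mem_F : (1 : Lam) ∈ F 0 := by
  simpa using monomial_mem_F 0 1

lemma pderiv_mem_F {d : ℤ} {f : Lam} (hf : f ∈ F d) (a : Idx) : pderiv a f ∈ F (d - |a.1|) := by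
  intro m hm
  rw [coeff_pderiv] at hm
  have := hf _ (left_ne_zero_of_mul hm)
  rw [map_add, wt_single] at this
  push_cast at this
  omega

lemma coeff_X_mul_pderiv (a : Idx) (f : Lam) (m : Idx →₀ ℕ) :
    coeff m (X a * pderiv a f) = (m a : ℂ) * coeff m f := by
  classical
  induction f using MvPolynomial.induction_on' with
  | monomial u c =>
    rw [X_mul_pderiv_monomial, coeff_smul, coeff_monomial]
    split_ifs with h
    · subst h; simp
    · simp
  | add p q hp hq => simp only [map_add, mul_add, coeff_add, hp, hq]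

noncomputable def pp0 (n : ℤ) : Lam := if h : n = 0 then 0 else X ⟨n, h⟩

lemma pp0_mem_F (n : ℤ) : pp0 n ∈ F |n| := by
  unfold pp0
  split_ifs with h
  · exact zero_mem _
  · exact X_mem_F ⟨n, h⟩

noncomputable def ps (N : ℕ) (n : ℤ) : A N := ∑ j, xp j n

noncomputable def phiA (N : ℕ) : Lam →ₐ[ℂ] A N := aeval (fun a : Idx => ps N a.1)

lemma phiA_X (a : Idx) : phiA N (X a) = ps N a.1 := by simp [phiA]

lemma ps_eq (n : ℤ) : ps N n = phiA N (pp0 n) + (if n = 0 then (N : ℂ) else 0) • 1 := by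
  unfold pp0
  split_ifs with h
  · subst h
    simp only [ps, xp_zero, map_zero, zero_add, sum_const, card_univ, Fintype.card_fin]
    rw [Nat.cast_smul_eq_nsmul]
  · simp [phiA_X]

noncomputable def W0 (a : Idx) : Lam :=
  ∑ c ∈ range a.1.natAbs, pp0 (a.1.sign * c) * pp0 (a.1 - a.1.sign * c) - ((|a.1| : ℤ) : ℂ) • X a

noncomputable def Dv (a : Idx) : Lam →ₗ[ℂ] Lam := (pderiv a : Derivation ℂ Lam Lam).toLinearMap

noncomputable def L0 (k : ℂ) (S : Finset Idx) : Lam →ₗ[ℂ] Lam :=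
  ∑ a ∈ S, ∑ b ∈ S, ((a.1 * b.1 : ℤ) : ℂ) • (LinearMap.mulLeft ℂ (pp0 (a.1 + b.1)) ∘ₗ Dv b ∘ₗ Dv a)
    + ∑ a ∈ S, ((a.1 ^ 2 : ℤ) : ℂ) • (LinearMap.mulLeft ℂ (X a) ∘ₗ Dv a)
    - k • ∑ a ∈ S, ((|a.1| : ℤ) : ℂ) • (LinearMap.mulLeft ℂ (W0 a) ∘ₗ Dv a)

noncomputable def L1 (k : ℂ) (S : Finset Idx) : Lam →ₗ[ℂ] Lam :=
  ∑ a ∈ S, ∑ b ∈ S, (if a.1 + b.1 = 0 then ((a.1 * b.1 : ℤ) : ℂ) else 0) • (Dv b ∘ₗ Dv a)
    - k • ∑ a ∈ S, ((|a.1| : ℤ) : ℂ) • (LinearMap.mulLeft ℂ (X a) ∘ₗ Dv a)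

lemma L0_apply (k : ℂ) (S : Finset Idx) (f : Lam) : L0 k S f =
    ∑ a ∈ S, ∑ b ∈ S, ((a.1 * b.1 : ℤ) : ℂ) • (pp0 (a.1 + b.1) * pderiv b (pderiv a f))
    + ∑ a ∈ S, ((a.1 ^ 2 : ℤ) : ℂ) • (X a * pderiv a f)
    - k • ∑ a ∈ S, ((|a.1| : ℤ) : ℂ) • (W0 a * pderiv a f) := by
  simp only [L0, Dv, LinearMap.sub_apply, LinearMap.add_apply, LinearMap.sum_apply,
    LinearMap.smul_apply, LinearMap.comp_apply, LinearMap.mulLeft_apply, Derivation.coeFn_coe]

lemma L1_apply (k : ℂ) (S : Finset Idx) (f : Lam) : L1 k S f =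
    ∑ a ∈ S, ∑ b ∈ S, (if a.1 + b.1 = 0 then ((a.1 * b.1 : ℤ) : ℂ) else 0) •
      pderiv b (pderiv a f)
    - k • ∑ a ∈ S, ((|a.1| : ℤ) : ℂ) • (X a * pderiv a f) := by
  simp only [L1, Dv, LinearMap.sub_apply, LinearMap.sum_apply,
    LinearMap.smul_apply, LinearMap.comp_apply, LinearMap.mulLeft_apply, Derivation.coeFn_coe]

lemma W0_mem_F (a : Idx) : W0 a ∈ F |a.1| := by
  refine sub_mem (Submodule.sum_mem _ fun c hc => ?_) (Submodule.smul_mem _ _ (X_mem_F a))
  refine F_mono ?_ (F_mul (pp0_mem_F _) (pp0_mem_F _))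
  have hc' := Finset.mem_range.mp hc
  rcases lt_or_gt_of_ne a.2 with h | h
  · rw [Int.sign_eq_neg_one_of_neg h]
    have : (c : ℤ) < -a.1 := by omega
    rw [abs_of_nonpos (by omega), abs_of_nonpos (by omega), abs_of_neg h]; omega
  · rw [Int.sign_eq_one_of_pos h]
    have : (c : ℤ) < a.1 := by omega
    rw [abs_of_nonneg (by omega), abs_of_nonneg (by omega), abs_of_pos h]; omega

lemma L0_mem_F (k : ℂ) (S : Finset Idx) {d : ℤ} {f : Lam} (hf : f ∈ F d) : L0 k S f ∈ F d := by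
  rw [L0_apply]
  refine sub_mem (add_mem (Submodule.sum_mem _ fun a _ => Submodule.sum_mem _ fun b _ =>
    Submodule.smul_mem _ _ ?_) (Submodule.sum_mem _ fun a _ => Submodule.smul_mem _ _ ?_))
    (Submodule.smul_mem _ _ (Submodule.sum_mem _ fun a _ => Submodule.smul_mem _ _ ?_))
  · refine F_mono ?_ (F_mul (pp0_mem_F _) (pderiv_mem_F (pderiv_mem_F hf a) b))
    have := abs_add_le a.1 b.1
    omega
  · exact F_mono (by omega) (F_mul (X_mem_F a) (pderiv_mem_F hf a))
  · exact F_mono (by omega) (F_mul (W0_mem_F a) (pderiv_mem_F hf a))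

def Good (S : Finset Idx) (d : ℤ) : Prop := ∀ a : Idx, |a.1| ≤ d → a ∈ S

lemma Good.mono {S : Finset Idx} {d e : ℤ} (h : Good S d) (he : e ≤ d) : Good S e :=
  fun a ha => h a (ha.trans he)

lemma exists_good (d : ℤ) : ∃ S, Good S d := by
  classical
  refine ⟨(Finset.Icc (-d) d).subtype (fun i => i ≠ 0), fun a ha => ?_⟩
  rw [Finset.mem_subtype, Finset.mem_Icc]
  exact abs_le.mp ha

lemma L1_add_mem_F (k : ℂ) {S : Finset Idx} {d : ℤ} (hS : Good S d) {f : Lam} (hf : f ∈ F d) :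
    L1 k S f + (k * d) • f ∈ F (d - 1) := by
  rw [L1_apply, sub_add]
  refine sub_mem (Submodule.sum_mem _ fun a _ => Submodule.sum_mem _ fun b _ =>
    Submodule.smul_mem _ _ ?_) ?_
  · refine F_mono ?_ (pderiv_mem_F (pderiv_mem_F hf a) b)
    have := abs_pos.mpr a.2
    have := abs_nonneg b.1
    omega
  · intro m hm
    have hc : coeff m (k • ∑ a ∈ S, ((|a.1| : ℤ) : ℂ) • (X a * pderiv a f) - (k * d) • f) =
        k * (((∑ a ∈ S, (m a : ℤ) * |a.1| : ℤ) : ℂ) - d) * coeff m f := by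
      simp only [coeff_sub, coeff_smul, coeff_sum, coeff_X_mul_pderiv, smul_eq_mul]
      push_cast
      rw [mul_sub, sub_mul, mul_assoc k (∑ x ∈ S, _), Finset.sum_mul]
      congr 2
      apply Finset.sum_congr rfl; intro a _; ring
    rw [hc] at hm
    have h1 := hf m (right_ne_zero_of_mul hm)
    have h2 : ∑ a ∈ S, (m a : ℤ) * |a.1| = wt m := by
      rw [wt, Finsupp.weight_apply, Finsupp.sum_of_support_subset (s := S)]
      · simp
      · intro a ha
        exact hS a ((abs_le_wt (Finsupp.mem_support_iff.mp ha)).trans h1)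
      · simp
    have h3 : wt m ≠ d := by
      intro h
      rw [h2, h] at hm
      simp at hm
    omega

lemma L1_mem_F (k : ℂ) {S : Finset Idx} {d : ℤ} (hS : Good S d) {f : Lam} (hf : f ∈ F d) :
    L1 k S f ∈ F d := by
  have h := L1_add_mem_F k hS hf
  have := sub_mem (F_mono (by omega : d - 1 ≤ d) h) (Submodule.smul_mem _ (k * d) hf)
  simpa using this

lemma th_ps (i : Fin N) (n : ℤ) : th i (ps N n) = (n : ℂ) • xp i n := by
  simp [ps, th_xp]

lemma chain {S : Finset Idx} {d : ℤ} (hS : Good S d) {f : Lam} (hf : f ∈ F d) (i : Fin N) :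
    th i (phiA N f) = ∑ a ∈ S, (a.1 : ℂ) • (xp i a.1 * phiA N (pderiv a f)) := by
  classical
  have hsup : f ∈ supported ℂ (S : Set Idx) := by
    rw [mem_supported]
    intro a ha
    obtain ⟨m, hm, ham⟩ := (mem_vars_iff_mem_support a).mp ha
    exact hS a ((abs_le_wt (Finsupp.mem_support_iff.mp ham)).trans (hf m (mem_support_iff.mp hm)))
  clear hf
  induction hsup using Algebra.adjoin_induction with
  | mem x hx =>
    obtain ⟨b, hb, rfl⟩ := hx
    rw [phiA_X, th_ps, Finset.sum_eq_single b]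
    · simp
    · intro a _ hab
      rw [pderiv_X_of_ne hab.symm]; simp
    · intro h; exact absurd hb h
  | algebraMap r =>
    rw [AlgHom.commutes, th_algebraMap]
    simp
  | add x y _ _ hx hy => simp only [map_add, hx, hy, mul_add, smul_add, Finset.sum_add_distrib]
  | mul x y _ _ hx hy =>
    rw [map_mul, th_mul, hx, hy, Finset.sum_mul, Finset.mul_sum, ← Finset.sum_add_distrib]
    apply Finset.sum_congr rfl
    intro a _
    simp only [Derivation.leibniz, smul_eq_mul, map_add, map_mul, mul_add, smul_add,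
      smul_mul_assoc, mul_smul_comm]
    rw [add_comm]
    congr 2 <;> ring

lemma geom_aux {R : Type} [CommRing R] (y z : R) (n : ℕ) :
    (y - z) * ∑ c ∈ range n, (y ^ c * z ^ (n - c) + z ^ c * y ^ (n - c)) =
      (y + z) * (y ^ n - z ^ n) := by
  have h1 := (Commute.all y z).mul_geom_sum₂ n
  have h2 := (Commute.all z y).mul_geom_sum₂ n
  have e1 : ∑ c ∈ range n, y ^ c * z ^ (n - c) = z * ∑ c ∈ range n, y ^ c * z ^ (n - 1 - c) := by
    rw [Finset.mul_sum]
    apply Finset.sum_congr rfl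
    intro c hc
    have := Finset.mem_range.mp hc
    rw [show n - c = (n - 1 - c) + 1 by omega]; ring
  have e2 : ∑ c ∈ range n, z ^ c * y ^ (n - c) = y * ∑ c ∈ range n, z ^ c * y ^ (n - 1 - c) := by
    rw [Finset.mul_sum]
    apply Finset.sum_congr rfl
    intro c hc
    have := Finset.mem_range.mp hc
    rw [show n - c = (n - 1 - c) + 1 by omega]; ring
  rw [Finset.sum_add_distrib, e1, e2]
  linear_combination z * h1 - y * h2

noncomputable def vv (i j : Fin N) (a : ℤ) : A N :=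
  ∑ c ∈ range a.natAbs, xp i (a.sign * c) * xp j (a - a.sign * c)

lemma vv_eq (i j : Fin N) (a : ℤ) :
    vv i j a = ∑ c ∈ range a.natAbs, xp i a.sign ^ c * xp j a.sign ^ (a.natAbs - c) := by
  apply Finset.sum_congr rfl
  intro c hc
  have := Finset.mem_range.mp hc
  rw [← xp_mul_nat, ← xp_mul_nat]
  congr 2
  rw [Nat.cast_sub this.le, mul_sub, Int.sign_mul_natAbs]

lemma vv_spec (i j : Fin N) (a : ℤ) :
    (xp i 1 - xp j 1) * (((|a| : ℤ) : ℂ) • (vv i j a + vv j i a)) =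
      (xp i 1 + xp j 1) * ((a : ℂ) • xp i a - (a : ℂ) • xp j a) := by
  have h := geom_aux (xp i a.sign) (xp j a.sign) a.natAbs
  rw [Finset.sum_add_distrib, ← vv_eq, ← vv_eq, ← xp_mul_nat, ← xp_mul_nat,
    Int.sign_mul_natAbs] at h
  rw [← smul_sub, mul_smul_comm, mul_smul_comm]
  rcases lt_trichotomy a 0 with ha | ha | ha
  · rw [Int.sign_eq_neg_one_of_neg ha] at h
    rw [abs_of_neg ha]
    have hi : xp i 1 * xp i (-1) = 1 := by rw [← xp_add]; simp [xp_zero]
    have hj : xp j 1 * xp j (-1) = 1 := by rw [← xp_add]; simp [xp_zero]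
    push_cast
    rw [neg_smul, ← smul_neg]
    congr 1
    linear_combination (xp i 1 * xp j 1) * h -
      (xp j 1 * (vv i j a + vv j i a) - xp j 1 * (xp i a - xp j a)) * hi +
      (xp i 1 * (vv i j a + vv j i a) + xp i 1 * (xp i a - xp j a)) * hj
  · simp [ha]
  · rw [Int.sign_eq_one_of_pos ha] at h
    rw [abs_of_pos ha, h]

lemma sum_vv (a : Idx) :
    ∑ i : Fin N, ∑ j with i < j, (vv i j a.1 + vv j i a.1) = phiA N (W0 a + (N : ℂ) • X a) := by
  classical
  have h1 : ∑ i : Fin N, ∑ j with i < j, (vv i j a.1 + vv j i a.1) =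
      ∑ i : Fin N, ∑ j ∈ ({i} : Finset (Fin N))ᶜ, vv j i a.1 := by
    rw [← Finset.sum_sum_Ioi_add_eq_sum_sum_off_diag (fun i j => vv i j a.1)]
    apply Finset.sum_congr rfl
    intro i _
    rw [Finset.filter_lt_eq_Ioi]
    apply Finset.sum_congr rfl
    intro j _
    rw [add_comm]
  have h2 : ∀ i : Fin N, ∑ j ∈ ({i} : Finset (Fin N))ᶜ, vv j i a.1 =
      ∑ j, vv j i a.1 - vv i i a.1 := by
    intro i
    rw [← Finset.sum_compl_add_sum ({i} : Finset (Fin N))]
    simp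
  have h3 : ∀ i : Fin N, vv i i a.1 = ((|a.1| : ℤ) : ℂ) • xp i a.1 := by
    intro i
    unfold vv
    rw [Finset.sum_congr rfl (g := fun _ => xp i a.1)]
    · rw [Finset.sum_const, Finset.card_range, ← Nat.cast_smul_eq_nsmul ℂ, ← Int.natCast_natAbs]
      simp
    · intro c _
      rw [← xp_add]; congr 1; ring
  have h4 : ∑ i : Fin N, ∑ j, vv j i a.1 =
      ∑ c ∈ range a.1.natAbs, ps N (a.1.sign * c) * ps N (a.1 - a.1.sign * c) := by
    unfold vv ps
    simp only [Finset.sum_mul_sum]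
    rw [Finset.sum_comm]
    rw [Finset.sum_comm (s := range a.1.natAbs)]
    apply Finset.sum_congr rfl
    intro i _
    rw [Finset.sum_comm]
  have hpos : 0 < a.1.natAbs := Int.natAbs_pos.mpr a.2
  have h5 : ∀ c ∈ range a.1.natAbs, ps N (a.1.sign * c) * ps N (a.1 - a.1.sign * c) =
      phiA N (pp0 (a.1.sign * c) * pp0 (a.1 - a.1.sign * c)) +
        if c = 0 then (N : ℂ) • ps N a.1 else 0 := by
    intro c hc
    have hc' := Finset.mem_range.mp hc
    have hne : a.1 - a.1.sign * c ≠ 0 := by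
      rcases lt_or_gt_of_ne a.2 with h | h
      · rw [Int.sign_eq_neg_one_of_neg h]; omega
      · rw [Int.sign_eq_one_of_pos h]; omega
    by_cases h0 : c = 0
    · subst h0
      rw [ps_eq (N := N) (a.1.sign * (0 : ℕ))]
      simp [pp0]
    · have hne2 : a.1.sign * c ≠ 0 := by
        rcases lt_or_gt_of_ne a.2 with h | h
        · rw [Int.sign_eq_neg_one_of_neg h]; omega
        · rw [Int.sign_eq_one_of_pos h]; omega
      rw [ps_eq, ps_eq (a.1 - a.1.sign * c), if_neg hne, if_neg hne2, if_neg h0]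
      simp
  rw [h1]
  simp only [h2, h3]
  rw [Finset.sum_sub_distrib, h4, Finset.sum_congr rfl h5, Finset.sum_add_distrib,
    Finset.sum_ite_eq' (range a.1.natAbs) 0, if_pos (Finset.mem_range.mpr hpos), W0,
    ← Finset.smul_sum]
  simp only [map_add, map_sub, map_sum, map_smul, phiA_X]
  unfold ps
  abel

/-- The intertwining relation. -/
theorem rel_phiA (k : ℂ) {S : Finset Idx} {d : ℤ} (hS : Good S d) {f : Lam} (hf : f ∈ F d) :
    Rel k (phiA N f) (phiA N (L0 k S f + (N : ℂ) • L1 k S f)) := by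
  refine ⟨fun i j => ∑ a ∈ S, (((|a.1| : ℤ) : ℂ) • (vv i j a.1 + vv j i a.1)) *
    phiA N (pderiv a f), fun i j _ => ?_, ?_⟩
  · rw [chain hS hf, chain hS hf, Finset.mul_sum, ← Finset.sum_sub_distrib, Finset.mul_sum]
    apply Finset.sum_congr rfl
    intro a _
    rw [← mul_assoc, vv_spec, ← smul_mul_assoc, ← smul_mul_assoc, ← sub_mul, mul_assoc]
  · have hd : ∀ a : Idx, pderiv a f ∈ F d := fun a =>
      F_mono (by have := abs_nonneg a.1; omega) (pderiv_mem_F hf a)
    have e1 : ∑ i : Fin N, th i (th i (phiA N f)) =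
        ∑ a ∈ S, ∑ b ∈ S, ((a.1 * b.1 : ℤ) : ℂ) • (ps N (a.1 + b.1) *
          phiA N (pderiv b (pderiv a f))) +
        ∑ a ∈ S, ((a.1 ^ 2 : ℤ) : ℂ) • (ps N a.1 * phiA N (pderiv a f)) := by
      simp only [chain hS hf, map_sum, map_smul, th_mul, th_xp, if_true, chain hS (hd _)]
      rw [Finset.sum_comm, ← Finset.sum_add_distrib]
      apply Finset.sum_congr rfl
      intro a _
      simp only [smul_add, Finset.sum_add_distrib, ps, Finset.sum_mul, Finset.smul_sum,
        Finset.mul_sum]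
      rw [add_comm, Finset.sum_comm]
      congr 1
      · apply Finset.sum_congr rfl; intro b _
        apply Finset.sum_congr rfl; intro i _
        rw [xp_add, mul_smul_comm, smul_smul, mul_assoc]; push_cast; rfl
      · apply Finset.sum_congr rfl; intro i _
        rw [smul_mul_assoc, smul_smul]; push_cast; rw [sq]
    have e2 : ∑ i : Fin N, ∑ j with i < j, ∑ a ∈ S,
        (((|a.1| : ℤ) : ℂ) • (vv i j a.1 + vv j i a.1)) * phiA N (pderiv a f) =
        ∑ a ∈ S, ((|a.1| : ℤ) : ℂ) • (phiA N (W0 a + (N : ℂ) • X a) * phiA N (pderiv a f)) := by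
      simp only [← sum_vv, Finset.sum_mul, Finset.smul_sum, smul_mul_assoc]
      rw [Finset.sum_comm (s := S)]
      apply Finset.sum_congr rfl; intro i _
      rw [Finset.sum_comm]
    rw [e1, e2, L0_apply, L1_apply]
    simp only [map_add, map_sub, map_sum, map_smul, map_mul, phiA_X, add_mul, smul_add,
      Finset.sum_add_distrib, smul_sub, smul_mul_assoc]
    have e3 : ∑ a ∈ S, ∑ b ∈ S, ((a.1 * b.1 : ℤ) : ℂ) • (ps N (a.1 + b.1) *
          phiA N (pderiv b (pderiv a f))) =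
        ∑ a ∈ S, ∑ b ∈ S, ((a.1 * b.1 : ℤ) : ℂ) • (phiA N (pp0 (a.1 + b.1)) *
          phiA N (pderiv b (pderiv a f))) +
        (N : ℂ) • ∑ a ∈ S, ∑ b ∈ S, (if a.1 + b.1 = 0 then ((a.1 * b.1 : ℤ) : ℂ) else 0) •
          phiA N (pderiv b (pderiv a f)) := by
      rw [Finset.smul_sum, ← Finset.sum_add_distrib]
      apply Finset.sum_congr rfl; intro a _
      rw [Finset.smul_sum, ← Finset.sum_add_distrib]
      apply Finset.sum_congr rfl; intro b _
      rw [ps_eq (a.1 + b.1), add_mul, smul_add, smul_mul_assoc, one_mul, smul_smul, smul_smul]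
      congr 2
      split_ifs <;> ring
    have e4 : ∑ a ∈ S, ((|a.1| : ℤ) : ℂ) • (N : ℂ) • (ps N a.1 * phiA N (pderiv a f)) =
        (N : ℂ) • ∑ a ∈ S, ((|a.1| : ℤ) : ℂ) • (ps N a.1 * phiA N (pderiv a f)) := by
      rw [Finset.smul_sum]
      apply Finset.sum_congr rfl; intro a _
      rw [smul_comm]
    rw [e3, e4, smul_comm k (N : ℂ)]
    abel

end Pool.Agent.P.MP_80096b_al
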