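import Pool.Agent.P.MP_80096b_al.Comb

namespace Pool.Agent.P.MP_80096b_al

open Finset

variable {N : ℕ}

def Dom (γ χ : Fin N → ℤ) : Prop :=
  ∑ i, γ i = ∑ i, χ i ∧ ∀ m : ℕ, ∑ i : Fin N with i.val < m, γ i ≤ ∑ i : Fin N with i.val < m, χ i

section Abel

variable {G : Type} [AddCommGroup G] [LinearOrder G] [IsOrderedAddMonoid G]

lemma abel_aux (δ : Fin N → ℤ) (w : Fin N → G) (hw : Antitone w)
    (hδ : ∀ m : ℕ, 0 ≤ ∑ i : Fin N with i.val < m, δ i) (m : ℕ) :
    ∀ c : G, (∀ i : Fin N, i.val < m → c ≤ w i) →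
      (∑ i : Fin N with i.val < m, δ i) • c ≤ ∑ i : Fin N with i.val < m, δ i • w i := by
  induction m with
  | zero => intro c _; simp
  | succ m ih =>
    intro c hc
    by_cases hm : m < N
    · have hs : (Finset.univ.filter (fun i : Fin N => i.val < m + 1)) =
          insert ⟨m, hm⟩ (Finset.univ.filter (fun i : Fin N => i.val < m)) := by
        ext i
        simp only [Finset.mem_filter, Finset.mem_univ, true_and, Finset.mem_insert, Fin.ext_iff]
        omega
      have h1 := ih (w ⟨m, hm⟩) (fun i hi => hw (show i ≤ ⟨m, hm⟩ from hi.le))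
      have h2 := hδ (m + 1)
      have h3 := zsmul_le_zsmul_right h2 (hc ⟨m, hm⟩ (Nat.lt_succ_self m))
      refine h3.trans ?_
      rw [hs, Finset.sum_insert (by simp), Finset.sum_insert (by simp), add_zsmul]
      exact add_le_add le_rfl h1
    · have hs : (Finset.univ.filter (fun i : Fin N => i.val < m + 1)) =
          (Finset.univ.filter (fun i : Fin N => i.val < m)) := by
        ext i
        simp only [Finset.mem_filter, Finset.mem_univ, true_and]
        omega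
      rw [hs]
      exact ih c (fun i hi => hc i (by omega))

lemma Dom.abel {γ χ : Fin N → ℤ} (h : Dom γ χ) (w : Fin N → G) (hw : Antitone w) :
    ∑ i, γ i • w i ≤ ∑ i, χ i • w i := by
  obtain ⟨c, hc⟩ := Finite.exists_ge w
  have h1 := abel_aux (fun i => χ i - γ i) w hw (fun m => by
    rw [Finset.sum_sub_distrib]; exact sub_nonneg.mpr (h.2 m)) N c (fun i _ => hc i)
  have hs : (Finset.univ.filter (fun i : Fin N => i.val < N)) = Finset.univ := by
    ext i; simp
  rw [hs, Finset.sum_sub_distrib, h.1, sub_self, zero_zsmul] at h1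
  simp only [sub_zsmul, Finset.sum_add_distrib, Finset.sum_neg_distrib] at h1
  rw [← sub_eq_add_neg] at h1
  exact sub_nonneg.mp h1

lemma Dom.kap_le {γ χ : Fin N → ℤ} (h : Dom γ χ) {κ : (Fin N → ℤ) →+ G} (hκ : Adm κ) :
    κ γ ≤ κ χ := by
  have e : ∀ β : Fin N → ℤ, κ β = ∑ i, β i • κ (Pi.single i 1) := by
    intro β
    conv_lhs => rw [← Finset.univ_sum_single β]
    rw [map_sum]
    apply Finset.sum_congr rfl
    intro i _
    rw [← map_zsmul, ← Pi.single_smul, smul_eq_mul, mul_one]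
  rw [e γ, e χ]
  apply h.abel
  intro i j hij
  rcases hij.lt_or_eq with h | h
  · exact (hκ.2 i j h).le
  · rw [h]

end Abel

lemma Dom.sq_lt {γ χ : Fin N → ℤ} (h : Dom γ χ) (hγ : Antitone γ) (hne : γ ≠ χ) :
    ∑ i, γ i ^ 2 < ∑ i, χ i ^ 2 := by
  have h1 := h.abel γ hγ
  simp only [smul_eq_mul] at h1
  have h2 : 0 < ∑ i, (χ i - γ i) ^ 2 := by
    obtain ⟨i, hi⟩ := Function.ne_iff.mp hne
    exact Finset.sum_pos' (fun _ _ => sq_nonneg _)
      ⟨i, Finset.mem_univ _, pow_pos (abs_pos.mpr (sub_ne_zero.mpr hi.symm)) 2 |>.trans_eq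
        (sq_abs _)⟩
  have h3 : ∑ i, (χ i - γ i) ^ 2 = ∑ i, χ i ^ 2 - 2 * ∑ i, χ i * γ i + ∑ i, γ i ^ 2 := by
    rw [Finset.mul_sum, ← Finset.sum_sub_distrib, ← Finset.sum_add_distrib]
    apply Finset.sum_congr rfl; intro i _; ring
  have h4 : ∑ i, γ i * γ i = ∑ i, γ i ^ 2 := by simp only [sq]
  omega

lemma Dom.nrm_le {γ χ : Fin N → ℤ} (h : Dom γ χ) (hγ : Antitone γ) : nrm γ ≤ nrm χ := by
  have hmono : ∀ a b : ℤ, a ≤ b → a.sign ≤ b.sign := by
    intro a b hab
    rcases lt_trichotomy a 0 with h | h | h <;> rcases lt_trichotomy b 0 with h' | h' | h' <;>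
      first
      | omega
      | simp [Int.sign_eq_neg_one_of_neg, Int.sign_eq_one_of_pos, h, h']
  have h1 := h.abel (fun i => (γ i).sign) (fun i j hij => hmono _ _ (hγ hij))
  simp only [smul_eq_mul] at h1
  have h2 : ∑ i, γ i * (γ i).sign = nrm γ := by
    apply Finset.sum_congr rfl; intro i _
    rw [Int.mul_sign_self, Int.natCast_natAbs]
  have h3 : ∑ i, χ i * (γ i).sign ≤ nrm χ := by
    apply Finset.sum_le_sum; intro i _
    rcases lt_trichotomy (γ i) 0 with h | h | h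
    · rw [Int.sign_eq_neg_one_of_neg h]; have := neg_abs_le (χ i); omega
    · rw [h]; simp
    · rw [Int.sign_eq_one_of_pos h]; have := le_abs_self (χ i); omega
  omega

def Tri (χ : Fin N → ℤ) (g : A N) : Prop := ∀ γ, g.coeff γ ≠ 0 → Dom γ χ

def ind (m : ℕ) : Fin N → ℤ := fun i => if i.val < m then 1 else 0

lemma ind_anti (m : ℕ) : Antitone (ind m : Fin N → ℤ) := by
  intro i j hij
  have : i.val ≤ j.val := hij
  unfold ind
  split_ifs <;> omega

lemma sum_ind (m : ℕ) (γ : Fin N → ℤ) :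
    ∑ i, ind m i * γ i = ∑ i : Fin N with i.val < m, γ i := by
  rw [Finset.sum_filter]
  apply Finset.sum_congr rfl; intro i _
  unfold ind
  split_ifs <;> simp

lemma Rel.tri {k : ℂ} {g h : A N} (hr : Rel k g h) {χ : Fin N → ℤ} (hg : Tri χ g) : Tri χ h := by
  intro γ hγ
  constructor
  · have h1 := hr.weight (fun _ => 1) antitone_const (∑ i, χ i)
      (fun η hη => by simpa using (hg η hη).1.le) γ hγ
    have h2 := hr.weight (fun _ => -1) antitone_const (-∑ i, χ i)
      (fun η hη => by simpa using (hg η hη).1.ge) γ hγ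
    simp only [one_mul, neg_mul, Finset.sum_neg_distrib] at h1 h2
    omega
  · intro m
    rw [← sum_ind]
    exact hr.weight (ind m) (ind_anti m) _ (fun η hη => by rw [sum_ind]; exact (hg η hη).2 m) γ hγ

lemma tri_of_anti {g : A N} (hs : Sym g) {χ : Fin N → ℤ}
    (h : ∀ γ, Antitone γ → g.coeff γ ≠ 0 → Dom γ χ) : Tri χ g := by
  intro γ hγ
  have hg : g ≠ 0 := by rintro rfl; simp at hγ
  have key : ∀ w : Fin N → ℤ, Antitone w → ∃ β, Dom β χ ∧ ∑ i, w i * γ i ≤ ∑ i, w i * β i := by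
    intro w hw
    obtain ⟨β, hβ, hb⟩ := exists_lead (kap w) g hg
    exact ⟨β, h β (lead_antitone (kap_adm w hw) hs hβ hb) hβ, kap_le (hb γ hγ)⟩
  constructor
  · obtain ⟨β, h1, h2⟩ := key (fun _ => 1) antitone_const
    obtain ⟨β', h3, h4⟩ := key (fun _ => -1) antitone_const
    simp only [one_mul, neg_mul, Finset.sum_neg_distrib] at h2 h4
    have := h1.1
    have := h3.1
    omega
  · intro m
    obtain ⟨β, h1, h2⟩ := key (ind m) (ind_anti m)
    rw [sum_ind, sum_ind] at h2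
    exact h2.trans (h1.2 m)

lemma exists_sort (γ : Fin N → ℤ) : ∃ σ : Equiv.Perm (Fin N), Antitone (γ ∘ σ) := by
  refine ⟨Tuple.sort (fun i => -γ i), fun i j hij => ?_⟩
  have := Tuple.monotone_sort (fun i => -γ i) hij
  simpa using this

lemma coeff_zero_or_one {g : A N} (hs : Sym g) {χ : Fin N → ℤ} (ht : Tri χ g)
    (h1 : g.coeff χ = 1) {γ : Fin N → ℤ} (hq : ∑ i, γ i ^ 2 = ∑ i, χ i ^ 2) :
    g.coeff γ = 0 ∨ g.coeff γ = 1 := by
  obtain ⟨σ, hσ⟩ := exists_sort γ
  rw [← hs σ γ]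
  by_cases h0 : g.coeff (γ ∘ σ) = 0
  · exact Or.inl h0
  right
  by_cases he : γ ∘ σ = χ
  · rw [he, h1]
  · have := (ht _ h0).sq_lt hσ he
    have h2 : ∑ i, (γ ∘ σ) i ^ 2 = ∑ i, γ i ^ 2 := Equiv.sum_comp σ (fun i => γ i ^ 2)
    omega

lemma lt_nrm_of_pos {γ : Fin N → ℤ} (hγ : Antitone γ) {i : Fin N} (h : 0 < γ i) :
    (i.val : ℤ) < nrm γ := by
  have h1 : ∑ j ∈ Finset.Iic i, (1 : ℤ) ≤ ∑ j ∈ Finset.Iic i, |γ j| := by
    apply Finset.sum_le_sum
    intro j hj
    have := hγ (Finset.mem_Iic.mp hj)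
    have := le_abs_self (γ j)
    omega
  have h2 : ∑ j ∈ Finset.Iic i, |γ j| ≤ nrm γ :=
    Finset.sum_le_sum_of_subset_of_nonneg (Finset.subset_univ _) fun _ _ _ => abs_nonneg _
  simp only [Finset.sum_const, Fin.card_Iic, nsmul_eq_mul, mul_one] at h1
  push_cast at h1
  omega

lemma lt_nrm_of_neg {γ : Fin N → ℤ} (hγ : Antitone γ) {i : Fin N} (h : γ i < 0) :
    (N : ℤ) - 1 - i.val < nrm γ := by
  have h1 : ∑ j ∈ Finset.Ici i, (1 : ℤ) ≤ ∑ j ∈ Finset.Ici i, |γ j| := by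
    apply Finset.sum_le_sum
    intro j hj
    have := hγ (Finset.mem_Ici.mp hj)
    have := neg_abs_le (γ j)
    omega
  have h2 : ∑ j ∈ Finset.Ici i, |γ j| ≤ nrm γ :=
    Finset.sum_le_sum_of_subset_of_nonneg (Finset.subset_univ _) fun _ _ _ => abs_nonneg _
  simp only [Finset.sum_const, Fin.card_Ici, nsmul_eq_mul, mul_one] at h1
  have := i.2
  omega

def rr (γ : Fin N → ℤ) : ℤ := ∑ i, (((N : ℤ) - 1 - 2 * i.val) * γ i - N * |γ i|)

lemma rho_eq (β : Fin N → ℤ) :
    ∑ i, ∑ j with i < j, (β i - β j) = N * nrm β + rr β := by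
  have h1 : ∑ i, ∑ j with i < j, β i = ∑ i : Fin N, ((N : ℤ) - 1 - i.val) * β i := by
    apply Finset.sum_congr rfl; intro i _
    rw [Finset.sum_const, Finset.filter_lt_eq_Ioi, Fin.card_Ioi, nsmul_eq_mul]
    congr 1
    have := i.2
    omega
  have h2 : ∑ i, ∑ j with i < j, β j = ∑ j : Fin N, (j.val : ℤ) * β j := by
    simp only [Finset.sum_filter]
    rw [Finset.sum_comm]
    apply Finset.sum_congr rfl; intro j _
    rw [← Finset.sum_filter, Finset.sum_const, Finset.filter_gt_eq_Iio, Fin.card_Iio, nsmul_eq_mul]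
  simp only [Finset.sum_sub_distrib, h1, h2, rr, nrm, Finset.mul_sum]
  rw [← Finset.sum_sub_distrib, add_sub_cancel]
  apply Finset.sum_congr rfl; intro i _; ring

lemma eig_eq (k : ℂ) (β : Fin N → ℤ) :
    eig k β = ((∑ i, β i ^ 2 : ℤ) : ℂ) - k * ((N : ℂ) * (nrm β : ℤ) + (rr β : ℤ)) := by
  rw [eig, rho_eq]; push_cast; rfl

lemma abs_rr_le {γ : Fin N → ℤ} (hγ : Antitone γ) {d : ℤ} (hd : nrm γ ≤ d) :
    |rr γ| ≤ (2 * d + 1) * d := by
  have h0 : 0 ≤ nrm γ := Finset.sum_nonneg fun _ _ => abs_nonneg _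
  refine (Finset.abs_sum_le_sum_abs _ _).trans ?_
  refine le_trans ?_ (mul_le_mul_of_nonneg_left hd (by omega))
  rw [nrm, Finset.mul_sum]
  apply Finset.sum_le_sum
  intro i _
  rcases lt_trichotomy (γ i) 0 with h | h | h
  · have := lt_nrm_of_neg hγ h
    have hi := i.2
    rw [abs_of_neg h, show ((N : ℤ) - 1 - 2 * i.val) * γ i - N * -γ i =
      -((2 * ((N : ℤ) - 1 - i.val) + 1) * -γ i) by ring, abs_neg,
      abs_of_nonneg (mul_nonneg (by omega) (by omega))]
    exact mul_le_mul_of_nonneg_right (by omega) (by omega)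
  · simp [h]
  · have := lt_nrm_of_pos hγ h
    rw [abs_of_pos h, show ((N : ℤ) - 1 - 2 * i.val) * γ i - N * γ i =
      -((2 * (i.val : ℤ) + 1) * γ i) by ring, abs_neg,
      abs_of_nonneg (mul_nonneg (by omega) (by omega))]
    exact mul_le_mul_of_nonneg_right (by omega) (by omega)

section Chi

variable (lam mu : YoungDiagram)

lemma rowLen_pos_iff (lam : YoungDiagram) (i : ℕ) : 0 < lam.rowLen i ↔ i < lam.colLen 0 := by
  rw [← YoungDiagram.mem_iff_lt_rowLen, YoungDiagram.mem_iff_lt_colLen]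

lemma chi_anti (N : ℕ) : Antitone (chi lam mu N) := by
  intro i j hij
  have h1 := lam.rowLen_anti i.val j.val hij
  have h2 := mu.rowLen_anti j.rev.val i.rev.val (Fin.rev_le_rev.mpr hij)
  unfold chi
  omega

def ys (lam : YoungDiagram) (g : ℕ → ℤ → ℤ) : ℤ :=
  ∑ i ∈ range (lam.colLen 0), g i (lam.rowLen i)

lemma sum_row (lam : YoungDiagram) (g : ℕ → ℤ → ℤ) (hg : ∀ i, g i 0 = 0)
    (h : lam.colLen 0 ≤ N) : ∑ i : Fin N, g i.val (lam.rowLen i.val) = ys lam g := by
  rw [Fin.sum_univ_eq_sum_range (fun i => g i (lam.rowLen i)), ys]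
  symm
  apply Finset.sum_subset (Finset.range_mono h)
  intro i _ hi
  have : lam.rowLen i = 0 := by
    by_contra h0
    exact hi (Finset.mem_range.mpr ((rowLen_pos_iff lam i).mp (Nat.pos_of_ne_zero h0)))
  simp [this, hg]

lemma sum_row_rev (lam : YoungDiagram) (g : ℕ → ℤ → ℤ) (hg : ∀ i, g i 0 = 0)
    (h : lam.colLen 0 ≤ N) :
    ∑ i : Fin N, g i.rev.val (lam.rowLen i.rev.val) = ys lam g := by
  rw [← sum_row lam g hg h]
  exact Equiv.sum_comp Fin.revPerm (fun i : Fin N => g i.val (lam.rowLen i.val))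

def qa : ℤ := ys lam (fun _ z => z ^ 2) + ys mu (fun _ z => z ^ 2)
def da : ℤ := ys lam (fun _ z => z) + ys mu (fun _ z => z)
def ra : ℤ := ys lam (fun i z => -((2 * i + 1) * z)) + ys mu (fun i z => -((2 * i + 1) * z))

lemma da_nonneg : 0 ≤ da lam mu :=
  add_nonneg (Finset.sum_nonneg fun _ _ => Int.natCast_nonneg _)
    (Finset.sum_nonneg fun _ _ => Int.natCast_nonneg _)

lemma chi_disj (h : lam.colLen 0 + mu.colLen 0 ≤ N) (i : Fin N) :
    lam.rowLen i.val = 0 ∨ mu.rowLen i.rev.val = 0 := by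
  by_contra hc
  push Not at hc
  have h1 := (rowLen_pos_iff lam _).mp (Nat.pos_of_ne_zero hc.1)
  have h2 := (rowLen_pos_iff mu _).mp (Nat.pos_of_ne_zero hc.2)
  rw [Fin.val_rev] at h2
  omega

lemma chi_big (h : lam.colLen 0 + mu.colLen 0 ≤ N) :
    ∑ i, chi lam mu N i ^ 2 = qa lam mu ∧ nrm (chi lam mu N) = da lam mu ∧
      rr (chi lam mu N) = ra lam mu := by
  have hl : lam.colLen 0 ≤ N := by omega
  have hm : mu.colLen 0 ≤ N := by omega
  refine ⟨?_, ?_, ?_⟩
  · rw [qa, ← sum_row lam _ (by simp) hl, ← sum_row_rev mu _ (by simp) hm,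
      ← Finset.sum_add_distrib]
    apply Finset.sum_congr rfl; intro i _
    rcases chi_disj lam mu h i with h | h <;> simp only [chi, h] <;> simp
  · rw [da, ← sum_row lam _ (by simp) hl, ← sum_row_rev mu _ (by simp) hm,
      ← Finset.sum_add_distrib]
    apply Finset.sum_congr rfl; intro i _
    rcases chi_disj lam mu h i with h | h <;> simp only [chi, h] <;> simp
  · rw [ra, ← sum_row lam _ (by simp) hl, ← sum_row_rev mu _ (by simp) hm,
      ← Finset.sum_add_distrib]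
    apply Finset.sum_congr rfl; intro i _
    have hr : ((i.rev.val : ℕ) : ℤ) = N - 1 - i.val := by
      rw [Fin.val_rev]; have := i.2; omega
    rcases chi_disj lam mu h i with h | h
    · simp only [chi, h, hr]
      rw [Nat.cast_zero, zero_sub, abs_neg, Nat.abs_cast]; ring
    · simp only [chi, h, hr]
      rw [Nat.cast_zero, sub_zero, Nat.abs_cast]; ring

lemma chi_nrm_le (hl : lam.colLen 0 ≤ N) (hm : mu.colLen 0 ≤ N) :
    nrm (chi lam mu N) ≤ da lam mu := by
  rw [da, ← sum_row lam _ (by simp) hl, ← sum_row_rev mu _ (by simp) hm,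
    ← Finset.sum_add_distrib]
  apply Finset.sum_le_sum; intro i _
  unfold chi
  rw [abs_le]; constructor <;> omega

lemma chi_sq_le (hl : lam.colLen 0 ≤ N) (hm : mu.colLen 0 ≤ N) :
    ∑ i, chi lam mu N i ^ 2 ≤ qa lam mu := by
  rw [qa, ← sum_row lam _ (by simp) hl, ← sum_row_rev mu _ (by simp) hm,
    ← Finset.sum_add_distrib]
  apply Finset.sum_le_sum; intro i _
  unfold chi
  nlinarith [mul_nonneg (Int.natCast_nonneg (lam.rowLen i.val))
    (Int.natCast_nonneg (mu.rowLen i.rev.val))]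

lemma chi_small (hl : lam.colLen 0 ≤ N) (hm : mu.colLen 0 ≤ N)
    (h : N < lam.colLen 0 + mu.colLen 0) : ∑ i, chi lam mu N i ^ 2 < qa lam mu := by
  rw [qa, ← sum_row lam _ (by simp) hl, ← sum_row_rev mu _ (by simp) hm,
    ← Finset.sum_add_distrib]
  apply Finset.sum_lt_sum
  · intro i _
    unfold chi
    nlinarith [mul_nonneg (Int.natCast_nonneg (lam.rowLen i.val))
      (Int.natCast_nonneg (mu.rowLen i.rev.val))]
  · refine ⟨⟨lam.colLen 0 - 1, by omega⟩, Finset.mem_univ _, ?_⟩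
    unfold chi
    have h1 := (rowLen_pos_iff lam (lam.colLen 0 - 1)).mpr (by omega)
    have h2 := (rowLen_pos_iff mu (Fin.rev (⟨lam.colLen 0 - 1, by omega⟩ : Fin N)).val).mpr
      (by rw [Fin.val_rev]; simp only; omega)
    have h1' : (0 : ℤ) < lam.rowLen (lam.colLen 0 - 1) := by exact_mod_cast h1
    have h2' : (0 : ℤ) < mu.rowLen (Fin.rev (⟨lam.colLen 0 - 1, by omega⟩ : Fin N)).val := by
      exact_mod_cast h2
    nlinarith [mul_pos h1' h2']

lemma eig_chi (k : ℂ) (h : lam.colLen 0 + mu.colLen 0 ≤ N) :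
    eig k (chi lam mu N) = (qa lam mu : ℂ) - k * ((N : ℂ) * (da lam mu : ℤ) + (ra lam mu : ℤ)) := by
  obtain ⟨h1, h2, h3⟩ := chi_big lam mu h
  rw [eig_eq, h1, h2, h3]

end Chi

lemma irr_eq {k : ℂ} (hk : ∀ q : ℚ, k ≠ q) {a b c d : ℤ} (h : (a : ℂ) - k * b = c - k * d) :
    a = c := by
  by_cases hbd : b = d
  · subst hbd
    have : (a : ℂ) = c := by linear_combination h
    exact_mod_cast this
  · exfalso
    apply hk ((a - c : ℤ) / (b - d : ℤ))
    have hne : ((b : ℂ) - d) ≠ 0 := by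
      rw [sub_ne_zero]; exact_mod_cast hbd
    push_cast
    field_simp
    linear_combination -h

end Pool.Agent.P.MP_80096b_al
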