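import Pool.Agent.P.MP_80096b_al.Bridge

namespace Pool.Agent.P.MP_80096b_al

open Finset MvPolynomial

variable {N : ℕ}

noncomputable def el (N : ℕ) (s : ℤ) (r : ℕ) : A N :=
  aeval (fun i : Fin N => xp i s) (esymm (Fin N) ℂ r)

lemma exists_E (s : ℤ) (hs : |s| = 1) (r : ℕ) : ∃ E ∈ F r, ∀ N, phiA N E = el N s r := by
  induction r using Nat.strong_induction_on with
  | _ r ih =>
    rcases Nat.eq_zero_or_pos r with rfl | hr
    · exact ⟨1, one_mem_F, fun N => by simp [el]⟩
    choose! E hE1 hE2 using ih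
    refine ⟨((r : ℂ)⁻¹ * (-1) ^ (r + 1)) • ∑ a ∈ antidiagonal r with a.1 < r,
      ((-1 : ℂ) ^ a.1) • (E a.1 * pp0 (s * a.2)), ?_, fun N => ?_⟩
    · refine Submodule.smul_mem _ _ (Submodule.sum_mem _ fun a ha => Submodule.smul_mem _ _ ?_)
      obtain ⟨h1, h2⟩ := Finset.mem_filter.mp ha
      have h3 := Finset.HasAntidiagonal.mem_antidiagonal.mp h1
      refine F_mono ?_ (F_mul (hE1 _ h2) (pp0_mem_F _))
      rw [abs_mul, hs, one_mul, Nat.abs_cast]
      omega
    · have h := congrArg (aeval (fun i : Fin N => xp i s)) (mul_esymm_eq_sum (Fin N) ℂ r)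
      simp only [map_mul, map_natCast, map_pow, map_neg, map_one, map_sum] at h
      have hr' : (r : ℂ) ≠ 0 := Nat.cast_ne_zero.mpr hr.ne'
      have h2 : el N s r = (r : ℂ)⁻¹ • ((r : A N) * el N s r) := by
        rw [← nsmul_eq_mul, ← Nat.cast_smul_eq_nsmul ℂ, smul_smul, inv_mul_cancel₀ hr', one_smul]
      rw [h2, el, h, map_smul, mul_smul, map_sum]
      congr 1
      have hneg : ∀ (n : ℕ) (g : A N), ((-1 : ℂ) ^ n) • g = (-1 : A N) ^ n * g := by
        intro n g
        rw [Algebra.smul_def, map_pow, map_neg, map_one]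
      rw [hneg]
      congr 1
      apply Finset.sum_congr rfl
      intro a ha
      obtain ⟨h1, h2⟩ := Finset.mem_filter.mp ha
      have h3 := Finset.HasAntidiagonal.mem_antidiagonal.mp h1
      have hne : s * a.2 ≠ 0 := by
        apply mul_ne_zero
        · rintro rfl; simp at hs
        · omega
      have h4 := ps_eq (N := N) (s * a.2)
      rw [if_neg hne, zero_smul, add_zero] at h4
      rw [map_smul, map_mul, hE2 _ h2, hneg, mul_assoc, ← h4, el]
      congr 2
      simp [ps, psum, xp_mul_nat]

def Lead (χ : Fin N → ℤ) (g : A N) : Prop := g.coeff χ = 1 ∧ Tri χ g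

lemma Dom.add {γ χ γ' χ' : Fin N → ℤ} (h : Dom γ χ) (h' : Dom γ' χ') :
    Dom (γ + γ') (χ + χ') := by
  constructor
  · simp only [Pi.add_apply, Finset.sum_add_distrib, h.1, h'.1]
  · intro m
    simp only [Pi.add_apply, Finset.sum_add_distrib]
    exact add_le_add (h.2 m) (h'.2 m)

lemma Lead.mul {χ η : Fin N → ℤ} {g h : A N} (hg : Lead χ g) (hh : Lead η h) :
    Lead (χ + η) (g * h) := by
  have hκ := kap_adm (0 : Fin N → ℤ) antitone_const
  constructor
  · rw [AddMonoidAlgebra.coeff_mul_apply_left, Finsupp.sum, Finset.sum_eq_single χ]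
    · simp [hg.1, hh.1]
    · intro γ hγ hne
      by_contra h0
      have h1 := (hg.2 γ (Finsupp.mem_support_iff.mp hγ)).kap_le hκ
      have h2 := (hh.2 _ (right_ne_zero_of_mul h0)).kap_le hκ
      rw [map_add, map_add, map_neg] at h2
      apply hne
      apply hκ.1
      apply le_antisymm h1
      have h3 := neg_add_le_iff_le_add.mp h2
      exact le_of_add_le_add_right h3
    · intro h0
      rw [Finsupp.notMem_support_iff, hg.1] at h0
      exact absurd h0 one_ne_zero
  · intro γ hγ
    rw [AddMonoidAlgebra.coeff_mul_apply_left] at hγ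
    obtain ⟨β, hβ, hne⟩ := Finset.exists_ne_zero_of_sum_ne_zero hγ
    have := (hg.2 β (Finsupp.mem_support_iff.mp hβ)).add (hh.2 _ (right_ne_zero_of_mul hne))
    rwa [add_neg_cancel_left] at this

lemma Lead.one : Lead (0 : Fin N → ℤ) 1 := by
  constructor
  · rw [coeff_one_A]; simp
  · intro γ hγ
    rw [coeff_one_A] at hγ
    have : γ = 0 := by by_contra h; simp [h] at hγ
    subst this
    exact ⟨rfl, fun _ => le_rfl⟩

lemma Lead.prod {ι : Type} (s : Finset ι) (χ : ι → Fin N → ℤ) (g : ι → A N)
    (h : ∀ i ∈ s, Lead (χ i) (g i)) : Lead (∑ i ∈ s, χ i) (∏ i ∈ s, g i) := by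
  classical
  induction s using Finset.induction_on with
  | empty => simpa using Lead.one
  | insert a s ha ih =>
    rw [Finset.sum_insert ha, Finset.prod_insert ha]
    exact (h a (Finset.mem_insert_self _ _)).mul (ih fun i hi => h i (Finset.mem_insert_of_mem hi))

def oneS (s : ℤ) (t : Finset (Fin N)) : Fin N → ℤ := fun i => if i ∈ t then s else 0

lemma el_eq (s : ℤ) (r : ℕ) :
    el N s r = ∑ t ∈ powersetCard r univ, AddMonoidAlgebra.single (oneS s t) 1 := by
  simp only [el, esymm, map_sum, map_prod, aeval_X]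
  apply Finset.sum_congr rfl
  intro t _
  simp only [xp, AddMonoidAlgebra.prod_single, Finset.prod_const_one]
  congr 1
  funext i
  simp [oneS, Finset.sum_apply, Pi.single_apply]

lemma el_zero (s : ℤ) {r : ℕ} (h : N < r) : el N s r = 0 := by
  rw [el_eq, Finset.powersetCard_eq_empty.mpr (by simpa using h), Finset.sum_empty]

lemma lead_el {s : ℤ} (hs : s ≠ 0) {r : ℕ} {t₀ : Finset (Fin N)} (h0 : #t₀ = r)
    (hd : ∀ t : Finset (Fin N), #t = r → Dom (oneS s t) (oneS s t₀)) :
    Lead (oneS s t₀) (el N s r) := by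
  rw [el_eq]
  constructor
  · rw [AddMonoidAlgebra.coeff_sum, Finsupp.finsetSum_apply, Finset.sum_eq_single t₀]
    · simp
    · intro t _ hne
      rw [AddMonoidAlgebra.coeff_single, Finsupp.single_eq_of_ne']
      intro he
      apply hne
      ext i
      have := congrFun he i
      unfold oneS at this
      split_ifs at this <;> simp_all
    · intro h; exact absurd (by simpa using h0) h
  · intro γ hγ
    rw [AddMonoidAlgebra.coeff_sum, Finsupp.finsetSum_apply] at hγ
    obtain ⟨t, ht, hne⟩ := Finset.exists_ne_zero_of_sum_ne_zero hγ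
    have : oneS s t = γ := by
      by_contra h
      rw [AddMonoidAlgebra.coeff_single, Finsupp.single_eq_of_ne' h] at hne
      exact hne rfl
    rw [← this]
    exact hd t (by simpa using ht)

lemma sum_oneS (s : ℤ) (t u : Finset (Fin N)) : ∑ i ∈ u, oneS s t i = s * #(u ∩ t) := by
  simp [oneS, Finset.sum_ite_mem, mul_comm]

lemma card_lt (m : ℕ) : #{i : Fin N | i.val < m} = min N m := Fin.card_filter_val_lt

lemma lead_el_pos {r : ℕ} (h : r ≤ N) : Lead (ind r) (el N 1 r) := by
  have e : (ind r : Fin N → ℤ) = oneS 1 {i : Fin N | i.val < r} := by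
    funext i; simp [ind, oneS]
  have hc : #{i : Fin N | i.val < r} = r := by rw [card_lt]; omega
  rw [e]
  apply lead_el one_ne_zero hc
  intro t ht
  constructor
  · rw [sum_oneS, sum_oneS, Finset.univ_inter, Finset.univ_inter, ht, hc]
  · intro m
    rw [sum_oneS, sum_oneS]
    have h1 : ({i : Fin N | i.val < m} : Finset (Fin N)) ∩
        ({i : Fin N | i.val < r} : Finset (Fin N)) =
        ({i : Fin N | i.val < min m r} : Finset (Fin N)) := by
      ext i; simp
    have h2 := Finset.card_le_card
      (Finset.inter_subset_left (s₁ := ({i : Fin N | i.val < m} : Finset (Fin N))) (s₂ := t))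
    have h3 := Finset.card_le_card
      (Finset.inter_subset_right (s₁ := ({i : Fin N | i.val < m} : Finset (Fin N))) (s₂ := t))
    rw [h1, card_lt]
    rw [card_lt] at h2
    omega

lemma lead_el_neg {r : ℕ} (h : r ≤ N) : Lead (fun i => -ind r i.rev) (el N (-1) r) := by
  have e : (fun i : Fin N => -ind r i.rev) = 
      oneS (-1) (({i : Fin N | i.val < N - r} : Finset (Fin N))ᶜ) := by
    funext i
    have := i.2
    simp only [ind, oneS, Fin.val_rev, Finset.mem_compl, Finset.mem_filter, Finset.mem_univ,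
      true_and]
    split_ifs <;> omega
  have hc : #(({i : Fin N | i.val < N - r} : Finset (Fin N))ᶜ) = r := by
    rw [Finset.card_compl, card_lt, Fintype.card_fin]; omega
  rw [e]
  apply lead_el (by norm_num) hc
  intro t ht
  constructor
  · rw [sum_oneS, sum_oneS, Finset.univ_inter, Finset.univ_inter, ht, hc]
  · intro m
    rw [sum_oneS, sum_oneS]
    have h1 := Finset.card_inter_add_card_union ({i : Fin N | i.val < m} : Finset (Fin N)) t
    have h2 := Finset.card_le_univ (({i : Fin N | i.val < m} : Finset (Fin N)) ∪ t)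
    have h3 := Finset.card_inter_add_card_union ({i : Fin N | i.val < m} : Finset (Fin N))
      (({i : Fin N | i.val < N - r} : Finset (Fin N))ᶜ)
    rw [Fintype.card_fin] at h2
    rw [card_lt] at h1 h3
    by_cases hm : m ≤ N - r
    · have : ({i : Fin N | i.val < m} : Finset (Fin N)) ∩
          (({i : Fin N | i.val < N - r} : Finset (Fin N))ᶜ) = ∅ := by
        ext i; simp; omega
      rw [this]; simp
    · have : ({i : Fin N | i.val < m} : Finset (Fin N)) ∪
          (({i : Fin N | i.val < N - r} : Finset (Fin N))ᶜ) = univ := by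
        ext i; simp; omega
      rw [this, Finset.card_univ, Fintype.card_fin] at h3
      omega

lemma sum_ind_col (lam : YoungDiagram) (i : Fin N) :
    ∑ c ∈ range (lam.rowLen 0), (ind (lam.colLen c) i : ℤ) = lam.rowLen i.val := by
  simp only [ind, ← YoungDiagram.mem_iff_lt_colLen, YoungDiagram.mem_iff_lt_rowLen]
  rw [Finset.sum_boole]
  have : (range (lam.rowLen 0)).filter (fun c => c < lam.rowLen i.val) = range (lam.rowLen i.val) := by
    ext c
    have := lam.rowLen_anti 0 i.val (Nat.zero_le _)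
    simp only [Finset.mem_filter, Finset.mem_range]
    omega
  rw [this]; simp

lemma sum_col (lam : YoungDiagram) :
    ∑ c ∈ range (lam.rowLen 0), (lam.colLen c : ℤ) = ys lam (fun _ z => z) := by
  rw [← sum_row (N := lam.colLen 0) lam (fun _ z => z) (by simp) le_rfl]
  simp only [← sum_ind_col]
  rw [Finset.sum_comm]
  apply Finset.sum_congr rfl
  intro c _
  have h1 := sum_ind (N := lam.colLen 0) (lam.colLen c) (fun _ => 1)
  simp only [mul_one, Finset.sum_const, nsmul_eq_mul, card_lt] at h1
  rw [h1]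
  have := lam.colLen_anti 0 c (Nat.zero_le _)
  omega

lemma F_prod {ι : Type} (s : Finset ι) (d : ι → ℤ) (f : ι → Lam) (h : ∀ i ∈ s, f i ∈ F (d i)) :
    ∏ i ∈ s, f i ∈ F (∑ i ∈ s, d i) := by
  classical
  induction s using Finset.induction_on with
  | empty => simpa using one_mem_F
  | insert a s ha ih =>
    rw [Finset.sum_insert ha, Finset.prod_insert ha]
    exact F_mul (h a (Finset.mem_insert_self _ _)) (ih fun i hi => h i (Finset.mem_insert_of_mem hi))

theorem exists_start (lam mu : YoungDiagram) : ∃ M ∈ F (da lam mu), ∀ N : ℕ,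
    (lam.colLen 0 ≤ N → mu.colLen 0 ≤ N → Lead (chi lam mu N) (phiA N M)) ∧
    (N < lam.colLen 0 ∨ N < mu.colLen 0 → phiA N M = 0) := by
  choose E hE1 hE2 using exists_E 1 (by norm_num)
  choose E' hE1' hE2' using exists_E (-1) (by norm_num)
  refine ⟨(∏ c ∈ range (lam.rowLen 0), E (lam.colLen c)) *
    ∏ c ∈ range (mu.rowLen 0), E' (mu.colLen c), ?_, fun N => ⟨fun hl hm => ?_, fun h => ?_⟩⟩
  · rw [da, ← sum_col, ← sum_col]
    exact F_mul (F_prod _ _ _ fun c _ => hE1 _) (F_prod _ _ _ fun c _ => hE1' _)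
  · simp only [map_mul, map_prod, hE2, hE2']
    have h1 := Lead.prod (range (lam.rowLen 0)) _ _ (fun c _ =>
      lead_el_pos (N := N) ((lam.colLen_anti 0 c (Nat.zero_le _)).trans hl))
    have h2 := Lead.prod (range (mu.rowLen 0)) _ _ (fun c _ =>
      lead_el_neg (N := N) ((mu.colLen_anti 0 c (Nat.zero_le _)).trans hm))
    convert h1.mul h2 using 1
    funext i
    simp only [chi, Pi.add_apply, Finset.sum_apply, Finset.sum_neg_distrib, sum_ind_col]
    ring
  · simp only [map_mul, map_prod, hE2, hE2']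
    rcases h with h | h
    · have h1 : 0 ∈ range (lam.rowLen 0) :=
        Finset.mem_range.mpr ((rowLen_pos_iff lam 0).mpr (by omega))
      rw [Finset.prod_eq_zero (f := fun c => el N 1 (lam.colLen c)) h1 (el_zero _ h), zero_mul]
    · have h1 : 0 ∈ range (mu.rowLen 0) :=
        Finset.mem_range.mpr ((rowLen_pos_iff mu 0).mpr (by omega))
      rw [Finset.prod_eq_zero (f := fun c => el N (-1) (mu.colLen c)) h1 (el_zero _ h), mul_zero]

end Pool.Agent.P.MP_80096b_al
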