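import Pool.Agent.P.MP_80096b_al.Limit

/-! The operator `∑ a ∂_a ∂_(-a)` and its exponential. -/

namespace Pool.Agent.P.MP_80096b_al

open MvPolynomial Finset

/-- The index `i + 1`. -/
def pos (i : ℕ) : Idx := ⟨(i : ℤ) + 1, by omega⟩

/-- The index `-(i + 1)`. -/
def neg (i : ℕ) : Idx := ⟨-((i : ℤ) + 1), by omega⟩

/-- The operator `Δ = ∑_(a ≥ 1) a ∂/∂p_a ∂/∂p_(-a)` (only finitely many terms are nonzero). -/
noncomputable def lap (f : MvPolynomial Idx ℂ) : MvPolynomial Idx ℂ :=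
  ∑ᶠ i : ℕ, ((i : ℂ) + 1) • pderiv (pos i) (pderiv (neg i) f)

/-- The operator `exp (Δ / k) = ∑_(j ≥ 0) Δ ^ j / (j ! k ^ j)` (only finitely many terms are
nonzero). -/
noncomputable def wick (k : ℂ) (f : MvPolynomial Idx ℂ) : MvPolynomial Idx ℂ :=
  ∑ᶠ j : ℕ, ((j.factorial : ℂ) * k ^ j)⁻¹ • lap^[j] f

lemma pd_comm (a b : Idx) (f : Lam) : pderiv a (pderiv b f) = pderiv b (pderiv a f) := by
  classical
  induction f using MvPolynomial.induction_on with
  | C r => simp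
  | add p q hp hq => simp only [map_add, hp, hq]
  | mul_X p j hp =>
    simp only [Derivation.leibniz, smul_eq_mul, map_add, pderiv_X, Pi.single_apply, hp]
    split_ifs <;> simp <;> ring

/-- The indices of size at most `n`. -/
def SS (n : ℕ) : Finset Idx := (range n).image pos ∪ (range n).image neg

lemma mem_SS {n : ℕ} {a : Idx} : a ∈ SS n ↔ |a.1| ≤ n := by
  have := a.2
  simp only [SS, mem_union, mem_image, mem_range, Subtype.ext_iff, pos, neg]
  constructor
  · rintro (⟨i, h1, h2⟩ | ⟨i, h1, h2⟩) <;> rw [abs_le] <;> omega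
  · intro h
    rw [abs_le] at h
    rcases lt_or_gt_of_ne this with h0 | h0
    · exact Or.inr ⟨(-a.1 - 1).toNat, by omega, by omega⟩
    · exact Or.inl ⟨(a.1 - 1).toNat, by omega, by omega⟩

lemma good_SS {n : ℕ} {d : ℤ} (h : d ≤ n) : Good (SS n) d := fun _ ha => mem_SS.2 (ha.trans h)

lemma sum_SS (n : ℕ) (g : Idx → Lam) :
    ∑ a ∈ SS n, g a = ∑ i ∈ range n, g (pos i) + ∑ i ∈ range n, g (neg i) := by
  rw [SS, sum_union, sum_image, sum_image]
  · intro i _ j _ h
    have := congrArg Subtype.val h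
    simp only [neg] at this
    omega
  · intro i _ j _ h
    have := congrArg Subtype.val h
    simp only [pos] at this
    omega
  · rw [disjoint_left]
    simp only [mem_image, Subtype.ext_iff, pos, neg]
    rintro a ⟨i, -, h1⟩ ⟨j, -, h2⟩
    omega

/-- Truncated second order operators. -/
noncomputable def LL (e n : ℕ) : Module.End ℂ Lam :=
  ∑ i ∈ range n, (((i : ℂ) + 1) ^ e) • (Dv (pos i) ∘ₗ Dv (neg i))

lemma LL_apply (e n : ℕ) (f : Lam) : LL e n f =
    ∑ i ∈ range n, (((i : ℂ) + 1) ^ e) • pderiv (pos i) (pderiv (neg i) f) := by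
  simp [LL, Dv, LinearMap.sum_apply]

/-- The degree operator. -/
noncomputable def GG (n : ℕ) : Module.End ℂ Lam :=
  ∑ a ∈ SS n, ((|a.1| : ℤ) : ℂ) • (LinearMap.mulLeft ℂ (X a) ∘ₗ Dv a)

lemma GG_apply (n : ℕ) (f : Lam) : GG n f =
    ∑ a ∈ SS n, ((|a.1| : ℤ) : ℂ) • (X a * pderiv a f) := by
  simp [GG, Dv, LinearMap.sum_apply]

lemma L1_SS (k : ℂ) (n : ℕ) (f : Lam) : L1 k (SS n) f = -(2 : ℂ) • LL 2 n f - k • GG n f := by
  have h : ∀ a ∈ SS n, ∑ b ∈ SS n, (if a.1 + b.1 = 0 then ((a.1 * b.1 : ℤ) : ℂ) else 0) •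
      pderiv b (pderiv a f) = (-(a.1 : ℂ) ^ 2) •
        pderiv ⟨-a.1, neg_ne_zero.2 a.2⟩ (pderiv a f) := by
    intro a ha
    rw [sum_eq_single ⟨-a.1, neg_ne_zero.2 a.2⟩]
    · simp [sq]
    · intro b _ hb
      rw [if_neg fun e => hb (Subtype.ext (by simp only; omega)), zero_smul]
    · intro hb
      exact (hb (mem_SS.2 (by simpa using mem_SS.1 ha))).elim
  rw [L1_apply, GG_apply, sum_congr rfl h, sum_SS, LL_apply, ← sum_add_distrib, smul_sum (r := -(2 : ℂ))]
  refine congrArg (· - _) (sum_congr rfl fun i _ => ?_)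
  have e1 : (⟨-(pos i).1, neg_ne_zero.2 (pos i).2⟩ : Idx) = neg i := rfl
  have e2 : (⟨-(neg i).1, neg_ne_zero.2 (neg i).2⟩ : Idx) = pos i := Subtype.ext (neg_neg _)
  rw [e1, e2, pd_comm (neg i), ← add_smul, smul_smul]
  congr 1
  simp only [pos, neg]
  push_cast
  ring

lemma GG_pd {n : ℕ} {b : Idx} (hb : b ∈ SS n) (f : Lam) :
    GG n (pderiv b f) = pderiv b (GG n f) - ((|b.1| : ℤ) : ℂ) • pderiv b f := by
  classical
  rw [GG_apply, GG_apply, map_sum, eq_sub_iff_add_eq, ← sum_pi_single' b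
    (((|b.1| : ℤ) : ℂ) • pderiv b f) (SS n) |>.trans (if_pos hb), ← sum_add_distrib]
  refine sum_congr rfl fun a _ => ?_
  rw [Derivation.map_smul, Derivation.leibniz, pd_comm a b, pderiv_X, smul_add]
  by_cases e : a = b
  · subst e
    simp
  · simp [e]

lemma GG_LL (n : ℕ) (f : Lam) : GG n (LL 1 n f) = LL 1 n (GG n f) - (2 : ℂ) • LL 2 n f := by
  simp only [LL_apply, map_sum, map_smul, smul_sum, ← sum_sub_distrib]
  refine sum_congr rfl fun i hi => ?_
  have h1 : pos i ∈ SS n := mem_union_left _ (mem_image_of_mem _ hi)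
  have h2 : neg i ∈ SS n := mem_union_right _ (mem_image_of_mem _ hi)
  have e1 : ((|(pos i).1| : ℤ) : ℂ) = i + 1 := by
    rw [show |(pos i).1| = i + 1 from abs_of_nonneg (by simp only [pos]; omega)]
    push_cast
    rfl
  have e2 : ((|(neg i).1| : ℤ) : ℂ) = i + 1 := by
    rw [show |(neg i).1| = |(pos i).1| from abs_neg _, e1]
  rw [GG_pd h1, GG_pd h2, map_sub, Derivation.map_smul, e1, e2]
  module

lemma LL_comm (n : ℕ) (f : Lam) : LL 1 n (LL 2 n f) = LL 2 n (LL 1 n f) := by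
  simp only [LL_apply, map_sum, map_smul, smul_sum]
  rw [sum_comm]
  refine sum_congr rfl fun i _ => sum_congr rfl fun j _ => ?_
  rw [smul_comm, pd_comm (neg j) (pos i), pd_comm (pos j) (pos i), pd_comm (neg j) (neg i),
    pd_comm (pos j) (neg i)]

lemma LL_mem_F (e n : ℕ) {d : ℤ} {f : Lam} (hf : f ∈ F d) : LL e n f ∈ F (d - 1) := by
  rw [LL_apply]
  refine Submodule.sum_mem _ fun i _ => Submodule.smul_mem _ _
    (F_mono ?_ (pderiv_mem_F (pderiv_mem_F hf _) _))
  have := abs_pos.mpr (pos i).2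
  have := abs_nonneg (neg i).1
  omega

lemma LL_pow_mem_F (n j : ℕ) {d : ℤ} {f : Lam} (hf : f ∈ F d) : (LL 1 n ^ j) f ∈ F (d - j) := by
  induction j with
  | zero => simpa using hf
  | succ j ih =>
    rw [pow_succ', Module.End.mul_apply]
    exact F_mono (by push_cast; omega) (LL_mem_F 1 n ih)

lemma lap_eq {n : ℕ} {d : ℤ} (h : d ≤ n) {f : Lam} (hf : f ∈ F d) : lap f = LL 1 n f := by
  rw [lap, LL_apply, finsum_eq_sum_of_support_subset (s := range n)]
  · simp only [pow_one]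
  · intro i hi
    by_contra e
    have h1 : (i : ℤ) + 1 ≤ |(neg i).1| := neg_neg ((i : ℤ) + 1) ▸ neg_le_abs _
    simp only [coe_range, Set.mem_Iio] at e
    apply hi
    simp only
    rw [F_neg (by omega) (pderiv_mem_F hf (neg i)), map_zero, smul_zero]

lemma wick_eq (k : ℂ) {n : ℕ} {d : ℤ} (h : d ≤ n) {f : Lam} (hf : f ∈ F d) :
    wick k f = ∑ j ∈ range (n + 1), ((j.factorial : ℂ) * k ^ j)⁻¹ • (LL 1 n ^ j) f := by
  have h1 : ∀ j, lap^[j] f = (LL 1 n ^ j) f := by
    intro j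
    induction j with
    | zero => rfl
    | succ j ih =>
      rw [Function.iterate_succ_apply', ih, pow_succ', Module.End.mul_apply,
        lap_eq (n := n) (by omega) (LL_pow_mem_F n j hf)]
  simp only [wick, h1]
  apply finsum_eq_sum_of_support_subset
  intro j hj
  by_contra e
  simp only [coe_range, Set.mem_Iio] at e
  apply hj
  simp only
  rw [F_neg (by omega) (LL_pow_mem_F n j hf), smul_zero]

lemma wick_sub (k : ℂ) {d : ℤ} {f : Lam} (hf : f ∈ F d) : wick k f - f ∈ F (d - 1) := by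
  rw [wick_eq k (n := d.toNat) (by omega) hf, sum_range_succ']
  simp only [Nat.factorial_zero, Nat.cast_one, pow_zero, mul_one, inv_one, one_smul,
    Module.End.one_apply, add_sub_cancel_right]
  exact Submodule.sum_mem _ fun j _ => Submodule.smul_mem _ _
    (F_mono (by push_cast; omega) (LL_pow_mem_F _ _ hf))

lemma wick_ker {k : ℂ} (hk : k ≠ 0) {n : ℕ} {d : ℤ} (h : d ≤ n) {f : Lam} (hf : f ∈ F d)
    (hG : GG n f = (d : ℂ) • f) : L1 k (SS n) (wick k f) + (k * d) • wick k f = 0 := by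
  have h1 : ∀ j : ℕ, GG n ((LL 1 n ^ (j + 1)) f) = (d : ℂ) • (LL 1 n ^ (j + 1)) f -
      (2 * ((j : ℂ) + 1)) • LL 2 n ((LL 1 n ^ j) f) := by
    intro j
    induction j with
    | zero => simp [GG_LL, hG]
    | succ j ih =>
      rw [pow_succ' _ (j + 1), Module.End.mul_apply, GG_LL, ih, map_sub, map_smul, map_smul,
        LL_comm, pow_succ' _ j, Module.End.mul_apply]
      push_cast
      module
  have h2 : ∀ l : ℕ, L1 k (SS n) (∑ j ∈ range (l + 1),
      ((j.factorial : ℂ) * k ^ j)⁻¹ • (LL 1 n ^ j) f) + (k * d) • ∑ j ∈ range (l + 1),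
        ((j.factorial : ℂ) * k ^ j)⁻¹ • (LL 1 n ^ j) f =
      (-2 * ((l.factorial : ℂ) * k ^ l)⁻¹) • LL 2 n ((LL 1 n ^ l) f) := by
    intro l
    induction l with
    | zero => simp [L1_SS, hG, smul_smul]
    | succ l ih =>
      have e : ((l.factorial : ℂ) * k ^ l)⁻¹ =
          (((l + 1).factorial : ℂ) * k ^ (l + 1))⁻¹ * (k * (l + 1)) := by
        have : (l.factorial : ℂ) ≠ 0 := Nat.cast_ne_zero.2 l.factorial_ne_zero
        have : (l : ℂ) + 1 ≠ 0 := Nat.cast_add_one_ne_zero l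
        rw [Nat.factorial_succ]
        push_cast
        field_simp
        ring
      rw [sum_range_succ _ (l + 1), map_add, smul_add, add_add_add_comm, ih, map_smul, L1_SS, h1, e]
      module
  rw [wick_eq k h hf, h2, F_neg (by omega) (LL_mem_F 2 n (LL_pow_mem_F n n hf)), smul_zero]

lemma GG_mul (n : ℕ) (f g : Lam) : GG n (f * g) = GG n f * g + f * GG n g := by
  simp only [GG_apply, Derivation.leibniz, smul_eq_mul, sum_mul, mul_sum, ← sum_add_distrib]
  refine sum_congr rfl fun a _ => ?_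
  simp only [mul_add, smul_add, smul_mul_assoc, mul_smul_comm]
  rw [add_comm]
  congr 2 <;> ring

lemma L0_mul (k : ℂ) (S : Finset Idx) {d e : ℤ} {f g : Lam} (hf : f ∈ F d) (hg : g ∈ F e)
    (h1 : ∀ a : Idx, a.1 < 0 → pderiv a f = 0) (h2 : ∀ a : Idx, 0 < a.1 → pderiv a g = 0) :
    L0 k S (f * g) - (L0 k S f * g + f * L0 k S g) ∈ F (d + e - 1) := by
  have key : ∀ a b : Idx, pp0 (a.1 + b.1) * (pderiv a f * pderiv b g) ∈ F (d + e - 1) := by
    intro a b
    rcases lt_or_gt_of_ne a.2 with ha | ha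
    · rw [h1 a ha, zero_mul, mul_zero]
      exact zero_mem _
    rcases lt_or_gt_of_ne b.2 with hb | hb
    · refine F_mono ?_ (F_mul (pp0_mem_F _) (F_mul (pderiv_mem_F hf a) (pderiv_mem_F hg b)))
      rw [abs_of_pos ha, abs_of_neg hb]
      rcases abs_cases (a.1 + b.1) with h | h <;> omega
    · rw [h2 b hb, mul_zero, mul_zero]
      exact zero_mem _
  have e : L0 k S (f * g) - (L0 k S f * g + f * L0 k S g) = ∑ a ∈ S, ∑ b ∈ S,
      ((a.1 * b.1 : ℤ) : ℂ) • (pp0 (a.1 + b.1) * (pderiv a f * pderiv b g) +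
        pp0 (b.1 + a.1) * (pderiv b f * pderiv a g)) := by
    have s1 : ∀ (c : Idx → ℂ) (w : Idx → Lam), ∑ a ∈ S, c a • (w a * pderiv a (f * g)) =
        (∑ a ∈ S, c a • (w a * pderiv a f)) * g + f * ∑ a ∈ S, c a • (w a * pderiv a g) := by
      intro c w
      simp only [sum_mul, mul_sum, ← sum_add_distrib, smul_eq_C_mul, Derivation.leibniz,
        smul_eq_mul]
      exact sum_congr rfl fun a _ => by ring
    have s2 : ∑ a ∈ S, ∑ b ∈ S, ((a.1 * b.1 : ℤ) : ℂ) •
        (pp0 (a.1 + b.1) * pderiv b (pderiv a (f * g))) = (∑ a ∈ S, ∑ b ∈ S,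
        ((a.1 * b.1 : ℤ) : ℂ) • (pp0 (a.1 + b.1) * pderiv b (pderiv a f))) * g + f * ∑ a ∈ S,
        ∑ b ∈ S, ((a.1 * b.1 : ℤ) : ℂ) • (pp0 (a.1 + b.1) * pderiv b (pderiv a g)) + ∑ a ∈ S,
        ∑ b ∈ S, ((a.1 * b.1 : ℤ) : ℂ) • (pp0 (a.1 + b.1) * (pderiv a f * pderiv b g) +
          pp0 (b.1 + a.1) * (pderiv b f * pderiv a g)) := by
      simp only [sum_mul, mul_sum, ← sum_add_distrib, smul_eq_C_mul, Derivation.leibniz,
        smul_eq_mul, map_add]
      exact sum_congr rfl fun a _ => sum_congr rfl fun b _ => by rw [add_comm b.1]; ring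
    rw [L0_apply, L0_apply, L0_apply, s1, s1, s2]
    simp only [smul_eq_C_mul _ k]
    ring
  rw [e]
  exact Submodule.sum_mem _ fun a _ => Submodule.sum_mem _ fun b _ =>
    Submodule.smul_mem _ _ (add_mem (key a b) (key b a))

end Pool.Agent.P.MP_80096b_al
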